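import Pool.Agent.FCK.Defs

/-!
# Corner Cantor sets: basic facts
-/

set_option autoImplicit false

namespace Pool.Agent.FCK

open MeasureTheory Set
open Pool.Agent.FCC (Wd bv agr)

theorem bt_nonneg (b : Bool) : 0 ≤ bt b := by unfold bt; split <;> norm_num
theorem bt_le (b : Bool) : bt b ≤ 1 := by unfold bt; split <;> norm_num
theorem bt_true : bt true = 1 := rfl
theorem bt_false : bt false = 0 := by unfold bt; norm_num

theorem Adm.pos {δ : ℝ} {lam : ℕ → ℝ} (h : Adm δ lam) (hδ : 0 < δ) (k : ℕ) : 1 / 4 ≤ lam k := by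
  rcases h k with h | h
  · rw [h]
  · linarith [h.1]

theorem Adm.pos' {δ : ℝ} {lam : ℕ → ℝ} (h : Adm δ lam) (hδ : 0 < δ) : Pos lam := by
  intro k
  rcases h k with h | h
  · rw [h]; norm_num
  · constructor <;> linarith [h.1, h.2]

theorem Adm.low {δ : ℝ} {lam : ℕ → ℝ} (h : Adm δ lam) (hδ : 0 < δ) : Low (min δ (1 / 4)) lam := by
  intro k
  have h1 := min_le_left δ (1 / 4)
  have h2 := min_le_right δ (1 / 4)
  rcases h k with h | h
  · rw [h]; constructor <;> linarith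
  · constructor <;> linarith [h.1, h.2]

theorem Adm.sh {δ : ℝ} {lam : ℕ → ℝ} (h : Adm δ lam) (N : ℕ) : Adm δ (sh N lam) := fun k => h _
theorem Low.sh {δ : ℝ} {lam : ℕ → ℝ} (h : Low δ lam) (N : ℕ) : Low δ (sh N lam) := fun k => h _
theorem Pos.sh {lam : ℕ → ℝ} (h : Pos lam) (N : ℕ) : Pos (sh N lam) := fun k => h _

theorem Low.pos {δ : ℝ} {lam : ℕ → ℝ} (h : Low δ lam) (hδ : 0 ≤ δ) : Pos lam := by
  intro k
  constructor <;> linarith [(h k).1, (h k).2]

theorem sh_apply (N : ℕ) (lam : ℕ → ℝ) (k : ℕ) : sh N lam k = lam (k + N) := rfl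

theorem sh_sh (M N : ℕ) (lam : ℕ → ℝ) : sh M (sh N lam) = sh (M + N) lam := by
  funext k
  show lam (k + M + N) = lam (k + (M + N))
  rw [Nat.add_assoc]

theorem sh_zero (lam : ℕ → ℝ) : sh 0 lam = lam := rfl

theorem sg_zero (lam : ℕ → ℝ) : sg lam 0 = 1 := by unfold sg; simp

theorem sg_succ (lam : ℕ → ℝ) (n : ℕ) : sg lam (n + 1) = sg lam n * lam n := by
  unfold sg; rw [Finset.prod_range_succ]

theorem sg_succ' (lam : ℕ → ℝ) (n : ℕ) : sg lam (n + 1) = lam 0 * sg (sh 1 lam) n := by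
  unfold sg; rw [Finset.prod_range_succ', mul_comm]; rfl

theorem sg_add (lam : ℕ → ℝ) (N m : ℕ) : sg lam (N + m) = sg lam N * sg (sh N lam) m := by
  unfold sg
  rw [Finset.prod_range_add]
  congr 1
  exact Finset.prod_congr rfl fun i _ => by rw [sh_apply, Nat.add_comm]

theorem sg_pos {lam : ℕ → ℝ} (h : ∀ k, 0 < lam k) (n : ℕ) : 0 < sg lam n :=
  Finset.prod_pos fun i _ => h i

theorem sg_le {lam : ℕ → ℝ} (h : Pos lam) {j k : ℕ} (hjk : j ≤ k) :
    sg lam k ≤ sg lam j / 2 ^ (k - j) := by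
  obtain ⟨m, rfl⟩ := Nat.exists_eq_add_of_le hjk
  rw [Nat.add_sub_cancel_left, sg_add]
  have h0 := sg_pos (fun k => (h k).1) j
  have h1 : sg (sh j lam) m ≤ 1 / 2 ^ m := by
    unfold sg
    calc ∏ i ∈ Finset.range m, sh j lam i ≤ ∏ i ∈ Finset.range m, (1 / 2 : ℝ) :=
          Finset.prod_le_prod (fun i _ => (h _).1.le) (fun i _ => (h _).2)
      _ = 1 / 2 ^ m := by rw [Finset.prod_const, Finset.card_range, one_div_pow]
  calc sg lam j * sg (sh j lam) m ≤ sg lam j * (1 / 2 ^ m) := mul_le_mul_of_nonneg_left h1 h0.le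
    _ = sg lam j / 2 ^ m := by ring

theorem th_zero (lam : ℕ → ℝ) : th lam 0 = 1 := by unfold th; rw [sg_zero]; norm_num

theorem th_pos {lam : ℕ → ℝ} (h : ∀ k, 0 < lam k) (n : ℕ) : 0 < th lam n := by
  unfold th
  have := sg_pos h n
  positivity

theorem th_succ {lam : ℕ → ℝ} (h : ∀ k, 0 < lam k) (n : ℕ) :
    th lam (n + 1) = th lam n / (4 * lam n) := by
  unfold th
  rw [sg_succ]
  have h1 := (sg_pos h n).ne'
  have h2 := (h n).ne'
  field_simp
  rw [pow_succ]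

theorem th_succ' {lam : ℕ → ℝ} (h : ∀ k, 0 < lam k) (n : ℕ) :
    th lam (n + 1) = th (sh 1 lam) n / (4 * lam 0) := by
  unfold th
  rw [sg_succ']
  have h1 := (sg_pos (lam := sh 1 lam) (fun k => h _) n).ne'
  have h2 := (h 0).ne'
  field_simp
  rw [pow_succ]

theorem th_anti {lam : ℕ → ℝ} (h : ∀ k, 1 / 4 ≤ lam k) : Antitone (th lam) := by
  have h0 : ∀ k, 0 < lam k := fun k => lt_of_lt_of_le (by norm_num) (h k)
  refine antitone_nat_of_succ_le fun n => ?_
  rw [th_succ h0]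
  exact div_le_self (th_pos h0 n).le (by linarith [h n])

theorem th_le_one {lam : ℕ → ℝ} (h : ∀ k, 1 / 4 ≤ lam k) (n : ℕ) : th lam n ≤ 1 := by
  rw [← th_zero lam]
  exact th_anti h (Nat.zero_le n)

theorem th_mul {lam : ℕ → ℝ} (h : ∀ k, 0 < lam k) (n : ℕ) : th lam n * (4 ^ n * sg lam n) = 1 := by
  unfold th
  have := sg_pos h n
  field_simp

theorem Th_ge_one (lam : ℕ → ℝ) (n : ℕ) : 1 ≤ Th lam n := by
  unfold Th
  rw [Finset.sum_range_succ', th_zero]
  have : 0 ≤ ∑ k ∈ Finset.range n, th lam (k + 1) ^ 2 := Finset.sum_nonneg fun _ _ => sq_nonneg _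
  linarith

theorem SD_nonneg (lam : ℕ → ℝ) (n : ℕ) : 0 ≤ SD lam n :=
  Finset.sum_nonneg fun i _ => by split <;> positivity

/-! ### Words -/

theorem px_append {n m : ℕ} (lam : ℕ → ℝ) (u : Wd n) (v : Wd m) :
    px lam (Fin.append u v : Wd (n + m)) = px lam u + sg lam n * px (sh n lam) v := by
  unfold px
  rw [Fin.sum_univ_add, Finset.mul_sum]
  congr 1
  · exact Finset.sum_congr rfl fun i _ => by rw [Fin.append_left]; rfl
  · refine Finset.sum_congr rfl fun i _ => ?_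
    rw [Fin.append_right, Fin.val_natAdd, sg_add, sh_apply, Nat.add_comm i.val n]
    ring

theorem py_append {n m : ℕ} (lam : ℕ → ℝ) (u : Wd n) (v : Wd m) :
    py lam (Fin.append u v : Wd (n + m)) = py lam u + sg lam n * py (sh n lam) v := by
  unfold py
  rw [Fin.sum_univ_add, Finset.mul_sum]
  congr 1
  · exact Finset.sum_congr rfl fun i _ => by rw [Fin.append_left]; rfl
  · refine Finset.sum_congr rfl fun i _ => ?_
    rw [Fin.append_right, Fin.val_natAdd, sg_add, sh_apply, Nat.add_comm i.val n]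
    ring

theorem pr_append {n m : ℕ} (lam : ℕ → ℝ) (t : ℝ) (u : Wd n) (v : Wd m) :
    pr lam t (Fin.append u v : Wd (n + m)) = pr lam t u + sg lam n * pr (sh n lam) t v := by
  unfold pr
  rw [px_append, py_append]
  ring

theorem px_nonneg {lam : ℕ → ℝ} (h : Pos lam) {n : ℕ} (w : Wd n) : 0 ≤ px lam w :=
  Finset.sum_nonneg fun i _ => mul_nonneg (bt_nonneg _) (mul_nonneg (by linarith [(h i).2])
    (sg_pos (fun k => (h k).1) _).le)

theorem py_nonneg {lam : ℕ → ℝ} (h : Pos lam) {n : ℕ} (w : Wd n) : 0 ≤ py lam w :=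
  Finset.sum_nonneg fun i _ => mul_nonneg (bt_nonneg _) (mul_nonneg (by linarith [(h i).2])
    (sg_pos (fun k => (h k).1) _).le)

theorem tel (lam : ℕ → ℝ) (n : ℕ) : ∑ i : Fin n, (1 - lam i) * sg lam i = 1 - sg lam n := by
  rw [Fin.sum_univ_eq_sum_range (fun i => (1 - lam i) * sg lam i) n]
  induction n with
  | zero => simp [sg_zero]
  | succ n ih =>
    rw [Finset.sum_range_succ, ih, sg_succ]
    ring

theorem px_le {lam : ℕ → ℝ} (h : Pos lam) {n : ℕ} (w : Wd n) : px lam w ≤ 1 - sg lam n := by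
  rw [← tel]
  refine Finset.sum_le_sum fun i _ => mul_le_of_le_one_left ?_ (bt_le _)
  exact mul_nonneg (by linarith [(h i).2]) (sg_pos (fun k => (h k).1) _).le

theorem py_le {lam : ℕ → ℝ} (h : Pos lam) {n : ℕ} (w : Wd n) : py lam w ≤ 1 - sg lam n := by
  rw [← tel]
  refine Finset.sum_le_sum fun i _ => mul_le_of_le_one_left ?_ (bt_le _)
  exact mul_nonneg (by linarith [(h i).2]) (sg_pos (fun k => (h k).1) _).le

theorem pr_nonneg {lam : ℕ → ℝ} (h : Pos lam) {t : ℝ} (ht : 0 ≤ t) {n : ℕ} (w : Wd n) :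
    0 ≤ pr lam t w := add_nonneg (px_nonneg h w) (mul_nonneg ht (py_nonneg h w))

theorem pr_le {lam : ℕ → ℝ} (h : Pos lam) {t : ℝ} (ht : 0 ≤ t) {n : ℕ} (w : Wd n) :
    pr lam t w + (1 + t) * sg lam n ≤ 1 + t := by
  unfold pr
  have h1 := px_le h w
  have h2 := mul_le_mul_of_nonneg_left (py_le h w) ht
  linarith

theorem P_subset {lam : ℕ → ℝ} (h : Pos lam) (n : ℕ) {t : ℝ} (ht : 0 ≤ t) :
    P lam n t ⊆ Icc 0 (1 + t) := by
  intro x hx
  obtain ⟨w, hw⟩ := mem_iUnion.1 hx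
  exact ⟨(pr_nonneg h ht w).trans hw.1, hw.2.trans (pr_le h ht w)⟩

theorem measurableSet_P (lam : ℕ → ℝ) (n : ℕ) (t : ℝ) : MeasurableSet (P lam n t) :=
  MeasurableSet.iUnion fun _ => measurableSet_Icc

theorem volume_P_ne_top (lam : ℕ → ℝ) (n : ℕ) (t : ℝ) : volume (P lam n t) ≠ ⊤ := by
  have : volume (P lam n t) ≤ ∑ w : Wd n, volume (psq lam t w) := by
    unfold P
    exact measure_iUnion_fintype_le _ _
  refine ne_top_of_le_ne_top ?_ this
  refine ENNReal.sum_ne_top.2 fun w _ => ?_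
  unfold psq
  rw [Real.volume_Icc]
  exact ENNReal.ofReal_ne_top

theorem L_nonneg (lam : ℕ → ℝ) (n : ℕ) (t : ℝ) : 0 ≤ L lam n t := ENNReal.toReal_nonneg

theorem L_le {lam : ℕ → ℝ} (h : Pos lam) (n : ℕ) {t : ℝ} (ht : 0 ≤ t) : L lam n t ≤ 1 + t := by
  unfold L
  have h := measure_mono (μ := volume) (P_subset h n ht)
  rw [Real.volume_Icc, sub_zero] at h
  calc (volume (P lam n t)).toReal ≤ (ENNReal.ofReal (1 + t)).toReal :=
        ENNReal.toReal_mono ENNReal.ofReal_ne_top h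
    _ = 1 + t := ENNReal.toReal_ofReal (by linarith)

theorem measurableSet_joint (lam : ℕ → ℝ) (n : ℕ) (w : Wd n) :
    MeasurableSet {p : ℝ × ℝ | p.2 ∈ psq lam p.1 w} := by
  have : {p : ℝ × ℝ | p.2 ∈ psq lam p.1 w} = {p : ℝ × ℝ | px lam w + p.1 * py lam w ≤ p.2} ∩
      {p : ℝ × ℝ | p.2 ≤ px lam w + p.1 * py lam w + (1 + p.1) * sg lam n} := by
    ext p; rfl
  rw [this]
  exact (measurableSet_le (by fun_prop) (by fun_prop)).inter
    (measurableSet_le (by fun_prop) (by fun_prop))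

theorem measurable_L (lam : ℕ → ℝ) (n : ℕ) : Measurable (L lam n) := by
  unfold L
  have h : MeasurableSet {p : ℝ × ℝ | p.2 ∈ P lam n p.1} := by
    have : {p : ℝ × ℝ | p.2 ∈ P lam n p.1} = ⋃ w : Wd n, {p : ℝ × ℝ | p.2 ∈ psq lam p.1 w} := by
      ext p
      simp only [P, mem_iUnion, mem_ofPred_eq]
    rw [this]
    exact MeasurableSet.iUnion fun w => measurableSet_joint lam n w
  exact (measurable_measure_prodMk_left h).ennreal_toReal

theorem ext_subset (N : ℕ) {t : ℝ} (ht : 0 ≤ t) {R : Set ℝ} (hR : R ⊆ Icc 0 (1 + t)) :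
    ext N t R ⊆ Icc 0 (1 + t) := by
  intro x hx
  obtain ⟨w, hw⟩ := mem_iUnion.1 hx
  obtain ⟨h1, h2⟩ := hR hw
  have h4 : (0 : ℝ) < 4 ^ N := by positivity
  have h5 := FCC.pr_nonneg ht w
  have h6 := FCC.pr_le ht w
  constructor
  · have : 0 ≤ x - FCC.pr t w := nonneg_of_mul_nonneg_right h1 h4
    linarith
  · have : x - FCC.pr t w ≤ (1 + t) / 4 ^ N := by
      rw [le_div_iff₀ h4]
      linarith
    linarith

theorem measurableSet_ext (N : ℕ) (t : ℝ) {R : Set ℝ} (hR : MeasurableSet R) :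
    MeasurableSet (ext N t R) := by
  refine MeasurableSet.iUnion fun w => ?_
  exact (show Measurable fun x : ℝ => 4 ^ N * (x - FCC.pr t w) by fun_prop) hR

end Pool.Agent.FCK
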