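import Pool.Agent.FCK.Basic

/-!
# Corner Cantor sets with the ratios `1/4` and `[1/4 + δ, 1/2 - δ]`: statements and proofs

THEOREM. For every `δ > 0` there is `c > 0` such that for all sequences of ratios
`λ_k ∈ {1/4} ∪ [1/4 + δ, 1/2 - δ]` the generations `E_n` of the corner Cantor set satisfy
`c Fav(E_n) ≤ Θ_n^(-1/2)` and `c Θ_n^(-1/2) ≤ γ(E_n)`, `Θ_n = ∑_{k ≤ n} θ_k²`,
`θ_k = 1 / (4^k λ_0 .. λ_(k-1))`; hence `γ(E) ≥ c' Fav(E)` for `E = E_n` and for the limit set `E_i`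
(also when its length is not σ-finite).

Notation: `Wd n` = words of pairs of bits (`FCC`), `FCC.S N t` = the second moment of the multiplicity
function of the projection of the `N`-th generation with all ratios `1/4`, in the direction `t`.
One module for each `Stmt_...`; a module may use all the facts of `Basic.lean`, of `FCC` and `FCQ`,
and, as hypotheses, the statements it names.
-/

set_option autoImplicit false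

namespace Pool.Agent.FCK

open MeasureTheory Set
open Pool.Agent.FCC (Wd bv agr av)

/-! ### A. Second moments in all directions -/

/-- SYMS. Put `u = 1/(4t)`. For a word `w` of length `N` write `a` = its first `x`-digit, `b` = its
last `y`-digit, `v` = the word of length `N - 1` with the `x`-digits `2..N` and the `y`-digits
`1..N-1`. Then `pr t w = t (u bv a + pr u v + bv b / 4^N)` and
`psq t w = t • [u bv a + pr u v + bv b 4^(-N), .. + (1 + 4u) 4^(-N)]`. The two intervals `b = 0, 3`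
cover `u bv a + psq u v` (length `(4 + 4u) 4^(-N)`; `1 + 4u ≥ 3`). Hence pointwise
`f N t (t x) ≥ f (N-1) u x + f (N-1) u (x - 3u)`, and `S N t = t ∫ f N t (t x)² dx ≥ 2 t S (N-1) u`
by `(p + q)² ≥ p² + q²` and translation invariance; `2 t ≥ 1/2`. -/
def Stmt_SYMS : Prop := ∀ (N : ℕ) (t : ℝ), 1 ≤ N → 1 / 4 ≤ t → t ≤ 1 / 2 →
  FCC.S (N - 1) (1 / (4 * t)) ≤ 2 * FCC.S N t

/-- SCLS. `k = 0` is trivial. Let `t = s / 4^k`, `k ≥ 1`. For a word `w` of length `N` write `a` = its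
first `k` `x`-digits (value `X_a`), `v` = the word of length `N - k` with the `x`-digits `k+1..N` and
the `y`-digits `1..N-k`, `b` = its last `k` `y`-digits (value `Y_b ∈ [0, 1 - 4^(-k)]`). Then
`pr t w = X_a + 4^(-k) (pr s v + 4^(-(N-k)) s Y_b)`, and the projection of the square is
`X_a + 4^(-k) [pr s v + 4^(-(N-k)) s Y_b, .. + 4^(-(N-k)) (1 + t)]`. So
`f N t x = ∑_a G (4^k (x - X_a))` with `G = ∑_v g_v`, and `S N t ≥ ∑_a ∫ G(4^k (x - X_a))² dx =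
2^k 4^(-k) ∫ G²`. On the middle part `J_v = pr s v + 4^(-(N-k)) [s/4, 1 + 3s/4]` at least `2^(k-1)`
of the `2^k` intervals of `b` contain the point: at `z ∈ [s/4, 1 + t]` (relative coordinate) all `b`
with the first digit `0` (`Y_b ≤ 1/4`), at `z ∈ [1 + t, 1 + 3s/4]` all `b` with the first digit `3`
(`3/4 ≤ Y_b ≤ 1`). So `G ≥ 2^(k-1) F`, `F = ∑_v 1_(J_v)`. The interval `psq s v` (relative
`[0, 1 + s]`) is covered by `J_v` shifted by `± 4^(-(N-k)) s/4`, so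
`f (N-k) s x ≤ F(x + h) + F(x - h)` and `S (N-k) s ≤ 4 ∫ F²`. Together
`S N t ≥ 2^(-k) 4^(k-1) / 4 · S (N-k) s = 2^k / 16 · S (N-k) s`. -/
def Stmt_SCLS : Prop := ∀ (N k : ℕ) (s : ℝ), 0 < s → s ≤ 1 → k ≤ N →
  2 ^ k * FCC.S (N - k) s ≤ 16 * FCC.S N (s / 4 ^ k)

/-- TQ. The tail in the main range: this is `FCQ.TAIL2_thm` with all its hypotheses, as in
`FCQ.AVERQ_thm`, `FCQ.AVERQ` (the file `FCK/TQ.lean` is written by helper97). -/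
def Stmt_TQ : Prop := ∃ C : ℝ, 0 < C ∧ ∀ (N : ℕ) (y : ℝ), 1 ≤ N → 0 < y →
  (volume {t : ℝ | t ∈ Icc (1 / 2 : ℝ) 1 ∧ FCC.S N t ≤ y}).toReal ≤
    C * (y / N) ^ (101 / 200 : ℝ)

/-- TAIL3. From `Stmt_TQ`, `Stmt_SYMS`, `Stmt_SCLS`. `S N t ≥ S 0 t = 1 + t ≥ 1` (`FCC.S_mono`,
`FCC.S_zero`), so let `y ≥ 1`. (1) On `[1/4, 1/2]`, `N ≥ 2`: the set `{S N t ≤ y}` is contained in the
preimage of `{u ∈ [1/2, 1] : S (N-1) u ≤ 2y}` under `u = 1/(4t)`; `t = 1/(4u)` is `1`-Lipschitz on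
`[1/2, 1]`, so the measure is at most `C (2y/(N-1))^s ≤ C (4y/N)^s`. (2) For `k ≤ N/2 - 1` (so
`N - k ≥ N/2`, `N - k ≥ 2`): `{t ∈ [4^(-k-1), 4^(-k)] : S N t ≤ y} ⊆ 4^(-k) {s ∈ [1/4, 1] :
S (N-k) s ≤ 16 y / 2^k}` has measure at most `4^(-k) C' (32 y / (2^k N))^s ≤ 4^(-k) C'' (y/N)^s`.
(3) The rest `[0, 4^(-k)]`, `k ≥ N/2 - 1`, has measure at most `4 · 2^(-N) · 4 ≤ C (1/N)^s ≤
C (y/N)^s`. -/
def Stmt_TAIL3 : Prop := ∃ C : ℝ, 0 < C ∧ ∀ (N : ℕ) (y : ℝ), 1 ≤ N → 0 < y →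
  (volume {t : ℝ | t ∈ Icc (0 : ℝ) 1 ∧ FCC.S N t ≤ y}).toReal ≤
    C * (y / N) ^ (101 / 200 : ℝ)

/-! ### B. One stretch -/

/-- RECK. Copy of `FCC/REC.lean` with an arbitrary set `R` instead of `FCC.P M t`
(`FCC.P (N + M) t = ext N t (FCC.P M t)`); `FCC.REC.Gb`, `FCC.REC.card_Gb'` etc. can be used. -/
def Stmt_RECK : Prop := ∀ (N K : ℕ) (t : ℝ) (B : Finset (ℕ × ℤ)), 0 ≤ t → t ≤ 1 →
  (∀ b ∈ B, b.1 ≤ N ∧ K ≤ FCC.cnt t b.1 b.2) → (B : Set (ℕ × ℤ)).PairwiseDisjoint FCC.Jst →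
  ∃ η : ℝ, K * ∑ b ∈ B, (1 : ℝ) / 4 ^ b.1 ≤ η ∧ η ≤ 1 ∧
    ∀ R : Set ℝ, R ⊆ Icc 0 (1 + t) → MeasurableSet R →
      (volume (ext N t R)).toReal ≤
        5 * (∑ b ∈ B, (1 : ℝ) / 4 ^ b.1) + (1 - η) * (volume R).toReal

/-- STRK. From `Stmt_RECK` (and `FCC.STOP_thm`, `FCC.VIT_thm`). `K = ⌈10/ρ⌉`, `5 ≤ 10/ρ ≤ K ≤ 12/ρ`,
so `4 K ≤ 48/ρ < S N t`. With `σ = ∑_{b ∈ B} 4^(-b.1)`: `20 σ ≥ 1/(32 K²)`, so `σ ≥ ρ²/92160`, and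
`|ext R| ≤ 5 σ + (1 - η) |R| ≤ 5 σ + (1 - K σ) ρ = ρ - σ (K ρ - 5) ≤ ρ - 5 σ ≤ ρ - ρ²/18432 ≤
1/(1/ρ + 1/18432)`. -/
def Stmt_STRK : Prop := ∀ (N : ℕ) (t ρ : ℝ) (R : Set ℝ), 0 ≤ t → t ≤ 1 → R ⊆ Icc 0 (1 + t) →
  MeasurableSet R → 0 < ρ → ρ ≤ 2 → (volume R).toReal ≤ ρ → 48 / ρ < FCC.S N t →
  (volume (ext N t R)).toReal ≤ 1 / (1 / ρ + 1 / 18432)

/-- STEP. (1) A word of length `n + 1` is a letter `(a, b)` and a word `v` of length `n`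
(`Fin.append` with the first length `1`, `px_append`, `py_append`, or `Fin.cons`):
`psq lam t w = (1 - λ_0) (bt a + t bt b) + λ_0 • psq (sh 1 lam) t v`, so `P lam (n+1) t` is a union of
four translates of `λ_0 • P (sh 1 lam) n t`. (2) `Fin.append`, `pr_append`: for `u` of length `N`
`px lam u = FCC.px u` (`(1 - 1/4) 4^(-i) = 3/4^(i+1)`), `sg lam N = 4^(-N)`. -/
def Stmt_STEP : Prop :=
  (∀ (lam : ℕ → ℝ) (n : ℕ) (t : ℝ), Pos lam → 0 ≤ t →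
    L lam (n + 1) t ≤ 4 * lam 0 * L (sh 1 lam) n t) ∧
  (∀ (lam : ℕ → ℝ) (N m : ℕ) (t : ℝ), (∀ i < N, lam i = 1 / 4) →
    P lam (N + m) t = ext N t (P (sh N lam) m t))

/-! ### C. All the stretches -/

/-- IND. From `Stmt_STRK`, `Stmt_STEP`. Write `W(lam,n,τ) = ∑_{i<n, λ_i = 1/4} τθ_i g(τθ_i)/Nf(τθ_i)`,
`c₁ = 1/18432`. CLAIM, by induction on `n` for all `lam` and all `0 < τ ≤ 1`: there are `c < Nf τ`,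
`c ≤ n`, and `0 < V ≤ K` with `λ_i = 1/4` for `i < c`, `L (sh c lam) (n - c) t ≤ τ/V` and
`min K (c₁ (W(lam,n,τ) - c τ g(τ)/Nf τ - τ SX lam n)) ≤ V`.
`n = 0`: `c = 0`, `V = τ/2` (`L = 1 + t ≤ 2`). Step for `lam`, `n + 1`, with the claim for `sh 1 lam`,
`n`, `τ' = τ/(4 λ_0)` (note `θ_(i+1)(lam) = θ_i(sh 1 lam)/(4λ_0)`, `th_succ'`, so
`W(lam,n+1,τ) = [λ_0 = 1/4] τ g(τ)/Nf τ + W(sh 1 lam,n,τ')`, and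
`τ SX lam (n+1) = [λ_0 ≠ 1/4] τ' + τ' SX (sh 1 lam) n`):
(a) `λ_0 = 1/4`, `c + 1 < Nf τ`: take `c + 1` and the same `V`. (b) `λ_0 = 1/4`, `c + 1 = Nf τ`: now
`c := 0`. If `g τ = 0`: the same `V`, `L lam (n+1) t ≤ L (sh (c+1) lam) (n-c) t` (STEP (1), `c + 1`
times). If `g τ = 1`: `V' = min K (V + c₁ τ)`; by STEP (2) with `N = c + 1` and STRK with
`ρ = min (τ/V) 2` (`48/ρ ≤ 48 K/τ < S N t`): `L lam (n+1) t ≤ 1/(1/ρ + c₁) ≤ 1/(V/τ + c₁) =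
τ/(V + c₁ τ) ≤ τ/V'`. (c) `λ_0 ≠ 1/4`: `c := 0`, the same `V`: `L (sh 1 lam) n t ≤ τ'/V` (STEP (1),
`c` times), so `L lam (n+1) t ≤ 4 λ_0 τ'/V = τ/V`; and `c τ' g(τ')/Nf τ' ≤ τ'`.
At the end `τ = 1`: `L lam n t ≤ L (sh c lam) (n-c) t ≤ 1/V` and `c g(1)/Nf 1 ≤ 1`, so `V ≥ K`. -/
def Stmt_IND : Prop := ∀ (lam : ℕ → ℝ) (n : ℕ) (t K : ℝ) (Nf : ℝ → ℕ) (g : ℝ → ℝ),
  (∀ k, 1 / 4 ≤ lam k ∧ lam k ≤ 1 / 2) → 0 ≤ t → t ≤ 1 → 1 ≤ K → (∀ θ, 1 ≤ Nf θ) →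
  (∀ θ, g θ = 0 ∨ g θ = 1) →
  (∀ θ, 0 < θ → θ ≤ 1 → g θ = 1 → 48 * K / θ < FCC.S (Nf θ) t) →
  K ≤ 1 / 18432 * ((∑ i ∈ Finset.range n,
    if lam i = 1 / 4 then th lam i * g (th lam i) / Nf (th lam i) else 0) - SX lam n - 1) →
  L lam n t ≤ 1 / K

/-- GEOM. (1) Induction on `n` for all `lam`: `SX lam (n+1) = SX (sh 1 lam) n` if `λ_0 = 1/4`, and
`= 1/(4λ_0) (1 + SX (sh 1 lam) n) ≤ 1/(1 + 4δ) (1 + 1/(4δ)) = 1/(4δ)` otherwise (`th_succ'`).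
(2) `Θ_n = 1 + ∑_{i<n} θ_(i+1)²`; `θ_(i+1) = θ_i` if `λ_i = 1/4`, and `θ_(i+1)² ≤ θ_(i+1)` otherwise:
`Θ_n ≤ 1 + SD + SX`. -/
def Stmt_GEOM : Prop := ∀ (δ : ℝ) (lam : ℕ → ℝ) (n : ℕ), 0 < δ → Adm δ lam →
  SX lam n ≤ 1 / (4 * δ) ∧ Th lam n ≤ (1 + 1 / (4 * δ)) * (1 + SD lam n)

/-- MKV. From `Stmt_TAIL3`, `Stmt_IND`, `Stmt_GEOM`. Let `s = 101/200`, `c₁ = 1/18432`, `D = SD lam n`,
`C_δ = 1 + 1/(4δ)`, `M = (8/3)(1/c₁ + C_δ)`. If `D < M K`: then `K²/(1+D) ≥ K²/(1 + M K) ≥ 1/(1+M)`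
and the bound is trivial for `C ≥ (1+M)^s`. Let `D ≥ M K`, `N' = D/(M K) ≥ 1`, `Nf θ = ⌈N'/θ⌉` for
`0 < θ ≤ 1` (`= 1` for the other `θ`), so `N'/θ ≤ Nf θ ≤ 2N'/θ`, and `g_t θ = 1` if
`48 K/θ < S (Nf θ) t`, else `0`. For every `i < n` with `λ_i = 1/4` (TAIL3):
`|{t ∈ [0,1] : g_t(θ_i) = 0}| ≤ C (48 K/(θ_i Nf θ_i))^s ≤ C (48 K/N')^s = C (48 M K²/D)^s`. By Markov
for `∑_{i<n, λ_i = 1/4} θ_i² (1 - g_t(θ_i))` (total weight `D`): outside a set of measure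
`≤ 4 C (48 M K²/D)^s` we have `∑_{λ_i = 1/4} θ_i² g_t(θ_i) ≥ 3D/4`, so
`∑ θ_i g_t(θ_i)/Nf θ_i ≥ ∑ θ_i² g_t(θ_i)/(2N') ≥ 3D/(8N') = 3MK/8`, and
`c₁ (3MK/8 - SX - 1) ≥ c₁ (3MK/8 - C_δ) ≥ K` (as `K ≥ 1`): `L lam n t ≤ 1/K` by IND. Finally
`K²/D ≤ 2K²/(1+D)` as `D ≥ 1`. (`FCC.measurable_S`.) -/
def Stmt_MKV : Prop := ∀ δ : ℝ, 0 < δ → ∃ C : ℝ, 0 < C ∧ ∀ (lam : ℕ → ℝ) (n : ℕ) (K : ℝ),
  Adm δ lam → 1 ≤ K →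
  (volume {t : ℝ | t ∈ Icc (0 : ℝ) 1 ∧ 1 / K < L lam n t}).toReal ≤
    C * (K ^ 2 / (1 + SD lam n)) ^ (101 / 200 : ℝ)

/-- INTK. From `Stmt_MKV`. Put `X = 1 + SD lam n ≥ 1`, `4^m ≤ X < 4^(m+1)`, `B_k = {1/2^k < L}`:
pointwise `L ≤ 2^(-m) + ∑_{k ≤ m} 2^(1-k) 1_(B_k)` (`L ≤ 2`; the smallest `k` with `L > 2^(-k)`), so
`∫ L ≤ 2^(-m) + ∑_{k ≤ m} 2^(1-k) C (4^k/X)^s`, `2s = 1.01`, `≤ C' X^(-1/2)`. As in `FCQ/INT2.lean`.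
(`measurable_L`, `L_le`.) -/
def Stmt_INTK : Prop := ∀ δ : ℝ, 0 < δ → ∃ C : ℝ, 0 < C ∧ ∀ (lam : ℕ → ℝ) (n : ℕ), Adm δ lam →
  ∫ t in (0 : ℝ)..1, L lam n t ≤ C / √(1 + SD lam n)

/-! ### D. The sets -/

/-- GEOK. As `FCC/GEO.lean`. The left end points of the `2^n` intervals of `cset lam n` are
`∑ bt (a i) (1 - λ_i) σ_i`, their length is `σ_n`. -/
def Stmt_GEOK : Prop := ∀ (lam : ℕ → ℝ) (n : ℕ), Pos lam →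
  (E lam n = ⋃ w : Wd n, {z : ℂ | z.re ∈ Icc (px lam w) (px lam w + sg lam n) ∧
    z.im ∈ Icc (py lam w) (py lam w + sg lam n)}) ∧
  (∀ x, x ∈ cset lam n ↔ 1 - x ∈ cset lam n) ∧ IsCompact (cset lam n) ∧ IsCompact (E lam n) ∧
  (∀ t, 0 ≤ t → P lam n t = {u | ∃ x ∈ cset lam n, ∃ y ∈ cset lam n, u = x + t * y}) ∧
  cset lam (n + 1) ⊆ cset lam n

/-- FAVK. From `Stmt_GEOK`, as `FCC/FAVL.lean` (symmetries of the square, `θ = arctan t`). -/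
def Stmt_FAVK : Prop := ∀ (lam : ℕ → ℝ) (n : ℕ), Pos lam →
  FCC.Fav (E lam n) ≤ 4 * ∫ t in (0 : ℝ)..1, L lam n t

/-- UPPK. From `Stmt_INTK`, `Stmt_FAVK`, `Stmt_GEOM`. -/
def Stmt_UPPK : Prop := ∀ δ : ℝ, 0 < δ → ∃ C : ℝ, 0 < C ∧ ∀ (lam : ℕ → ℝ) (n : ℕ), Adm δ lam →
  FCC.Fav (E lam n) ≤ C / √(Th lam n)

/-! ### E. The lower bound for the analytic capacity -/

/-- DISK. As `FCC/DIST.lean`. If the first `j` letters agree, each coordinate differs by at most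
`∑_{i ≥ j} (1 - λ_i) σ_i = σ_j - σ_n`. If `i ≤ j` is the first place where, say, the `x`-digits
differ, then `|Δx| ≥ (1 - λ_i) σ_i - (σ_(i+1) - σ_n) = (1 - 2λ_i) σ_i + σ_n ≥ 2δ σ_j + σ_n`. -/
def Stmt_DISK : Prop := ∀ (δ : ℝ) (lam : ℕ → ℝ) (n j : ℕ) (v w : Wd n), 0 < δ → Low δ lam →
  (agr j v w → ‖cc lam v - cc lam w‖ ≤ √2 * sg lam j) ∧
  (j < n → ¬ agr (j + 1) v w → 2 * δ * sg lam j + sg lam n ≤ ‖cc lam v - cc lam w‖)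

/-- MARK. As `FCC/MAR.lean` (there `μ_k = M`, `Q = M² n`). From `FCC.Stmt_AVP` (`FCC.AVP_thm`).
`Y_k = ∑_{i<k} β_i m_i`, `β_(k+1) = β_k (1 - Re(conj(Y_k) m_k)/(2Q))`; invariant
`β_k + |Y_k|²/(4Q) ≤ 1/2 + (∑_{i<k} μ_i²)/(4Q) ≤ 3/4`, so `|Y_k|² ≤ 3Q` and
`|Re(conj(Y_k) m_k)|/(2Q) ≤ (√3/2) μ_k/√Q ≤ 1`. -/
def Stmt_MARK : Prop := ∀ (n : ℕ) (Q : ℝ) (μ : ℕ → ℝ) (m : ℕ → Wd n → ℂ), 0 < Q →
  (∀ k, 0 ≤ μ k) → ∑ k ∈ Finset.range n, μ k ^ 2 ≤ Q →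
  (∀ k < n, ∀ u v : Wd n, agr (k + 1) u v → m k u = m k v) →
  (∀ k < n, ∀ w : Wd n, av k (m k) w = 0) →
  (∀ k < n, ∀ w : Wd n, ‖m k w‖ ≤ μ k) →
  ∃ β : ℕ → Wd n → ℝ, (∀ w, β 0 w = 1 / 2) ∧
    (∀ k ≤ n, ∀ u v : Wd n, agr k u v → β k u = β k v) ∧
    (∀ k ≤ n, ∀ w, 0 ≤ β k w ∧ β k w ≤ 1) ∧
    (∀ k < n, ∀ w, |β (k + 1) w - β k w| ≤ μ k / √Q) ∧
    (∀ k < n, ∀ w, av k (fun v => ((β (k + 1) v - β k v : ℝ) : ℂ)) w = 0) ∧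
    (∀ w, ‖∑ k ∈ Finset.range n, (β k w : ℂ) * m k w‖ ≤ 2 * √Q)

/-- KERK. As `FCC/KER.lean`, from `Stmt_DISK` and `FCC.Stmt_AVP` (`FCC.AVP_thm`). For `k ≥ j + 1` and
`agr k u w`: two kernels differ by at most `√2 σ_k/(2δ σ_j)²`, there are `3 · 4^(n-j-1)` words `v`, so
`‖Tj 1 u - Tj 1 w‖ ≤ (3/4) 4^(-j) √2 σ_k/(4δ² σ_j²) = (3√2/16) δ^(-2) θ_j σ_k/σ_j` and
`σ_k/σ_j ≤ 2^(-(k-j))` (`sg_le`); trivial bound `(3/4) 4^(-j)/(2δ σ_j) = (3/(8δ)) θ_j`. -/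
def Stmt_KERK : Prop := ∀ (δ : ℝ) (lam : ℕ → ℝ) (n : ℕ), 0 < δ → δ ≤ 1 / 4 → Low δ lam →
  (∀ (g : Wd n → ℂ) (w : Wd n), T lam g w = ∑ j ∈ Finset.range n, Tj lam j g w) ∧
  (∀ k j : ℕ, k ≤ j → j < n → ∀ w : Wd n, av k (Tj lam j fun _ => 1) w = 0) ∧
  (∀ k j : ℕ, j ≤ k → k < n → ∀ w : Wd n,
    ‖av (k + 1) (Tj lam j fun _ => 1) w - av k (Tj lam j fun _ => 1) w‖ ≤
      1 / δ ^ 2 * (th lam j / 2 ^ (k - j))) ∧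
  (∀ k j : ℕ, j ≤ k → k < n → ∀ (d : Wd n → ℂ) (ε : ℝ), (∀ v, ‖d v‖ ≤ ε) →
    (∀ v, av k d v = 0) → ∀ w : Wd n, ‖Tj lam j d w‖ ≤ 1 / δ ^ 2 * ε * (th lam j / 2 ^ (k - j)))

/-- NUK. `ν_k² ≤ (∑_{j≤k} 2^(-(k-j))) ∑_{j≤k} θ_j² 2^(-(k-j)) ≤ 2 ∑_{j≤k} θ_j² 2^(-(k-j))`
(Cauchy-Schwarz), sum over `k`. -/
def Stmt_NUK : Prop := ∀ (lam : ℕ → ℝ) (n : ℕ), ∑ k ∈ Finset.range n, nu lam k ^ 2 ≤ 4 * Th lam n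

/-- SUMK. As `FCC/SUMM.lean`; from `FCC.Stmt_AVP`, `Stmt_MARK`, `Stmt_KERK`, `Stmt_NUK`.
`A = 1/δ²`, `μ_k = A ν_k`, `Q = 4 A² Θ_n` (`∑ μ_k² ≤ Q` by NUK),
`m_k = ∑_{j ≤ k} (av (k+1) - av k)(Tj j 1)`, `b = β_n`.
`T b = ∑_j Tj j β_n = ∑_j β_j Tj j 1 + ∑_j ∑_{j ≤ k < n} Tj j (β_(k+1) - β_k)`; the last sum is at most
`∑_j ∑_{k ≥ j} A (μ_k/√Q) θ_j 2^(-(k-j)) = (A/√Q) ∑ μ_k ν_k ≤ √Q`. `Tj j 1 = ∑_{k ≥ j} (av (k+1) -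
av k)(Tj j 1)`; replacing `β_j` by `β_k` costs at most `∑_k ∑_{j ≤ k} ∑_{j ≤ i < k} (μ_i/√Q) A θ_j
2^(-(k-j)) = (A/√Q) ∑_i μ_i ∑_{k > i} 2^(-(k-i)) ∑_{j ≤ i} θ_j 2^(-(i-j)) ≤ √Q`, and
`‖∑_k β_k m_k‖ ≤ 2√Q`. Total `4√Q = 8 A √Θ_n`. -/
def Stmt_SUMK : Prop := ∀ (δ : ℝ) (lam : ℕ → ℝ) (n : ℕ), 0 < δ → δ ≤ 1 / 4 → Low δ lam →
  ∃ b : Wd n → ℝ, (∀ w, 0 ≤ b w ∧ b w ≤ 1) ∧ ∑ w, b w = 4 ^ n / 2 ∧
    ∀ w, ‖T lam (fun v => (b v : ℂ)) w‖ ≤ 8 / δ ^ 2 * √(Th lam n)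

/-- CAPK. As `FCC/CAP.lean`, from `Stmt_SUMK`, `Stmt_GEOK`, `Stmt_DISK`, `FCC.Stmt_MAXP`
(`FCC.MAXP_thm`), with `a_v = b_v / 4^n`. `z` on the frontier lies in a square `w`,
`σ_n/2 ≤ |z - c_w| ≤ (3/4) σ_n`: own term `≤ 2 θ_n ≤ 2`; for the `v` with the first difference at `j`:
`|c_w - c_v| ≥ 2δ σ_j + σ_n`, `|z - c_v| ≥ 2δ σ_j`, so the kernels differ by at most
`(3/4) σ_n/(4δ² σ_j²)`, in total `∑_j (9/64) δ^(-2) θ_j σ_n/σ_j ≤ δ^(-2)/4`. With `T b`: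
`Λ = 9 δ^(-2) √Θ_n` (`δ^(-2) ≥ 16`, `Θ_n ≥ 1`). -/
def Stmt_CAPK : Prop := ∀ (δ : ℝ) (lam : ℕ → ℝ) (n : ℕ), 0 < δ → δ ≤ 1 / 4 → Low δ lam →
  δ ^ 2 / 18 / √(Th lam n) ≤ FCC.gam (E lam n)

/-! ### F. The limit sets -/

/-- GLIM. Outer regularity of the analytic capacity. Let `f_n` be admissible for `K n` with
`|a_n| ≥ g - 1/(n+1)`. Let `U` be a nonprincipal ultrafilter on `ℕ` (`Filter.hyperfilter ℕ`), and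
`f(z) = lim_U f_n(z)` for `z ∉ ⋂ K n` (then `z ∉ K n` for large `n`; bounded sequences converge along
`U`), `f = 0` on the intersection. Near `z` all the `f_n`, `n ≥ m`, are holomorphic and bounded by `1`
on a fixed disc, so `f` is holomorphic (`ultra_diff` in `Pool/Agent/Lib52/SP/`, or equicontinuity).
At infinity: if `K 0 ⊆ ball 0 R`, then for `|z| ≥ 2R` `|f_n(z)| ≤ R/|z|` (Schwarz lemma for `f_n(1/w)` on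
`|w| < 1/R`) and `|z f_n(z) - a_n| ≤ C_R/|z|` (the same for `w ↦ f_n(1/w)/w - a_n`), uniformly in `n`;
so `f(z) → 0` and `z f(z) → lim_U a_n`. -/
def Stmt_GLIM : Prop := ∀ (K : ℕ → Set ℂ) (g : ℝ), (∀ n, IsCompact (K n)) → Antitone K →
  (∀ n, g ≤ FCC.gam (K n)) → g ≤ FCC.gam (⋂ n, K n)

/-- FMON. The integrand of `E` is bounded and measurable: `{(θ, u) : ∃ z ∈ E, u = Re(z e^(-iθ))}` is
closed because `E` is compact (`measurable_measure_prodMk_left`); the same for `K`. -/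
def Stmt_FMON : Prop := ∀ K E : Set ℂ, IsCompact K → IsCompact E → K ⊆ E → FCC.Fav K ≤ FCC.Fav E

/-- MAINK: the theorem. From `Stmt_UPPK`, `Stmt_CAPK`, `Stmt_GEOK`, `Stmt_GLIM`, `Stmt_FMON`. -/
def Stmt_MAINK : Prop := ∀ δ : ℝ, 0 < δ → ∃ c : ℝ, 0 < c ∧ ∀ lam : ℕ → ℝ, Adm δ lam →
  (∀ n, c * FCC.Fav (E lam n) ≤ 1 / √(Th lam n) ∧ c * (1 / √(Th lam n)) ≤ FCC.gam (E lam n)) ∧
  (∀ n, FCC.Fav (Ei lam) ≤ FCC.Fav (E lam n)) ∧ c * FCC.Fav (Ei lam) ≤ FCC.gam (Ei lam)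

end Pool.Agent.FCK
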