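import Pool.Agent.FCC.Stmts
import Pool.Agent.FCK.Stmts

/-!
# Corner Cantor sets: the lower bound for the analytic capacity of the generations
-/

set_option autoImplicit false

namespace Pool.Agent.FCK

open MeasureTheory Set
open Pool.Agent.FCC (Wd bv agr av)

namespace CAPK

/-- Two different words have a first difference. -/
theorem exists_first {n : ℕ} {v w : Wd n} (h : v ≠ w) :
    ∃ j < n, agr j w v ∧ ¬ agr (j + 1) w v := by
  classical
  have hex : ∃ k, ¬ agr k w v := ⟨n, fun hh => h ((FCC.agr_full le_rfl).1 hh).symm⟩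
  have hk := Nat.find_spec hex
  obtain ⟨j, hj⟩ : ∃ j, Nat.find hex = j + 1 := by
    apply Nat.exists_eq_succ_of_ne_zero
    intro h0
    rw [h0] at hk
    exact hk (fun i hi => absurd hi (Nat.not_lt_zero _))
  refine ⟨j, ?_, ?_, ?_⟩
  · have : Nat.find hex ≤ n := Nat.find_min' hex (fun hh => h ((FCC.agr_full le_rfl).1 hh).symm)
    omega
  · by_contra hc
    exact Nat.find_min hex (m := j) (by omega) hc
  · rw [← hj]; exact hk

theorem norm_upper {z : ℂ} {h : ℝ} (hh : 0 ≤ h) (hx : |z.re| ≤ h / 2) (hy : |z.im| ≤ h / 2) :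
    ‖z‖ ≤ 3 / 4 * h := by
  have h1 : ‖z‖ ^ 2 = z.re ^ 2 + z.im ^ 2 := by
    rw [Complex.sq_norm, Complex.normSq_apply]; ring
  have h2 : z.re ^ 2 ≤ (h / 2) ^ 2 := by
    rw [← sq_abs z.re]; exact pow_le_pow_left₀ (abs_nonneg _) hx 2
  have h3 : z.im ^ 2 ≤ (h / 2) ^ 2 := by
    rw [← sq_abs z.im]; exact pow_le_pow_left₀ (abs_nonneg _) hy 2
  refine le_of_sq_le_sq ?_ (by positivity)
  nlinarith [sq_nonneg h]

/-- The kernel at a near point. -/
theorem term_bound {z cw cv : ℂ} {s D : ℝ} (hs : 0 < s) (hD : 0 < D)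
    (h1 : ‖z - cw‖ ≤ 3 / 4 * s) (h2 : D + s ≤ ‖cw - cv‖) :
    ‖1 / (z - cv) - 1 / (cw - cv)‖ ≤ 3 / 4 * s / D ^ 2 := by
  have hd0 : 0 < ‖cw - cv‖ := by linarith
  have h3 : ‖cw - cv‖ ≤ ‖z - cv‖ + ‖z - cw‖ := by
    have : cw - cv = (z - cv) - (z - cw) := by ring
    rw [this]; exact norm_sub_le _ _
  have h4 : D ≤ ‖z - cv‖ := by linarith
  have hz0 : 0 < ‖z - cv‖ := lt_of_lt_of_le hD h4
  have e : 1 / (z - cv) - 1 / (cw - cv) = -(z - cw) / ((z - cv) * (cw - cv)) := by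
    have hA : z - cv ≠ 0 := norm_pos_iff.1 hz0
    have hB : cw - cv ≠ 0 := norm_pos_iff.1 hd0
    field_simp
    ring
  rw [e, norm_div, norm_neg, norm_mul]
  have h5 : D ^ 2 ≤ ‖z - cv‖ * ‖cw - cv‖ := by
    rw [sq]
    exact mul_le_mul h4 (by linarith) hD.le hz0.le
  exact div_le_div₀ (by positivity) h1 (by positivity) h5

theorem geom (n : ℕ) : ∑ j ∈ Finset.range n, (1 : ℝ) / 2 ^ (n - j) ≤ 1 := by
  have h : ∀ j ∈ Finset.range n, (1 : ℝ) / 2 ^ (n - j) = 2 ^ j / 2 ^ n := by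
    intro j hj
    rw [Finset.mem_range] at hj
    have h1 : (2 : ℝ) ^ n = 2 ^ (n - j) * 2 ^ j := by rw [← pow_add]; congr 1; omega
    rw [h1]
    field_simp
  rw [Finset.sum_congr rfl h, ← Finset.sum_div, geom_sum_eq (by norm_num),
    div_le_one (by positivity)]
  norm_num

/-- One level. -/
theorem level {δ : ℝ} {lam : ℕ → ℝ} (hδ : 0 < δ) (hlam : Low δ lam) {n j : ℕ} (hj : j < n) :
    ((3 * 4 ^ (n - (j + 1)) : ℕ) : ℝ) * (1 / 4 ^ n * (3 / 4 * sg lam n / (2 * δ * sg lam j) ^ 2)) ≤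
      9 / 64 / δ ^ 2 * (1 / 2 ^ (n - j)) := by
  have hpos := hlam.pos hδ.le
  have h0 : ∀ k, 0 < lam k := fun k => (hpos k).1
  have hs := sg_pos h0 j
  have h1 := sg_le hpos hj.le
  have h2 := th_le_one (fun k => (hlam k).1) j
  have h3 := th_pos h0 j
  have h4 : (4 : ℝ) ^ n = 4 ^ (n - (j + 1)) * (4 * 4 ^ j) := by
    rw [← pow_succ', ← pow_add]; congr 1; omega
  have e : ((3 * 4 ^ (n - (j + 1)) : ℕ) : ℝ) *
      (1 / 4 ^ n * (3 / 4 * sg lam n / (2 * δ * sg lam j) ^ 2)) =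
      9 / 64 / δ ^ 2 * (th lam j * (sg lam n / sg lam j)) := by
    unfold th
    rw [h4]
    push_cast
    field_simp
    ring
  rw [e]
  refine mul_le_mul_of_nonneg_left ?_ (by positivity)
  have h5 : sg lam n / sg lam j ≤ 1 / 2 ^ (n - j) := by
    rw [div_le_iff₀ hs]
    calc sg lam n ≤ sg lam j / 2 ^ (n - j) := h1
      _ = 1 / 2 ^ (n - j) * sg lam j := by ring
  calc th lam j * (sg lam n / sg lam j) ≤ 1 * (1 / 2 ^ (n - j)) :=
        mul_le_mul h2 h5 (div_nonneg (sg_pos h0 n).le hs.le) zero_le_one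
    _ = 1 / 2 ^ (n - j) := one_mul _

open Classical in
/-- The sum of the kernel differences. -/
theorem sum_bound {δ : ℝ} {lam : ℕ → ℝ} (hδ : 0 < δ) (hlam : Low δ lam) {n : ℕ} (w : Wd n)
    (F : Wd n → ℝ)
    (hF : ∀ j < n, ∀ v, agr j w v → ¬ agr (j + 1) w v →
      F v ≤ 1 / 4 ^ n * (3 / 4 * sg lam n / (2 * δ * sg lam j) ^ 2)) :
    ∑ v ∈ Finset.univ.filter (fun v : Wd n => v ≠ w), F v ≤ 1 / 4 / δ ^ 2 := by
  have h0 : ∀ k, 0 < lam k := fun k => ((hlam.pos hδ.le) k).1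
  have hn := sg_pos h0 n
  set G : ℕ → ℝ := fun j => 1 / 4 ^ n * (3 / 4 * sg lam n / (2 * δ * sg lam j) ^ 2) with hG
  have hGn : ∀ j, 0 ≤ G j := fun j => by
    rw [hG]
    positivity
  have h1 : ∀ v ∈ Finset.univ.filter (fun v : Wd n => v ≠ w), F v ≤
      ∑ j ∈ Finset.range n, if agr j w v ∧ ¬ agr (j + 1) w v then G j else 0 := by
    intro v hv
    rw [Finset.mem_filter] at hv
    obtain ⟨j, hj, h1, h2⟩ := exists_first hv.2
    refine le_trans (hF j hj v h1 h2) ?_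
    have h3 : G j = if agr j w v ∧ ¬ agr (j + 1) w v then G j else 0 :=
      (if_pos ⟨h1, h2⟩).symm
    refine le_trans (le_of_eq h3) ?_
    refine Finset.single_le_sum (f := fun j => if agr j w v ∧ ¬ agr (j + 1) w v then
        G j else 0) (fun i _ => ?_) (Finset.mem_range.2 hj)
    split_ifs
    · exact hGn _
    · exact le_rfl
  refine le_trans (Finset.sum_le_sum h1) ?_
  refine le_trans (Finset.sum_le_sum_of_subset_of_nonneg (Finset.filter_subset _ _)
    (fun i _ _ => Finset.sum_nonneg fun j _ => ?_)) ?_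
  · split_ifs
    · exact hGn _
    · exact le_rfl
  rw [Finset.sum_comm]
  have h2 : ∀ j ∈ Finset.range n, (∑ v : Wd n, if agr j w v ∧ ¬ agr (j + 1) w v then
      G j else 0) ≤ 9 / 64 / δ ^ 2 * (1 / 2 ^ (n - j)) := by
    intro j hj
    rw [Finset.mem_range] at hj
    rw [← Finset.sum_filter, Finset.sum_const, FCC.card_first hj w, nsmul_eq_mul]
    exact level hδ hlam hj
  refine le_trans (Finset.sum_le_sum h2) ?_
  rw [← Finset.mul_sum]
  have h3 := geom n
  have h4 : 9 / 64 / δ ^ 2 * (∑ j ∈ Finset.range n, (1 : ℝ) / 2 ^ (n - j)) ≤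
      9 / 64 / δ ^ 2 * 1 := mul_le_mul_of_nonneg_left h3 (by positivity)
  refine le_trans h4 ?_
  rw [mul_one]
  exact div_le_div_of_nonneg_right (by norm_num) (by positivity)

theorem open_sq {lam : ℕ → ℝ} {n : ℕ}
    (hE : E lam n = ⋃ w : Wd n, {z : ℂ | z.re ∈ Icc (px lam w) (px lam w + sg lam n) ∧
      z.im ∈ Icc (py lam w) (py lam w + sg lam n)}) (w : Wd n) (z : ℂ)
    (h1 : z.re ∈ Ioo (px lam w) (px lam w + sg lam n))
    (h2 : z.im ∈ Ioo (py lam w) (py lam w + sg lam n)) :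
    z ∈ interior (E lam n) := by
  have ho : IsOpen (Complex.re ⁻¹' Ioo (px lam w) (px lam w + sg lam n) ∩
      Complex.im ⁻¹' Ioo (py lam w) (py lam w + sg lam n)) :=
    (isOpen_Ioo.preimage Complex.continuous_re).inter (isOpen_Ioo.preimage Complex.continuous_im)
  refine interior_mono (s := Complex.re ⁻¹' Ioo (px lam w) (px lam w + sg lam n) ∩
      Complex.im ⁻¹' Ioo (py lam w) (py lam w + sg lam n)) ?_ ?_
  · intro y hy
    rw [hE, mem_iUnion]
    exact ⟨w, Ioo_subset_Icc_self hy.1, Ioo_subset_Icc_self hy.2⟩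
  · rw [ho.interior_eq]
    exact ⟨h1, h2⟩

end CAPK

open CAPK in
theorem CAPK_thm : Stmt_SUMK → Stmt_GEOK → Stmt_DISK → FCC.Stmt_MAXP → Stmt_CAPK := by
  intro hSUMK hGEOK hDISK hMAXP δ lam n hδ hδ4 hlam
  classical
  obtain ⟨b, hb01, hbsum, hT⟩ := hSUMK δ lam n hδ hδ4 hlam
  have hpos := hlam.pos hδ.le
  have h0 : ∀ k, 0 < lam k := fun k => (hpos k).1
  obtain ⟨hE, -, -, hEc, -⟩ := hGEOK lam n hpos
  have hN : (0 : ℝ) < 4 ^ n := by positivity
  have hh : 0 < sg lam n := sg_pos h0 n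
  have hcc : ∀ w : Wd n, (cc lam w).re = px lam w + sg lam n / 2 ∧
      (cc lam w).im = py lam w + sg lam n / 2 := fun w => ⟨rfl, rfl⟩
  have hs1 : 1 ≤ √(Th lam n) := by
    rw [Real.one_le_sqrt]; exact Th_ge_one lam n
  have hδ2 : 16 ≤ 1 / δ ^ 2 := by
    rw [le_div_iff₀ (by positivity)]
    nlinarith
  have hint : ∀ w : Wd n, cc lam w ∈ interior (E lam n) := by
    intro w
    obtain ⟨h1, h2⟩ := hcc w
    refine open_sq hE w _ ?_ ?_
    · rw [h1]; constructor <;> linarith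
    · rw [h2]; constructor <;> linarith
  have h4c : ‖(4 : ℂ)‖ = 4 := by norm_num
  have hfr : ∀ z ∈ frontier (E lam n), ‖∑ w, ((b w : ℂ) / 4 ^ n) / (z - cc lam w)‖ ≤
      9 / δ ^ 2 * √(Th lam n) := by
    intro z hz
    have hzE : z ∈ E lam n := hEc.isClosed.frontier_subset hz
    have hzi : z ∉ interior (E lam n) := hz.2
    rw [hE, mem_iUnion] at hzE
    obtain ⟨w, hw1, hw2⟩ := hzE
    obtain ⟨hc1, hc2⟩ := hcc w
    have hup : ‖z - cc lam w‖ ≤ 3 / 4 * sg lam n := by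
      refine norm_upper hh.le ?_ ?_
      · rw [Complex.sub_re, hc1, abs_le]
        constructor <;> linarith [hw1.1, hw1.2]
      · rw [Complex.sub_im, hc2, abs_le]
        constructor <;> linarith [hw2.1, hw2.2]
    have hlow : sg lam n / 2 ≤ ‖z - cc lam w‖ := by
      by_contra hcon
      push Not at hcon
      refine hzi (open_sq hE w z ?_ ?_)
      · have h1 := lt_of_le_of_lt (Complex.abs_re_le_norm (z - cc lam w)) hcon
        rw [Complex.sub_re, hc1, abs_lt] at h1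
        constructor <;> linarith [h1.1, h1.2]
      · have h1 := lt_of_le_of_lt (Complex.abs_im_le_norm (z - cc lam w)) hcon
        rw [Complex.sub_im, hc2, abs_lt] at h1
        constructor <;> linarith [h1.1, h1.2]
    have hsplit : ∑ v, ((b v : ℂ) / 4 ^ n) / (z - cc lam v) =
        ((b w : ℂ) / 4 ^ n) / (z - cc lam w) + T lam (fun v => (b v : ℂ)) w +
          ∑ v ∈ Finset.univ.filter (fun v : Wd n => v ≠ w),
            ((b v : ℂ) / 4 ^ n) * (1 / (z - cc lam v) - 1 / (cc lam w - cc lam v)) := by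
      unfold T
      rw [add_assoc, ← Finset.sum_add_distrib, ← Finset.add_sum_erase _ _ (Finset.mem_univ w)]
      congr 1
      rw [← Finset.filter_ne']
      refine Finset.sum_congr rfl fun v _ => ?_
      rw [← div_div]
      ring
    have hfirst : ‖((b w : ℂ) / 4 ^ n) / (z - cc lam w)‖ ≤ 2 := by
      have hp : 0 < ‖z - cc lam w‖ := lt_of_lt_of_le (by positivity) hlow
      rw [norm_div, norm_div, Complex.norm_real, norm_pow, Real.norm_eq_abs,
        abs_of_nonneg (hb01 w).1, div_le_iff₀ hp, h4c]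
      have h5 : b w / 4 ^ n ≤ 1 / 4 ^ n := div_le_div_of_nonneg_right (hb01 w).2 hN.le
      have h6 : 1 / 4 ^ n ≤ sg lam n := by
        rw [div_le_iff₀ hN, ← th_mul h0 n]
        have h7 := th_le_one (fun k => (hlam k).1) n
        calc th lam n * (4 ^ n * sg lam n) ≤ 1 * (4 ^ n * sg lam n) :=
              mul_le_mul_of_nonneg_right h7 (by positivity)
          _ = sg lam n * 4 ^ n := by ring
      linarith
    have hthird : ‖∑ v ∈ Finset.univ.filter (fun v : Wd n => v ≠ w),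
            ((b v : ℂ) / 4 ^ n) * (1 / (z - cc lam v) - 1 / (cc lam w - cc lam v))‖ ≤
        1 / 4 / δ ^ 2 := by
      refine le_trans (norm_sum_le _ _) (sum_bound hδ hlam w _ ?_)
      intro j hj v h1 h2
      have hd := (hDISK δ lam n j w v hδ hlam).2 hj h2
      have hj0 := sg_pos h0 j
      have ht := term_bound (D := 2 * δ * sg lam j) hh (by positivity) hup hd
      rw [norm_mul, norm_div, Complex.norm_real, norm_pow, Real.norm_eq_abs,
        abs_of_nonneg (hb01 v).1, h4c]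
      have h5 : b v / 4 ^ n ≤ 1 / 4 ^ n := div_le_div_of_nonneg_right (hb01 v).2 hN.le
      exact mul_le_mul h5 ht (norm_nonneg _) (by positivity)
    rw [hsplit]
    refine le_trans (norm_add_le _ _) ?_
    have h6 := norm_add_le (((b w : ℂ) / 4 ^ n) / (z - cc lam w)) (T lam (fun v => (b v : ℂ)) w)
    have h7 := hT w
    have e1 : 8 / δ ^ 2 * √(Th lam n) = 8 * (1 / δ ^ 2 * √(Th lam n)) := by ring
    have e2 : 9 / δ ^ 2 * √(Th lam n) = 9 * (1 / δ ^ 2 * √(Th lam n)) := by ring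
    have e3 : 1 / 4 / δ ^ 2 = 1 / 4 * (1 / δ ^ 2) := by ring
    have h8 : 1 / δ ^ 2 * 1 ≤ 1 / δ ^ 2 * √(Th lam n) :=
      mul_le_mul_of_nonneg_left hs1 (by positivity)
    rw [e1] at h7
    rw [e2]
    rw [e3] at hthird
    linarith
  have hΛ : 0 < 9 / δ ^ 2 * √(Th lam n) := by positivity
  have key := hMAXP (E lam n) (Wd n) (fun w => (b w : ℂ) / 4 ^ n) (cc lam)
    (9 / δ ^ 2 * √(Th lam n)) hEc hΛ hint hfr
  have hsum : ∑ w : Wd n, ((b w : ℂ) / 4 ^ n) = 1 / 2 := by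
    rw [← Finset.sum_div, ← Complex.ofReal_sum, hbsum]
    push_cast
    field_simp
  rw [hsum] at key
  refine le_trans (le_of_eq ?_) key
  have h12 : ‖(1 / 2 : ℂ)‖ = 1 / 2 := by norm_num
  rw [h12]
  field_simp
  norm_num

end Pool.Agent.FCK
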