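import Pool.Agent.FCK.Stmts

/-!
# Corner Cantor sets: distances of the centres
-/

set_option autoImplicit false

namespace Pool.Agent.FCK

open MeasureTheory Set
open Pool.Agent.FCC (Wd bv agr)

namespace DISK

/-- The value of a string of binary choices. -/
noncomputable def cx (lam : ℕ → ℝ) {n : ℕ} (b : Fin n → Bool) : ℝ :=
  ∑ i : Fin n, bt (b i) * ((1 - lam i) * sg lam i)

theorem cx_succ (lam : ℕ → ℝ) {n : ℕ} (b : Fin (n + 1) → Bool) :
    cx lam b = bt (b 0) * (1 - lam 0) + lam 0 * cx (sh 1 lam) (fun i : Fin n => b i.succ) := by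
  unfold cx
  rw [Fin.sum_univ_succ, Finset.mul_sum]
  congr 1
  · rw [Fin.val_zero, sg_zero, mul_one]
  · refine Finset.sum_congr rfl fun i _ => ?_
    rw [Fin.val_succ, sg_succ', sh_apply]
    ring

theorem cx_zero (lam : ℕ → ℝ) (b : Fin 0 → Bool) : cx lam b = 0 := by
  unfold cx
  simp

theorem cx_mem {n : ℕ} : ∀ (lam : ℕ → ℝ) (b : Fin n → Bool), Pos lam →
    0 ≤ cx lam b ∧ cx lam b ≤ 1 - sg lam n := by
  induction n with
  | zero =>
    intro lam b _
    rw [cx_zero, sg_zero]
    constructor <;> norm_num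
  | succ n ih =>
    intro lam b h
    obtain ⟨h1, h2⟩ := ih (sh 1 lam) (fun i => b i.succ) (h.sh 1)
    obtain ⟨h3, h4⟩ := h 0
    have h5 := bt_nonneg (b 0)
    have h6 := bt_le (b 0)
    rw [cx_succ, sg_succ']
    constructor
    · have : 0 ≤ bt (b 0) * (1 - lam 0) := mul_nonneg h5 (by linarith)
      have := mul_nonneg h3.le h1
      linarith
    · have h7 : bt (b 0) * (1 - lam 0) ≤ 1 * (1 - lam 0) :=
        mul_le_mul_of_nonneg_right h6 (by linarith)
      have h8 := mul_le_mul_of_nonneg_left h2 h3.le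
      linarith

theorem sg_le_one {lam : ℕ → ℝ} (h : Pos lam) (j : ℕ) : sg lam j ≤ 1 := by
  have := sg_le h (Nat.zero_le j)
  rw [sg_zero] at this
  refine this.trans ?_
  rw [Nat.sub_zero]
  apply div_le_one_of_le₀
  · exact one_le_pow₀ (by norm_num)
  · positivity

theorem upper {n : ℕ} : ∀ (lam : ℕ → ℝ) (j : ℕ) (b b' : Fin n → Bool), Pos lam →
    (∀ i : Fin n, i.val < j → b i = b' i) → |cx lam b - cx lam b'| ≤ sg lam j := by
  induction n with
  | zero =>
    intro lam j b b' h _
    rw [cx_zero, cx_zero, sub_zero, abs_zero]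
    exact (sg_pos (fun k => (h k).1) j).le
  | succ n ih =>
    intro lam j b b' hp h
    rcases j with _ | j
    · obtain ⟨h1, h2⟩ := cx_mem lam b hp
      obtain ⟨h3, h4⟩ := cx_mem lam b' hp
      have h5 := sg_pos (fun k => (hp k).1) (n + 1)
      rw [sg_zero, abs_le]
      constructor <;> linarith
    · have h0 : b 0 = b' 0 := h 0 (by simp)
      have := ih (sh 1 lam) j (fun i => b i.succ) (fun i => b' i.succ) (hp.sh 1)
        (fun i hi => h i.succ (by rw [Fin.val_succ]; omega))
      rw [cx_succ lam b, cx_succ lam b', h0]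
      have e : bt (b' 0) * (1 - lam 0) + lam 0 * cx (sh 1 lam) (fun i : Fin n => b i.succ) -
          (bt (b' 0) * (1 - lam 0) + lam 0 * cx (sh 1 lam) (fun i : Fin n => b' i.succ)) =
          lam 0 * (cx (sh 1 lam) (fun i : Fin n => b i.succ) -
            cx (sh 1 lam) (fun i : Fin n => b' i.succ)) := by ring
      rw [e, abs_mul, abs_of_pos (hp 0).1, sg_succ']
      exact mul_le_mul_of_nonneg_left this (hp 0).1.le

theorem lower {n : ℕ} : ∀ (δ : ℝ) (lam : ℕ → ℝ) (j : ℕ) (b b' : Fin n → Bool), 0 < δ →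
    Low δ lam → (∃ i : Fin n, i.val ≤ j ∧ b i ≠ b' i) →
    2 * δ * sg lam j + sg lam n ≤ |cx lam b - cx lam b'| := by
  induction n with
  | zero =>
    rintro δ lam j b b' _ _ ⟨i, -⟩
    exact i.elim0
  | succ n ih =>
    rintro δ lam j b b' hδ hl ⟨i, hi, hne⟩
    have hp : Pos lam := hl.pos hδ.le
    rw [cx_succ lam b, cx_succ lam b']
    by_cases h0 : b 0 = b' 0
    · have hi0 : i ≠ 0 := by
        rintro rfl
        exact hne h0
      obtain ⟨k, rfl⟩ := Fin.exists_succ_eq.2 hi0
      rw [Fin.val_succ] at hi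
      rcases j with _ | j
      · omega
      have := ih δ (sh 1 lam) j (fun i => b i.succ) (fun i => b' i.succ) hδ (hl.sh 1)
        ⟨k, by omega, hne⟩
      rw [h0]
      have e : bt (b' 0) * (1 - lam 0) + lam 0 * cx (sh 1 lam) (fun i : Fin n => b i.succ) -
          (bt (b' 0) * (1 - lam 0) + lam 0 * cx (sh 1 lam) (fun i : Fin n => b' i.succ)) =
          lam 0 * (cx (sh 1 lam) (fun i : Fin n => b i.succ) -
            cx (sh 1 lam) (fun i : Fin n => b' i.succ)) := by ring
      rw [e, abs_mul, abs_of_pos (hp 0).1, sg_succ', sg_succ']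
      have h9 := mul_le_mul_of_nonneg_left this (hp 0).1.le
      linarith
    · obtain ⟨h1, h2⟩ := cx_mem (sh 1 lam) (fun i : Fin n => b i.succ) (hp.sh 1)
      obtain ⟨h3, h4⟩ := cx_mem (sh 1 lam) (fun i : Fin n => b' i.succ) (hp.sh 1)
      have h5 := (hl 0).2
      have h6 := (hp 0).1
      have h7 := sg_le_one hp j
      have h8 : 2 * δ * sg lam j ≤ 2 * δ * 1 := mul_le_mul_of_nonneg_left h7 (by linarith)
      rw [sg_succ' lam n]
      have m1 := mul_nonneg h6.le h1
      have m2 := mul_le_mul_of_nonneg_left h2 h6.le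
      have m3 := mul_nonneg h6.le h3
      have m4 := mul_le_mul_of_nonneg_left h4 h6.le
      rcases hb : b 0 with _ | _ <;> rcases hb' : b' 0 with _ | _
      · exact absurd (hb.trans hb'.symm) h0
      · rw [le_abs]
        right
        rw [bt_false, bt_true]
        linarith
      · rw [le_abs]
        left
        rw [bt_false, bt_true]
        linarith
      · exact absurd (hb.trans hb'.symm) h0

end DISK

theorem DISK_thm : Stmt_DISK := by
  intro δ lam n j v w hδ hl
  have hp : Pos lam := hl.pos hδ.le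
  have hre : (cc lam v - cc lam w).re = px lam v - px lam w := by
    simp only [cc, Complex.sub_re]
    ring
  have him : (cc lam v - cc lam w).im = py lam v - py lam w := by
    simp only [cc, Complex.sub_im]
    ring
  constructor
  · intro h
    have h1 : |px lam v - px lam w| ≤ sg lam j :=
      DISK.upper lam j (fun i => (v i).1) (fun i => (w i).1) hp (fun i hi => by rw [h i hi])
    have h2 : |py lam v - py lam w| ≤ sg lam j :=
      DISK.upper lam j (fun i => (v i).2) (fun i => (w i).2) hp (fun i hi => by rw [h i hi])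
    rw [← hre] at h1
    rw [← him] at h2
    have h3 := Complex.norm_le_sqrt_two_mul_max (cc lam v - cc lam w)
    refine h3.trans ?_
    exact mul_le_mul_of_nonneg_left (max_le h1 h2) (Real.sqrt_nonneg 2)
  · intro _ h
    unfold agr at h
    push Not at h
    obtain ⟨i, hi, hne⟩ := h
    by_cases h1 : (v i).1 = (w i).1
    · have h2 : (v i).2 ≠ (w i).2 := fun h2 => hne (Prod.ext h1 h2)
      have := DISK.lower δ lam j (fun i => (v i).2) (fun i => (w i).2) hδ hl ⟨i, by omega, h2⟩
      refine le_trans this ?_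
      have e : DISK.cx lam (fun i => (v i).2) - DISK.cx lam (fun i => (w i).2) =
          (cc lam v - cc lam w).im := by
        rw [him]; rfl
      rw [e]
      exact Complex.abs_im_le_norm _
    · have := DISK.lower δ lam j (fun i => (v i).1) (fun i => (w i).1) hδ hl ⟨i, by omega, h1⟩
      refine le_trans this ?_
      have e : DISK.cx lam (fun i => (v i).1) - DISK.cx lam (fun i => (w i).1) =
          (cc lam v - cc lam w).re := by
        rw [hre]; rfl
      rw [e]
      exact Complex.abs_re_le_norm _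

end Pool.Agent.FCK
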