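import Pool.Agent.FCC.Basic

/-!
# Corner Cantor sets with the ratios `1/4` and `[1/4 + δ, 1/2 - δ]`: definitions

See `Stmts.lean` for the theorem and the plan of the proof.
-/

set_option autoImplicit false

namespace Pool.Agent.FCK

open MeasureTheory Set
open Pool.Agent.FCC (Wd bv agr)

/-- The `n`-th generation of the symmetric Cantor set with the ratios `lam 0, lam 1, ..`: each
interval is replaced by its two end pieces, of relative length `lam k` in the `k`-th step. -/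
def cset : (ℕ → ℝ) → ℕ → Set ℝ
  | _, 0 => Icc 0 1
  | lam, n + 1 =>
    (fun x => lam 0 * x) '' cset (fun k => lam (k + 1)) n ∪
      (fun x => lam 0 * x + (1 - lam 0)) '' cset (fun k => lam (k + 1)) n

/-- The `n`-th generation of the corner Cantor set: `4 ^ n` closed squares of side
`lam 0 * .. * lam (n - 1)`. -/
def E (lam : ℕ → ℝ) (n : ℕ) : Set ℂ := {z | z.re ∈ cset lam n ∧ z.im ∈ cset lam n}

/-- The corner Cantor set. -/
def Ei (lam : ℕ → ℝ) : Set ℂ := ⋂ n, E lam n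

/-- The side of the squares of generation `n`. -/
noncomputable def sg (lam : ℕ → ℝ) (n : ℕ) : ℝ := ∏ i ∈ Finset.range n, lam i

/-- The density `θ_n = 1 / (4 ^ n σ_n)` of generation `n`. -/
noncomputable def th (lam : ℕ → ℝ) (n : ℕ) : ℝ := 1 / (4 ^ n * sg lam n)

/-- `Θ_n = ∑_{k ≤ n} θ_k²` -/
noncomputable def Th (lam : ℕ → ℝ) (n : ℕ) : ℝ := ∑ k ∈ Finset.range (n + 1), th lam k ^ 2

/-- The tail of the sequence of ratios. -/
def sh (N : ℕ) (lam : ℕ → ℝ) : ℕ → ℝ := fun k => lam (k + N)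

/-- The admissible sequences. -/
def Adm (δ : ℝ) (lam : ℕ → ℝ) : Prop :=
  ∀ k, lam k = 1 / 4 ∨ (1 / 4 + δ ≤ lam k ∧ lam k ≤ 1 / 2 - δ)

/-- The sequences of the lower bound. -/
def Low (δ : ℝ) (lam : ℕ → ℝ) : Prop := ∀ k, 1 / 4 ≤ lam k ∧ lam k ≤ 1 / 2 - δ

/-- The positive ratios of at most one half. -/
def Pos (lam : ℕ → ℝ) : Prop := ∀ k, 0 < lam k ∧ lam k ≤ 1 / 2

/-- `0` or `1` -/
def bt (b : Bool) : ℝ := if b then 1 else 0

/-- The coordinates of the lower left corner of the square of the word `w`. -/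
noncomputable def px (lam : ℕ → ℝ) {n : ℕ} (w : Wd n) : ℝ :=
  ∑ i : Fin n, bt (w i).1 * ((1 - lam i) * sg lam i)
noncomputable def py (lam : ℕ → ℝ) {n : ℕ} (w : Wd n) : ℝ :=
  ∑ i : Fin n, bt (w i).2 * ((1 - lam i) * sg lam i)

/-- The projection `x + t y` of this corner. -/
noncomputable def pr (lam : ℕ → ℝ) (t : ℝ) {n : ℕ} (w : Wd n) : ℝ := px lam w + t * py lam w

/-- The projection of the square of `w`. -/
noncomputable def psq (lam : ℕ → ℝ) (t : ℝ) {n : ℕ} (w : Wd n) : Set ℝ :=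
  Icc (pr lam t w) (pr lam t w + (1 + t) * sg lam n)

/-- The projection of the `n`-th generation. -/
def P (lam : ℕ → ℝ) (n : ℕ) (t : ℝ) : Set ℝ := ⋃ w : Wd n, psq lam t w

/-- The length of the projection. -/
noncomputable def L (lam : ℕ → ℝ) (n : ℕ) (t : ℝ) : ℝ := (volume (P lam n t)).toReal

/-- `N` steps with the ratio `1/4`, then the set `R`. -/
def ext (N : ℕ) (t : ℝ) (R : Set ℝ) : Set ℝ := ⋃ u : Wd N, {x | 4 ^ N * (x - FCC.pr t u) ∈ R}

/-- The weight `∑_{i < n, λ_i = 1/4} θ_i²`. -/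
noncomputable def SD (lam : ℕ → ℝ) (n : ℕ) : ℝ :=
  ∑ i ∈ Finset.range n, if lam i = 1 / 4 then th lam i ^ 2 else 0

/-- The loss `∑_{i < n, λ_i ≠ 1/4} θ_{i+1}`. -/
noncomputable def SX (lam : ℕ → ℝ) (n : ℕ) : ℝ :=
  ∑ i ∈ Finset.range n, if lam i = 1 / 4 then 0 else th lam (i + 1)

/-! ### The lower bound -/

/-- The centre of the square of `w`. -/
noncomputable def cc (lam : ℕ → ℝ) {n : ℕ} (w : Wd n) : ℂ :=
  ⟨px lam w + sg lam n / 2, py lam w + sg lam n / 2⟩

open Classical in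
/-- The part of the discrete Cauchy transform with first difference at the letter `j`. -/
noncomputable def Tj (lam : ℕ → ℝ) (j : ℕ) {n : ℕ} (g : Wd n → ℂ) (w : Wd n) : ℂ :=
  ∑ v ∈ Finset.univ.filter (fun v : Wd n => agr j w v ∧ ¬ agr (j + 1) w v),
    g v / (4 ^ n * (cc lam w - cc lam v))

open Classical in
/-- The discrete Cauchy transform. -/
noncomputable def T (lam : ℕ → ℝ) {n : ℕ} (g : Wd n → ℂ) (w : Wd n) : ℂ :=
  ∑ v ∈ Finset.univ.filter (fun v : Wd n => v ≠ w), g v / (4 ^ n * (cc lam w - cc lam v))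

/-- `ν_k = ∑_{j ≤ k} θ_j / 2^(k-j)` -/
noncomputable def nu (lam : ℕ → ℝ) (k : ℕ) : ℝ :=
  ∑ j ∈ Finset.range (k + 1), th lam j / 2 ^ (k - j)

end Pool.Agent.FCK
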