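import Pool.Agent.FCK.Stmts

/-!
# FMON: monotonicity of the Favard length for compact sets
-/

set_option autoImplicit false

namespace Pool.Agent.FCK

open MeasureTheory Set

namespace FMON

/-- The projection in the direction `θ`. -/
noncomputable def ph (θ : ℝ) (z : ℂ) : ℝ := (z * Complex.exp (-(θ : ℂ) * Complex.I)).re

theorem ph_cont : Continuous fun p : ℝ × ℂ => ph p.1 p.2 := by
  unfold ph
  fun_prop

theorem abs_ph_le (θ : ℝ) (z : ℂ) : |ph θ z| ≤ ‖z‖ := by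
  unfold ph
  refine (Complex.abs_re_le_norm _).trans ?_
  rw [norm_mul]
  have : ‖Complex.exp (-(θ : ℂ) * Complex.I)‖ = 1 := by
    have h := Complex.norm_exp_ofReal_mul_I (-θ)
    push_cast at h
    exact h
  rw [this, mul_one]

/-- The length of the projection. -/
noncomputable def G (K : Set ℂ) (θ : ℝ) : ℝ := (volume (ph θ '' K)).toReal

theorem closed_joint {K : Set ℂ} (hK : IsCompact K) :
    IsClosed {p : ℝ × ℝ | ∃ z ∈ K, ph p.1 z = p.2} := by
  have : CompactSpace K := isCompact_iff_compactSpace.1 hK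
  have h1 : IsClosed {q : (ℝ × ℝ) × K | ph q.1.1 (q.2 : ℂ) = q.1.2} := by
    refine isClosed_eq ?_ (by fun_prop)
    exact ph_cont.comp (f := fun q : (ℝ × ℝ) × K => ((q.1.1, (q.2 : ℂ)) : ℝ × ℂ)) (by fun_prop)
  have h2 : {p : ℝ × ℝ | ∃ z ∈ K, ph p.1 z = p.2} =
      Prod.fst '' {q : (ℝ × ℝ) × K | ph q.1.1 (q.2 : ℂ) = q.1.2} := by
    ext p
    constructor
    · rintro ⟨z, hz, h⟩
      exact ⟨(p, ⟨z, hz⟩), h, rfl⟩
    · rintro ⟨⟨p', z⟩, h, rfl⟩
      exact ⟨z, z.2, h⟩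
  rw [h2]
  exact isClosedMap_fst_of_compactSpace _ h1

theorem G_meas {K : Set ℂ} (hK : IsCompact K) : Measurable (G K) := by
  have h := measurable_measure_prodMk_left (ν := (volume : Measure ℝ)) (closed_joint hK).measurableSet
  have h2 : (fun x : ℝ => volume (Prod.mk x ⁻¹' {p : ℝ × ℝ | ∃ z ∈ K, ph p.1 z = p.2})) =
      fun x => volume (ph x '' K) := by
    funext x
    rfl
  rw [h2] at h
  exact h.ennreal_toReal

theorem vol_le {K : Set ℂ} {R : ℝ} (h : ∀ z ∈ K, ‖z‖ ≤ R) (θ : ℝ) :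
    volume (ph θ '' K) ≤ ENNReal.ofReal (2 * R) := by
  have h1 : ph θ '' K ⊆ Icc (-R) R := by
    rintro _ ⟨z, hz, rfl⟩
    exact abs_le.1 ((abs_ph_le θ z).trans (h z hz))
  refine (measure_mono h1).trans ?_
  rw [Real.volume_Icc]
  exact ENNReal.ofReal_le_ofReal (by linarith)

theorem bd {K : Set ℂ} (hK : IsCompact K) : ∃ R : ℝ, 0 ≤ R ∧ ∀ z ∈ K, ‖z‖ ≤ R := by
  obtain ⟨R, hR⟩ := hK.isBounded.exists_norm_le
  exact ⟨max R 0, le_max_right _ _, fun z hz => (hR z hz).trans (le_max_left _ _)⟩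

theorem G_int {K : Set ℂ} (hK : IsCompact K) (a b : ℝ) :
    IntervalIntegrable (G K) volume a b := by
  obtain ⟨R, hR0, hR⟩ := bd hK
  have h : ∀ θ, ‖G K θ‖ ≤ 2 * R := by
    intro θ
    rw [Real.norm_of_nonneg (show 0 ≤ G K θ from ENNReal.toReal_nonneg)]
    exact ENNReal.toReal_le_of_le_ofReal (by linarith) (vol_le hR θ)
  rw [intervalIntegrable_iff]
  exact Measure.integrableOn_of_bounded (by simp) (G_meas hK).aestronglyMeasurable
    (Filter.Eventually.of_forall h)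

theorem G_mono {K E : Set ℂ} (hE : IsCompact E) (h : K ⊆ E) (θ : ℝ) : G K θ ≤ G E θ := by
  obtain ⟨R, hR0, hR⟩ := bd hE
  refine ENNReal.toReal_mono ?_ (measure_mono (image_mono h))
  exact ne_top_of_le_ne_top ENNReal.ofReal_ne_top (vol_le hR θ)

end FMON

theorem FMON_thm : Stmt_FMON := by
  intro K E hK hE hKE
  show ∫ θ in (0 : ℝ)..Real.pi, FMON.G K θ ≤ ∫ θ in (0 : ℝ)..Real.pi, FMON.G E θ
  exact intervalIntegral.integral_mono Real.pi_pos.le (FMON.G_int hK _ _) (FMON.G_int hE _ _)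
    fun θ => FMON.G_mono hE hKE θ

end Pool.Agent.FCK
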