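import Pool.Agent.FCK.Stmts

/-!
# Corner Cantor sets: the sets and their squares
-/

set_option autoImplicit false

namespace Pool.Agent.FCK

open MeasureTheory Set
open Pool.Agent.FCC (Wd bv agr)

namespace GEOK

/-- The left end point of the interval of a word of bits. -/
noncomputable def qx (lam : ℕ → ℝ) {n : ℕ} (a : Fin n → Bool) : ℝ :=
  ∑ i : Fin n, bt (a i) * ((1 - lam i) * sg lam i)

theorem qx_succ (lam : ℕ → ℝ) {n : ℕ} (a : Fin (n + 1) → Bool) :
    qx lam a = bt (a 0) * (1 - lam 0) + lam 0 * qx (sh 1 lam) (fun i : Fin n => a i.succ) := by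
  unfold qx
  rw [Fin.sum_univ_succ, Finset.mul_sum]
  congr 1
  · rw [Fin.val_zero, sg_zero, mul_one]
  · refine Finset.sum_congr rfl fun i _ => ?_
    rw [Fin.val_succ, sg_succ', sh_apply]
    ring

theorem mem_succ (lam : ℕ → ℝ) (n : ℕ) (x : ℝ) : x ∈ cset lam (n + 1) ↔
    ∃ y ∈ cset (sh 1 lam) n, x = lam 0 * y ∨ x = lam 0 * y + (1 - lam 0) := by
  constructor
  · rintro (⟨y, hy, rfl⟩ | ⟨y, hy, rfl⟩)
    · exact ⟨y, hy, Or.inl rfl⟩
    · exact ⟨y, hy, Or.inr rfl⟩
  · rintro ⟨y, hy, rfl | rfl⟩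
    · exact Or.inl ⟨y, hy, rfl⟩
    · exact Or.inr ⟨y, hy, rfl⟩

theorem mem_cset (n : ℕ) : ∀ (lam : ℕ → ℝ), Pos lam → ∀ x : ℝ, x ∈ cset lam n ↔
    ∃ a : Fin n → Bool, qx lam a ≤ x ∧ x ≤ qx lam a + sg lam n := by
  induction n with
  | zero =>
    intro lam _ x
    have h0 : ∀ a : Fin 0 → Bool, qx lam a = 0 := fun a => by unfold qx; simp
    constructor
    · rintro ⟨h1, h2⟩
      refine ⟨fun i => i.elim0, ?_, ?_⟩
      · rw [h0]; exact h1
      · rw [h0, sg_zero]; linarith
    · rintro ⟨a, h1, h2⟩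
      rw [h0] at h1 h2
      rw [sg_zero] at h2
      exact ⟨h1, by linarith⟩
  | succ n ih =>
    intro lam hlam x
    have hl := (hlam 0).1
    rw [mem_succ]
    constructor
    · rintro ⟨y, hy, hxy⟩
      obtain ⟨a, h1, h2⟩ := (ih (sh 1 lam) (hlam.sh 1) y).1 hy
      have h3 := mul_le_mul_of_nonneg_left h1 hl.le
      have h4 := mul_le_mul_of_nonneg_left h2 hl.le
      have h5 : lam 0 * (qx (sh 1 lam) a + sg (sh 1 lam) n) =
          lam 0 * qx (sh 1 lam) a + sg lam (n + 1) := by rw [sg_succ']; ring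
      rw [h5] at h4
      have key : ∀ b : Bool, qx lam (Fin.cons b a : Fin (n + 1) → Bool) =
          bt b * (1 - lam 0) + lam 0 * qx (sh 1 lam) a := by
        intro b
        rw [qx_succ, Fin.cons_zero]
        have ht : (fun i : Fin n => (Fin.cons b a : Fin (n + 1) → Bool) i.succ) = a := by
          funext i; rw [Fin.cons_succ]
        rw [ht]
      rcases hxy with rfl | rfl
      · refine ⟨Fin.cons false a, ?_, ?_⟩
        · rw [key, bt_false]; linarith
        · rw [key, bt_false]; linarith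
      · refine ⟨Fin.cons true a, ?_, ?_⟩
        · rw [key, bt_true]; linarith
        · rw [key, bt_true]; linarith
    · rintro ⟨a, h1, h2⟩
      rw [qx_succ] at h1 h2
      rw [sg_succ'] at h2
      refine ⟨(x - bt (a 0) * (1 - lam 0)) / lam 0, (ih (sh 1 lam) (hlam.sh 1) _).2
        ⟨fun i : Fin n => a i.succ, ?_, ?_⟩, ?_⟩
      · rw [le_div_iff₀ hl]
        linarith
      · rw [div_le_iff₀ hl]
        linarith
      · rw [mul_div_cancel₀ _ hl.ne']
        cases a 0 with
        | false =>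
          left
          rw [bt_false]; ring
        | true =>
          right
          rw [bt_true]; ring

theorem symm_aux (n : ℕ) : ∀ (lam : ℕ → ℝ) (x : ℝ), x ∈ cset lam n → 1 - x ∈ cset lam n := by
  induction n with
  | zero =>
    rintro lam x ⟨h1, h2⟩
    exact ⟨by linarith, by linarith⟩
  | succ n ih =>
    intro lam x hx
    obtain ⟨y, hy, hxy⟩ := (mem_succ lam n x).1 hx
    refine (mem_succ lam n _).2 ⟨1 - y, ih _ y hy, ?_⟩
    rcases hxy with rfl | rfl
    · right; ring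
    · left; ring

theorem symm_cset (lam : ℕ → ℝ) (n : ℕ) (x : ℝ) : x ∈ cset lam n ↔ 1 - x ∈ cset lam n := by
  refine ⟨symm_aux n lam x, fun h => ?_⟩
  have h1 := symm_aux n lam _ h
  have h2 : 1 - (1 - x) = x := by ring
  rwa [h2] at h1

theorem compact_cset (n : ℕ) : ∀ lam : ℕ → ℝ, IsCompact (cset lam n) := by
  induction n with
  | zero => exact fun _ => isCompact_Icc
  | succ n ih =>
    intro lam
    exact ((ih _).image (by fun_prop)).union ((ih _).image (by fun_prop))

theorem nested (n : ℕ) : ∀ lam : ℕ → ℝ, Pos lam → cset lam (n + 1) ⊆ cset lam n := by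
  induction n with
  | zero =>
    intro lam hlam x hx
    obtain ⟨y, ⟨hy0, hy1⟩, hxy⟩ := (mem_succ lam 0 x).1 hx
    obtain ⟨h1, h2⟩ := hlam 0
    have h3 : 0 ≤ lam 0 * y := mul_nonneg h1.le hy0
    have h4 : lam 0 * y ≤ lam 0 * 1 := mul_le_mul_of_nonneg_left hy1 h1.le
    rcases hxy with rfl | rfl
    · exact ⟨by linarith, by linarith⟩
    · exact ⟨by linarith, by linarith⟩
  | succ n ih =>
    intro lam hlam x hx
    obtain ⟨y, hy, hxy⟩ := (mem_succ lam (n + 1) x).1 hx
    exact (mem_succ lam n x).2 ⟨y, ih (sh 1 lam) (hlam.sh 1) hy, hxy⟩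

theorem px_eq (lam : ℕ → ℝ) {n : ℕ} (w : Wd n) : px lam w = qx lam (fun i => (w i).1) := rfl
theorem py_eq (lam : ℕ → ℝ) {n : ℕ} (w : Wd n) : py lam w = qx lam (fun i => (w i).2) := rfl

theorem compact_E (lam : ℕ → ℝ) (n : ℕ) : IsCompact (E lam n) := by
  have h : E lam n = Complex.equivRealProdCLM.symm '' (cset lam n ×ˢ cset lam n) := by
    ext z
    constructor
    · rintro ⟨h1, h2⟩
      exact ⟨(z.re, z.im), ⟨h1, h2⟩, Complex.ext rfl rfl⟩
    · rintro ⟨p, ⟨h1, h2⟩, rfl⟩
      exact ⟨h1, h2⟩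
  rw [h]
  exact ((compact_cset n lam).prod (compact_cset n lam)).image
    Complex.equivRealProdCLM.symm.continuous

end GEOK

open GEOK in
/-- **GEOK.** -/
theorem GEOK_thm : Stmt_GEOK := by
  intro lam n hlam
  refine ⟨?_, symm_cset lam n, compact_cset n lam, compact_E lam n, ?_, nested n lam hlam⟩
  · ext z
    constructor
    · rintro ⟨h1, h2⟩
      obtain ⟨a, ha1, ha2⟩ := (mem_cset n lam hlam z.re).1 h1
      obtain ⟨b, hb1, hb2⟩ := (mem_cset n lam hlam z.im).1 h2
      exact mem_iUnion.2 ⟨fun i => (a i, b i), ⟨ha1, ha2⟩, ⟨hb1, hb2⟩⟩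
    · intro h
      obtain ⟨w, ⟨ha1, ha2⟩, ⟨hb1, hb2⟩⟩ := mem_iUnion.1 h
      exact ⟨(mem_cset n lam hlam z.re).2 ⟨fun i => (w i).1, ha1, ha2⟩,
        (mem_cset n lam hlam z.im).2 ⟨fun i => (w i).2, hb1, hb2⟩⟩
  · intro t ht
    have ht1 : 0 < 1 + t := by linarith
    ext u
    constructor
    · intro hu
      obtain ⟨w, h1, h2⟩ := mem_iUnion.1 hu
      have hs0 : 0 ≤ (u - pr lam t w) / (1 + t) := div_nonneg (by linarith) ht1.le
      have hs1 : (u - pr lam t w) / (1 + t) ≤ sg lam n := by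
        rw [div_le_iff₀ ht1]
        linarith
      refine ⟨px lam w + (u - pr lam t w) / (1 + t),
        (mem_cset n lam hlam _).2 ⟨fun i => (w i).1, ?_, ?_⟩,
        py lam w + (u - pr lam t w) / (1 + t),
        (mem_cset n lam hlam _).2 ⟨fun i => (w i).2, ?_, ?_⟩, ?_⟩
      · rw [← px_eq]; linarith
      · rw [← px_eq]; linarith
      · rw [← py_eq]; linarith
      · rw [← py_eq]; linarith
      · have hp : pr lam t w = px lam w + t * py lam w := rfl
        have : px lam w + (u - pr lam t w) / (1 + t) +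
            t * (py lam w + (u - pr lam t w) / (1 + t)) =
            px lam w + t * py lam w + (u - pr lam t w) / (1 + t) * (1 + t) := by ring
        rw [this, div_mul_cancel₀ _ ht1.ne', hp]
        ring
    · rintro ⟨x, hx, y, hy, rfl⟩
      obtain ⟨a, ha1, ha2⟩ := (mem_cset n lam hlam x).1 hx
      obtain ⟨b, hb1, hb2⟩ := (mem_cset n lam hlam y).1 hy
      refine mem_iUnion.2 ⟨fun i => (a i, b i), ?_, ?_⟩
      · show qx lam a + t * qx lam b ≤ x + t * y
        have := mul_le_mul_of_nonneg_left hb1 ht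
        linarith
      · show x + t * y ≤ qx lam a + t * qx lam b + (1 + t) * sg lam n
        have := mul_le_mul_of_nonneg_left hb2 ht
        linarith

end Pool.Agent.FCK
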