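import Pool.Agent.FCK.Stmts

/-!
# FCK: the geometric sums
-/

set_option autoImplicit false

namespace Pool.Agent.FCK

namespace GEOM

theorem sx_succ {lam : ℕ → ℝ} (h : ∀ k, 0 < lam k) (n : ℕ) :
    SX lam (n + 1) = SX (sh 1 lam) n / (4 * lam 0) +
      (if lam 0 = 1 / 4 then 0 else 1 / (4 * lam 0)) := by
  unfold SX
  rw [Finset.sum_range_succ', Finset.sum_div]
  congr 1
  · refine Finset.sum_congr rfl fun i _ => ?_
    have h1 : sh 1 lam i = lam (i + 1) := rfl
    rw [h1]
    split
    · simp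
    · rw [th_succ' h (i + 1)]
  · split
    · rfl
    · rw [th_succ' h 0, th_zero]

theorem sx_le {δ : ℝ} (hδ : 0 < δ) (n : ℕ) :
    ∀ lam : ℕ → ℝ, Adm δ lam → SX lam n ≤ 1 / (4 * δ) := by
  induction n with
  | zero =>
    intro lam _
    unfold SX
    rw [Finset.sum_range_zero]
    positivity
  | succ n ih =>
    intro lam h
    have h0 : ∀ k, 0 < lam k := fun k => lt_of_lt_of_le (by norm_num) (h.pos hδ k)
    rw [sx_succ h0]
    have h1 := ih (sh 1 lam) (h.sh 1)
    rcases h 0 with h2 | h2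
    · rw [if_pos h2, h2]
      have : (4 : ℝ) * (1 / 4) = 1 := by norm_num
      rw [this, div_one, add_zero]
      exact h1
    · rw [if_neg (by intro h3; linarith [h2.1]), ← add_div]
      rw [div_le_div_iff₀ (by linarith [h0 0]) (by linarith)]
      have h3 : SX (sh 1 lam) n * (4 * δ) ≤ 1 := by
        rw [le_div_iff₀ (by linarith)] at h1
        exact h1
      nlinarith [h2.1]

theorem th_le {δ : ℝ} (hδ : 0 < δ) {lam : ℕ → ℝ} (h : Adm δ lam) (n : ℕ) :
    Th lam n ≤ 1 + SD lam n + SX lam n := by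
  have h0 : ∀ k, 0 < lam k := fun k => lt_of_lt_of_le (by norm_num) (h.pos hδ k)
  unfold Th SD SX
  rw [Finset.sum_range_succ', th_zero, add_assoc, ← Finset.sum_add_distrib]
  have : ∑ k ∈ Finset.range n, th lam (k + 1) ^ 2 ≤ ∑ x ∈ Finset.range n,
      ((if lam x = 1 / 4 then th lam x ^ 2 else 0) +
        if lam x = 1 / 4 then 0 else th lam (x + 1)) := by
    refine Finset.sum_le_sum fun i _ => ?_
    by_cases h1 : lam i = 1 / 4
    · rw [if_pos h1, if_pos h1, th_succ h0, h1, add_zero]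
      norm_num
    · rw [if_neg h1, if_neg h1, zero_add]
      have h2 := th_le_one (fun k => h.pos hδ k) (i + 1)
      have h3 := (th_pos h0 (i + 1)).le
      nlinarith
  linarith

end GEOM

theorem GEOM_thm : Stmt_GEOM := by
  intro δ lam n hδ h
  have h1 := GEOM.sx_le hδ n lam h
  refine ⟨h1, ?_⟩
  have h2 := GEOM.th_le hδ h n
  have h3 := SD_nonneg lam n
  have h4 : (0 : ℝ) < 1 / (4 * δ) := by positivity
  nlinarith [mul_nonneg h3 h4.le]

end Pool.Agent.FCK
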