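import Pool.Agent.FCK.Stmts
import Pool.Agent.Lib52.SP.Ultra

/-!
# GLIM: outer regularity of the analytic capacity
-/

set_option autoImplicit false

namespace Pool.Agent.FCK

open MeasureTheory Set Filter Metric
open scoped Topology

namespace GLIM

/-- the admissible pairs of a compact set -/
structure Adms (K : Set ℂ) (f : ℂ → ℂ) (a : ℂ) : Prop where
  diff : DifferentiableOn ℂ f Kᶜ
  bd : ∀ z ∈ Kᶜ, ‖f z‖ ≤ 1
  zero : Tendsto f (cocompact ℂ) (𝓝 0)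
  lim : Tendsto (fun z => z * f z) (cocompact ℂ) (𝓝 a)

theorem gam_eq (K : Set ℂ) : FCC.gam K = sSup {r : ℝ | ∃ f : ℂ → ℂ, ∃ a : ℂ, Adms K f a ∧ r = ‖a‖} := by
  unfold FCC.gam
  congr 1
  ext r
  constructor
  · rintro ⟨f, a, h1, h2, h3, h4, h5⟩
    exact ⟨f, a, ⟨h1, h2, h3, h4⟩, h5⟩
  · rintro ⟨f, a, ⟨h1, h2, h3, h4⟩, h5⟩
    exact ⟨f, a, h1, h2, h3, h4, h5⟩

theorem Adms.triv (K : Set ℂ) : Adms K (fun _ => 0) 0 where
  diff := differentiableOn_const _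
  bd := fun z _ => by simp
  zero := tendsto_const_nhds
  lim := by simp

/-- the function at infinity -/
noncomputable def inv0 (f : ℂ → ℂ) (w : ℂ) : ℂ := if w = 0 then 0 else f w⁻¹

theorem inv0_zero (f : ℂ → ℂ) : inv0 f 0 = 0 := by simp [inv0]

theorem inv0_of_ne (f : ℂ → ℂ) {w : ℂ} (h : w ≠ 0) : inv0 f w = f w⁻¹ := by simp [inv0, h]

theorem tendsto_inv_cocompact : Tendsto (fun w : ℂ => w⁻¹) (𝓝[≠] 0) (cocompact ℂ) := by
  rw [← Metric.cobounded_eq_cocompact]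
  exact tendsto_inv₀_nhdsNE_zero

theorem Adms.inv_mem {K : Set ℂ} {R : ℝ} (hK : K ⊆ ball 0 R) (hR : 0 < R) {w : ℂ}
    (hw : w ∈ ball (0 : ℂ) (1 / R)) (h0 : w ≠ 0) : w⁻¹ ∈ Kᶜ := by
  intro h
  have h1 := hK h
  rw [mem_ball_zero_iff, norm_inv] at h1
  rw [mem_ball_zero_iff] at hw
  have h2 : 0 < ‖w‖ := norm_pos_iff.2 h0
  have h3 : 1 < R * ‖w‖ := by
    rw [inv_lt_iff_one_lt_mul₀ h2] at h1
    exact h1
  rw [lt_div_iff₀ hR] at hw
  linarith [mul_comm R ‖w‖]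

theorem Adms.diffInv {K : Set ℂ} {f : ℂ → ℂ} {a : ℂ} (h : Adms K f a) (hc : IsClosed K) {R : ℝ}
    (hK : K ⊆ ball 0 R) (hR : 0 < R) : DifferentiableOn ℂ (inv0 f) (ball (0 : ℂ) (1 / R)) := by
  have hne : ∀ w ∈ ball (0 : ℂ) (1 / R), w ≠ 0 → DifferentiableAt ℂ (inv0 f) w := by
    intro w hw h0
    have h1 : DifferentiableAt ℂ f w⁻¹ :=
      h.diff.differentiableAt (hc.isOpen_compl.mem_nhds (inv_mem hK hR hw h0))
    have h2 : DifferentiableAt ℂ (fun w : ℂ => f w⁻¹) w :=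
      DifferentiableAt.comp w h1 (differentiableAt_inv h0)
    refine h2.congr_of_eventuallyEq ?_
    filter_upwards [isOpen_ne.mem_nhds h0] with x hx
    exact inv0_of_ne f hx
  have hcont : ContinuousAt (inv0 f) 0 := by
    have h1 : Tendsto (inv0 f) (𝓝[≠] 0) (𝓝 (inv0 f 0)) := by
      rw [inv0_zero]
      refine (h.zero.comp tendsto_inv_cocompact).congr' ?_
      filter_upwards [self_mem_nhdsWithin] with x hx
      exact (inv0_of_ne f hx).symm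
    exact continuousAt_iff_punctured_nhds.2 h1
  intro w hw
  by_cases h0 : w = 0
  · subst h0
    refine (Complex.analyticAt_of_differentiable_on_punctured_nhds_of_continuousAt ?_
      hcont).differentiableAt.differentiableWithinAt
    have h2 : ball (0 : ℂ) (1 / R) ∈ 𝓝[≠] (0 : ℂ) :=
      mem_nhdsWithin_of_mem_nhds (ball_mem_nhds _ (by positivity))
    filter_upwards [h2, self_mem_nhdsWithin] with x hx hx0
    exact hne x hx hx0
  · exact (hne w hw h0).differentiableWithinAt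

theorem Adms.derivInv {K : Set ℂ} {f : ℂ → ℂ} {a : ℂ} (h : Adms K f a) (hc : IsClosed K) {R : ℝ}
    (hK : K ⊆ ball 0 R) (hR : 0 < R) : HasDerivAt (inv0 f) a 0 := by
  have h1 : HasDerivAt (inv0 f) (deriv (inv0 f) 0) 0 :=
    ((h.diffInv hc hK hR).differentiableAt (ball_mem_nhds _ (by positivity))).hasDerivAt
  have h2 := hasDerivAt_iff_tendsto_slope.1 h1
  have h3 : Tendsto (slope (inv0 f) 0) (𝓝[≠] 0) (𝓝 a) := by
    refine (h.lim.comp tendsto_inv_cocompact).congr' ?_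
    filter_upwards [self_mem_nhdsWithin] with x hx
    simp only [Function.comp_apply, slope, vsub_eq_sub, sub_zero, smul_eq_mul, inv0_zero]
    rw [inv0_of_ne f hx]
  rwa [tendsto_nhds_unique h2 h3] at h1

theorem Adms.bdInv {K : Set ℂ} {f : ℂ → ℂ} {a : ℂ} (h : Adms K f a) {R : ℝ}
    (hK : K ⊆ ball 0 R) (hR : 0 < R) : ∀ w ∈ ball (0 : ℂ) (1 / R), ‖inv0 f w‖ ≤ 1 := by
  intro w hw
  by_cases h0 : w = 0
  · rw [h0, inv0_zero, norm_zero]; norm_num
  · rw [inv0_of_ne f h0]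
    exact h.bd _ (inv_mem hK hR hw h0)

theorem Adms.norm_le {K : Set ℂ} {f : ℂ → ℂ} {a : ℂ} (h : Adms K f a) (hc : IsClosed K) {R : ℝ}
    (hK : K ⊆ ball 0 R) (hR : 0 < R) : ‖a‖ ≤ 2 * R := by
  have h1 := SP.norm_fderiv_le_of_bound (by positivity : 0 < 1 / R) (h.diffInv hc hK hR)
    (h.bdInv hK hR)
  rw [(h.derivInv hc hK hR).hasFDerivAt.fderiv] at h1
  have h2 : ‖(ContinuousLinearMap.toSpanSingleton ℂ a : ℂ →L[ℂ] ℂ)‖ = ‖a‖ :=
    ContinuousLinearMap.norm_toSpanSingleton a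
  have h3 := h1
  rw [h2] at h3
  calc ‖a‖ ≤ 2 * 1 / (1 / R) := h3
    _ = 2 * R := by field_simp

theorem Adms.far {K : Set ℂ} {f : ℂ → ℂ} {a : ℂ} (h : Adms K f a) (hc : IsClosed K) {R : ℝ}
    (hK : K ⊆ ball 0 R) (hR : 0 < R) {z : ℂ} (hz : R < ‖z‖) : ‖z * f z - a‖ ≤ 4 * R ^ 2 / ‖z‖ := by
  have hz0 : 0 < ‖z‖ := hR.trans hz
  have hzn : z ≠ 0 := norm_pos_iff.1 hz0
  have hw : z⁻¹ ∈ ball (0 : ℂ) (1 / R) := by
    rw [mem_ball_zero_iff, norm_inv, ← one_div]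
    exact one_div_lt_one_div_of_lt hR hz
  have h1 := SP.quad_bound (by positivity : 0 < 1 / R) (h.diffInv hc hK hR) (h.bdInv hK hR) _ hw
  rw [(h.derivInv hc hK hR).hasFDerivAt.fderiv, inv0_zero, inv0_of_ne f (inv_ne_zero hzn)] at h1
  simp only [sub_zero, inv_inv, ContinuousLinearMap.toSpanSingleton_apply, smul_eq_mul] at h1
  have h2 : z * f z - a = z * (f z - z⁻¹ * a) := by
    rw [mul_sub, ← mul_assoc, mul_inv_cancel₀ hzn, one_mul]
  rw [h2, norm_mul]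
  calc ‖z‖ * ‖f z - z⁻¹ * a‖ ≤ ‖z‖ * (4 * 1 / (1 / R) ^ 2 * ‖z⁻¹‖ ^ 2) :=
        mul_le_mul_of_nonneg_left h1 hz0.le
    _ = 4 * R ^ 2 / ‖z‖ := by
        rw [norm_inv]
        field_simp

theorem Adms.le_gam {K : Set ℂ} {f : ℂ → ℂ} {a : ℂ} (h : Adms K f a) (hc : IsClosed K) {R : ℝ}
    (hK : K ⊆ ball 0 R) (hR : 0 < R) : ‖a‖ ≤ FCC.gam K := by
  rw [gam_eq]
  refine le_csSup ⟨2 * R, ?_⟩ ⟨f, a, h, rfl⟩
  rintro r ⟨f', a', h', rfl⟩
  exact h'.norm_le hc hK hR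

end GLIM

open GLIM

theorem GLIM_thm : Stmt_GLIM := by
  intro K g hK hanti hg
  obtain ⟨R0, hR0⟩ := (hK 0).isBounded.subset_ball (0 : ℂ)
  obtain ⟨R, hR, hKR⟩ : ∃ R : ℝ, 0 < R ∧ K 0 ⊆ ball (0 : ℂ) R :=
    ⟨max R0 1, lt_of_lt_of_le one_pos (le_max_right _ _),
      hR0.trans (ball_subset_ball (le_max_left _ _))⟩
  have hKn : ∀ n, K n ⊆ ball (0 : ℂ) R := fun n => (hanti (Nat.zero_le n)).trans hKR
  have hcl : ∀ n, IsClosed (K n) := fun n => (hK n).isClosed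
  have hcl' : IsClosed (⋂ n, K n) := isClosed_iInter hcl
  have hKi : (⋂ n, K n) ⊆ ball (0 : ℂ) R := (iInter_subset K 0).trans hKR
  -- admissible pairs
  have hex : ∀ n : ℕ, ∃ (f : ℂ → ℂ) (a : ℂ), Adms (K n) f a ∧ g - 1 / ((n : ℝ) + 1) < ‖a‖ := by
    intro n
    have h1 : g - 1 / ((n : ℝ) + 1) < FCC.gam (K n) := by
      have h2 : (0 : ℝ) < 1 / ((n : ℝ) + 1) := by positivity
      linarith [hg n]
    rw [gam_eq] at h1
    obtain ⟨r, ⟨f, a, h2, rfl⟩, h3⟩ := exists_lt_of_lt_csSup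
      (⟨‖(0 : ℂ)‖, ⟨fun _ => 0, 0, Adms.triv _, rfl⟩⟩ : Set.Nonempty
        {r : ℝ | ∃ f : ℂ → ℂ, ∃ a : ℂ, Adms (K n) f a ∧ r = ‖a‖}) h1
    exact ⟨f, a, h2, h3⟩
  choose f a hfa ha using hex
  let U : Ultrafilter ℕ := hyperfilter ℕ
  have hU : (U : Filter ℕ) ≤ atTop := by
    rw [← Nat.cofinite_eq_atTop]
    exact hyperfilter_le_cofinite
  have hev : ∀ m : ℕ, ∀ᶠ n in (U : Filter ℕ), m ≤ n := fun m => hU (eventually_ge_atTop m)
  have hout : ∀ z ∈ (⋂ n, K n)ᶜ, ∃ m, z ∉ K m := by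
    intro z hz
    rw [mem_compl_iff, mem_iInter] at hz
    push Not at hz
    exact hz
  have hlim : ∀ z : ℂ, ∃ l : ℂ, z ∈ (⋂ n, K n)ᶜ →
      ‖l‖ ≤ 1 ∧ Tendsto (fun n => f n z) U (𝓝 l) := by
    intro z
    by_cases hz : z ∈ (⋂ n, K n)ᶜ
    · obtain ⟨m, hm⟩ := hout z hz
      obtain ⟨l, hl1, hl2⟩ := (isCompact_closedBall (0 : ℂ) 1).ultrafilter_le_nhds
        (U.map fun n => f n z) (by
          rw [le_principal_iff]
          show ∀ᶠ n in (U : Filter ℕ), f n z ∈ closedBall (0 : ℂ) 1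
          filter_upwards [hev m] with n hn
          rw [mem_closedBall_zero_iff]
          exact (hfa n).bd z fun h => hm (hanti hn h))
      exact ⟨l, fun _ => ⟨mem_closedBall_zero_iff.1 hl1, hl2⟩⟩
    · exact ⟨0, fun h => absurd h hz⟩
  choose F hF using hlim
  obtain ⟨A, -, hA⟩ := (isCompact_closedBall (0 : ℂ) (2 * R)).ultrafilter_le_nhds
    (U.map fun n => a n) (by
      rw [le_principal_iff]
      show ∀ᶠ n in (U : Filter ℕ), a n ∈ closedBall (0 : ℂ) (2 * R)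
      refine Eventually.of_forall fun n => ?_
      rw [mem_closedBall_zero_iff]
      exact (hfa n).norm_le (hcl n) (hKn n) hR)
  have hA' : Tendsto (fun n => a n) U (𝓝 A) := hA
  have hmem : ∀ z : ℂ, R < ‖z‖ → z ∈ (⋂ n, K n)ᶜ := by
    intro z hz h
    have := hKi h
    rw [mem_ball_zero_iff] at this
    linarith
  have hfar : ∀ z : ℂ, R < ‖z‖ → ‖z * F z - A‖ ≤ 4 * R ^ 2 / ‖z‖ := by
    intro z hz
    have h1 : Tendsto (fun n => ‖z * f n z - a n‖) U (𝓝 ‖z * F z - A‖) :=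
      (((hF z (hmem z hz)).2.const_mul z).sub hA').norm
    exact le_of_tendsto h1 (Eventually.of_forall fun n => (hfa n).far (hcl n) (hKn n) hR hz)
  have hnorm : Tendsto (fun z : ℂ => ‖z‖) (cocompact ℂ) atTop := tendsto_norm_cocompact_atTop
  have hlimA : Tendsto (fun z => z * F z) (cocompact ℂ) (𝓝 A) := by
    rw [tendsto_iff_norm_sub_tendsto_zero]
    have h0 : Tendsto (fun z : ℂ => 4 * R ^ 2 / ‖z‖) (cocompact ℂ) (𝓝 0) :=
      hnorm.const_div_atTop _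
    refine squeeze_zero' (Eventually.of_forall fun z => norm_nonneg _) ?_ h0
    filter_upwards [hnorm.eventually_gt_atTop R] with z hz
    exact hfar z hz
  have hlim0 : Tendsto F (cocompact ℂ) (𝓝 0) := by
    have h1 : Tendsto (fun z : ℂ => z⁻¹ * (z * F z)) (cocompact ℂ) (𝓝 (0 * A)) := by
      refine Tendsto.mul ?_ hlimA
      rw [← Metric.cobounded_eq_cocompact]
      exact tendsto_inv₀_cobounded
    rw [zero_mul] at h1
    refine h1.congr' ?_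
    filter_upwards [hnorm.eventually_gt_atTop 0] with z hz
    rw [← mul_assoc, inv_mul_cancel₀ (norm_pos_iff.1 hz), one_mul]
  have hadm : Adms (⋂ n, K n) F A := by
    refine ⟨?_, fun z hz => (hF z hz).1, hlim0, hlimA⟩
    intro z hz
    obtain ⟨m, hm⟩ := hout z hz
    obtain ⟨ρ, hρ, hball⟩ := Metric.isOpen_iff.1 (hcl m).isOpen_compl z hm
    have hsub : ∀ n, m ≤ n → ball z ρ ⊆ (K n)ᶜ := fun n hn w hw h => hball hw (hanti hn h)
    have hsubi : ball z ρ ⊆ (⋂ n, K n)ᶜ := fun w hw h => hball hw (mem_iInter.1 h m)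
    refine (SP.ultra_diff U (F := f) (R := ρ) (K := 1) hρ ?_ ?_ ?_).differentiableWithinAt
    · filter_upwards [hev m] with n hn
      exact (hfa n).diff.mono (hsub n hn)
    · filter_upwards [hev m] with n hn w hw
      exact (hfa n).bd w (hsub n hn hw)
    · intro w hw
      exact (hF w (hsubi hw)).2
  refine le_trans ?_ (hadm.le_gam hcl' hKi hR)
  have h1 : Tendsto (fun n : ℕ => g - 1 / ((n : ℝ) + 1)) U (𝓝 (g - 0)) :=
    (tendsto_const_nhds.sub tendsto_one_div_add_atTop_nhds_zero_nat).mono_left hU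
  rw [sub_zero] at h1
  exact le_of_tendsto_of_tendsto' h1 hA'.norm fun n => (ha n).le

end Pool.Agent.FCK
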