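import Pool.Agent.FCK.Stmts

/-!
# Corner Cantor sets: all the stretches
-/

set_option autoImplicit false

namespace Pool.Agent.FCK

open MeasureTheory Set
open Pool.Agent.FCC (Wd bv agr av)

namespace IND

/-- the weighted sum -/
noncomputable def W (Nf : ℝ → ℕ) (g : ℝ → ℝ) (lam : ℕ → ℝ) (n : ℕ) (τ : ℝ) : ℝ :=
  ∑ i ∈ Finset.range n,
    if lam i = 1 / 4 then τ * th lam i * g (τ * th lam i) / Nf (τ * th lam i) else 0

theorem W_succ (Nf : ℝ → ℕ) (g : ℝ → ℝ) {lam : ℕ → ℝ} (h : ∀ k, 0 < lam k) (n : ℕ) (τ : ℝ) :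
    W Nf g lam (n + 1) τ =
      W Nf g (sh 1 lam) n (τ / (4 * lam 0)) + (if lam 0 = 1 / 4 then τ * g τ / Nf τ else 0) := by
  unfold W
  rw [Finset.sum_range_succ']
  congr 1
  · refine Finset.sum_congr rfl fun i _ => ?_
    have e : τ * th lam (i + 1) = τ / (4 * lam 0) * th (sh 1 lam) i := by
      rw [th_succ' h]
      ring
    rw [e]
    rfl
  · rw [th_zero, mul_one]

theorem SX_succ {lam : ℕ → ℝ} (h : ∀ k, 0 < lam k) (n : ℕ) (τ : ℝ) :
    τ * SX lam (n + 1) =
      τ / (4 * lam 0) * SX (sh 1 lam) n + (if lam 0 = 1 / 4 then 0 else τ / (4 * lam 0)) := by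
  unfold SX
  rw [Finset.sum_range_succ', mul_add, Finset.mul_sum, Finset.mul_sum]
  congr 1
  · refine Finset.sum_congr rfl fun i _ => ?_
    show τ * (if lam (i + 1) = 1 / 4 then 0 else th lam (i + 1 + 1)) =
      τ / (4 * lam 0) * (if lam (i + 1) = 1 / 4 then 0 else th (sh 1 lam) (i + 1))
    split
    · simp
    · rw [th_succ' h (i + 1)]
      ring
  · split
    · simp
    · rw [th_succ' h 0, th_zero]
      ring

theorem L_stretch (hS : Stmt_STEP) (t : ℝ) (ht : 0 ≤ t) (k : ℕ) : ∀ (lam : ℕ → ℝ) (m : ℕ),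
    Pos lam → (∀ i < k, lam i = 1 / 4) → L lam (k + m) t ≤ L (sh k lam) m t := by
  induction k with
  | zero =>
    intro lam m _ _
    rw [Nat.zero_add, sh_zero]
  | succ k ih =>
    intro lam m hp hl
    have h1 := hS.1 lam (k + m) t hp ht
    have h2 := ih (sh 1 lam) m (hp.sh 1) (fun i hi => hl (i + 1) (by omega))
    have h3 : lam 0 = 1 / 4 := hl 0 (by omega)
    rw [sh_sh] at h2
    have e : k + 1 + m = k + m + 1 := by omega
    rw [e]
    rw [h3] at h1
    linarith

theorem stretch' (hS : Stmt_STEP) (t : ℝ) (ht : 0 ≤ t) {c n : ℕ} (hc : c ≤ n) {lam : ℕ → ℝ}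
    (hp : Pos lam) (hl : ∀ i < c, lam i = 1 / 4) : L lam n t ≤ L (sh c lam) (n - c) t := by
  have h := L_stretch hS t ht c lam (n - c) hp hl
  rwa [Nat.add_sub_cancel' hc] at h

theorem claim (hK : Stmt_STRK) (hS : Stmt_STEP) (t K : ℝ) (Nf : ℝ → ℕ) (g : ℝ → ℝ)
    (ht : 0 ≤ t) (ht1 : t ≤ 1) (hK1 : 1 ≤ K) (hN : ∀ θ, 1 ≤ Nf θ)
    (hg : ∀ θ, g θ = 0 ∨ g θ = 1)
    (hgS : ∀ θ, 0 < θ → θ ≤ 1 → g θ = 1 → 48 * K / θ < FCC.S (Nf θ) t) (n : ℕ) :
    ∀ (lam : ℕ → ℝ) (τ : ℝ), (∀ k, 1 / 4 ≤ lam k ∧ lam k ≤ 1 / 2) → 0 < τ → τ ≤ 1 →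
      ∃ (c : ℕ) (V : ℝ), c < Nf τ ∧ c ≤ n ∧ 0 < V ∧ V ≤ K ∧ (∀ i < c, lam i = 1 / 4) ∧
        L (sh c lam) (n - c) t ≤ τ / V ∧
        min K (1 / 18432 * (W Nf g lam n τ - c * (τ * g τ / Nf τ) - τ * SX lam n)) ≤ V := by
  induction n with
  | zero =>
    intro lam τ hl hτ hτ1
    have hp : Pos lam := fun k => ⟨by linarith [(hl k).1], (hl k).2⟩
    refine ⟨0, τ / 2, hN τ, le_refl _, by linarith, by linarith, fun i hi => by omega, ?_, ?_⟩
    · have h1 := L_le hp 0 ht
      have h2 : τ / (τ / 2) = 2 := by field_simp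
      rw [h2, sh_zero]
      linarith
    · refine (min_le_right _ _).trans ?_
      unfold W SX
      simp
      linarith
  | succ n ih =>
    intro lam τ hl hτ hτ1
    have hp : Pos lam := fun k => ⟨by linarith [(hl k).1], (hl k).2⟩
    have hp0 : ∀ k, 0 < lam k := fun k => (hp k).1
    have h40 : (1 : ℝ) ≤ 4 * lam 0 := by linarith [(hl 0).1]
    have hτ'0 : 0 < τ / (4 * lam 0) := by positivity
    have hτ'1 : τ / (4 * lam 0) ≤ 1 := (div_le_self hτ.le h40).trans hτ1
    obtain ⟨c, V, hc, hcn, hV, hVK, hcl, hL, hmin⟩ :=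
      ih (sh 1 lam) (τ / (4 * lam 0)) (fun k => hl _) hτ'0 hτ'1
    have hcl' : ∀ i < c + 1, lam 0 = 1 / 4 → lam i = 1 / 4 := by
      intro i hi h0
      rcases i with _ | i
      · exact h0
      · exact hcl i (by omega)
    have hNτ : (1 : ℝ) ≤ Nf τ := by exact_mod_cast hN τ
    rw [sh_sh] at hL
    by_cases h0 : lam 0 = 1 / 4
    · -- ratio 1/4
      have e4 : τ / (4 * lam 0) = τ := by rw [h0]; ring
      rw [e4] at hc hL hmin
      have hWs := W_succ Nf g hp0 n τ
      have hXs := SX_succ hp0 n τ
      rw [e4, if_pos h0] at hWs hXs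
      rw [add_zero] at hXs
      by_cases hc1 : c + 1 < Nf τ
      · refine ⟨c + 1, V, hc1, by omega, hV, hVK, fun i hi => hcl' i hi h0, ?_, ?_⟩
        · rw [Nat.succ_sub_succ]
          exact hL
        · have e : W Nf g lam (n + 1) τ - ((c + 1 : ℕ) : ℝ) * (τ * g τ / Nf τ) -
              τ * SX lam (n + 1) =
              W Nf g (sh 1 lam) n τ - c * (τ * g τ / Nf τ) - τ * SX (sh 1 lam) n := by
            rw [hWs, hXs]
            push_cast
            ring
          rw [e]
          exact hmin
      · have hcN : c + 1 = Nf τ := by omega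
        have hLs : L lam (n + 1) t ≤ L (sh (c + 1) lam) (n - c) t := by
          have h := stretch' hS t ht (c := c + 1) (n := n + 1) (by omega) hp
            (fun i hi => hcl' i hi h0)
          rwa [Nat.succ_sub_succ] at h
        rcases hg τ with hg0 | hg1
        · refine ⟨0, V, hN τ, Nat.zero_le _, hV, hVK, fun i hi => by omega, ?_, ?_⟩
          · rw [sh_zero, Nat.sub_zero]
            exact hLs.trans hL
          · have e : W Nf g lam (n + 1) τ - ((0 : ℕ) : ℝ) * (τ * g τ / Nf τ) -
                τ * SX lam (n + 1) =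
                W Nf g (sh 1 lam) n τ - c * (τ * g τ / Nf τ) - τ * SX (sh 1 lam) n := by
              rw [hWs, hXs, hg0]
              push_cast
              ring
            rw [e]
            exact hmin
        · set A : ℝ := 1 / 18432 *
            (W Nf g (sh 1 lam) n τ - c * (τ * g τ / Nf τ) - τ * SX (sh 1 lam) n) with hA
          have hV' : 0 < V + 1 / 18432 * τ := by positivity
          have hK0 : 0 < K := by linarith
          refine ⟨0, min K (V + 1 / 18432 * τ), hN τ, Nat.zero_le _, lt_min hK0 hV',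
            min_le_left _ _, fun i hi => by omega, ?_, ?_⟩
          · rw [sh_zero, Nat.sub_zero]
            have hτV : 0 < τ / V := by positivity
            have hρ0 : 0 < min (τ / V) 2 := lt_min hτV (by norm_num)
            have hps : Pos (sh (c + 1) lam) := hp.sh _
            have hPe : P lam (n + 1) t = ext (c + 1) t (P (sh (c + 1) lam) (n - c) t) := by
              have h := hS.2 lam (c + 1) (n - c) t (fun i hi => hcl' i hi h0)
              have e : c + 1 + (n - c) = n + 1 := by omega
              rwa [e] at h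
            have hLle : (volume (P (sh (c + 1) lam) (n - c) t)).toReal ≤ min (τ / V) 2 := by
              refine le_min hL ?_
              have := L_le hps (n - c) ht
              unfold L at this
              linarith
            have hτK : τ / K ≤ min (τ / V) 2 := by
              refine le_min (div_le_div_of_nonneg_left hτ.le hV hVK) ?_
              rw [div_le_iff₀ hK0]
              nlinarith
            have h48 : 48 / min (τ / V) 2 < FCC.S (c + 1) t := by
              have h1 := hgS τ hτ hτ1 hg1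
              rw [← hcN] at h1
              refine lt_of_le_of_lt ?_ h1
              have h2 : 48 / min (τ / V) 2 ≤ 48 / (τ / K) :=
                div_le_div_of_nonneg_left (by norm_num) (by positivity) hτK
              have h3 : 48 / (τ / K) = 48 * K / τ := by field_simp
              rw [h3] at h2
              exact h2
            have hmain := hK (c + 1) t (min (τ / V) 2) (P (sh (c + 1) lam) (n - c) t) ht ht1
              (P_subset hps _ ht) (measurableSet_P _ _ _) hρ0 (min_le_right _ _) hLle h48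
            rw [← hPe] at hmain
            change L lam (n + 1) t ≤ _ at hmain
            have h5 : V / τ ≤ 1 / min (τ / V) 2 := by
              have h6 : 1 / (τ / V) ≤ 1 / min (τ / V) 2 :=
                one_div_le_one_div_of_le hρ0 (min_le_left _ _)
              have h7 : 1 / (τ / V) = V / τ := by field_simp
              rwa [h7] at h6
            have h8 : 1 / (1 / min (τ / V) 2 + 1 / 18432) ≤ 1 / (V / τ + 1 / 18432) :=
              one_div_le_one_div_of_le (by positivity) (by linarith)
            have h9 : 1 / (V / τ + 1 / 18432) = τ / (V + 1 / 18432 * τ) := by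
              field_simp
            have h10 : τ / (V + 1 / 18432 * τ) ≤ τ / min K (V + 1 / 18432 * τ) :=
              div_le_div_of_nonneg_left hτ.le (lt_min hK0 hV') (min_le_right _ _)
            rw [h9] at h8
            exact hmain.trans (h8.trans h10)
          · have hx : (c + 1 : ℝ) * (τ * g τ / Nf τ) = τ := by
              have h11 : ((c : ℝ) + 1) = Nf τ := by rw [← hcN]; push_cast; ring
              rw [h11, hg1]
              have : (Nf τ : ℝ) ≠ 0 := by positivity
              field_simp
            have e : 1 / 18432 * (W Nf g lam (n + 1) τ - ((0 : ℕ) : ℝ) * (τ * g τ / Nf τ) -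
                τ * SX lam (n + 1)) = A + 1 / 18432 * τ := by
              rw [hA, hWs, hXs]
              push_cast
              linear_combination (1 / 18432) * hx
            rw [e]
            refine le_min (min_le_left _ _) ?_
            rcases le_total K A with hKA | hKA
            · rw [min_eq_left hKA] at hmin
              have : 0 ≤ 1 / 18432 * τ := by positivity
              exact (min_le_left _ _).trans (by linarith)
            · rw [min_eq_right hKA] at hmin
              exact (min_le_right _ _).trans (by linarith)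
    · -- another ratio
      have hWs := W_succ Nf g hp0 n τ
      have hXs := SX_succ hp0 n τ
      rw [if_neg h0] at hWs hXs
      rw [add_zero] at hWs
      refine ⟨0, V, hN τ, Nat.zero_le _, hV, hVK, fun i hi => by omega, ?_, ?_⟩
      · rw [sh_zero, Nat.sub_zero]
        have h1 := hS.1 lam n t hp ht
        have h2 := stretch' hS t ht hcn (hp.sh 1) hcl
        rw [sh_sh] at h2
        have h3 : L (sh 1 lam) n t ≤ τ / (4 * lam 0) / V := h2.trans hL
        have h4 : 4 * lam 0 * L (sh 1 lam) n t ≤ 4 * lam 0 * (τ / (4 * lam 0) / V) :=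
          mul_le_mul_of_nonneg_left h3 (by linarith)
        have h5 : 4 * lam 0 * (τ / (4 * lam 0) / V) = τ / V := by
          have : lam 0 ≠ 0 := (hp0 0).ne'
          field_simp
        linarith
      · set τ' : ℝ := τ / (4 * lam 0) with hτ'
        have hN' : (1 : ℝ) ≤ Nf τ' := by exact_mod_cast hN τ'
        have hcc : (c : ℝ) * (τ' * g τ' / Nf τ') ≤ τ' := by
          have h1 : (c : ℝ) ≤ Nf τ' := by exact_mod_cast hc.le
          have h2 : 0 ≤ g τ' ∧ g τ' ≤ 1 := by
            rcases hg τ' with h | h <;> rw [h] <;> norm_num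
          have h3 : (c : ℝ) * (τ' * g τ' / Nf τ') ≤ Nf τ' * (τ' * g τ' / Nf τ') :=
            mul_le_mul_of_nonneg_right h1 (div_nonneg (mul_nonneg hτ'0.le h2.1) (by linarith))
          have h4 : (Nf τ' : ℝ) * (τ' * g τ' / Nf τ') = τ' * g τ' := by
            have : (Nf τ' : ℝ) ≠ 0 := by positivity
            field_simp
          have h5 : τ' * g τ' ≤ τ' * 1 := mul_le_mul_of_nonneg_left h2.2 hτ'0.le
          linarith
        refine le_trans (min_le_min (le_refl K) ?_) hmin
        rw [hWs, hXs]
        push_cast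
        nlinarith

end IND

/-- All the stretches. -/
theorem IND_thm (hK : Stmt_STRK) (hS : Stmt_STEP) : Stmt_IND := by
  intro lam n t K Nf g hl ht ht1 hK1 hN hg hgS hbig
  have hp : Pos lam := fun k => ⟨by linarith [(hl k).1], (hl k).2⟩
  obtain ⟨c, V, hc, hcn, hV, hVK, hcl, hL, hmin⟩ :=
    IND.claim hK hS t K Nf g ht ht1 hK1 hN hg hgS n lam 1 hl one_pos le_rfl
  have h1 := IND.stretch' hS t ht hcn hp hcl
  have hN1 : (1 : ℝ) ≤ Nf 1 := by exact_mod_cast hN 1
  have hW : IND.W Nf g lam n 1 = ∑ i ∈ Finset.range n,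
      if lam i = 1 / 4 then th lam i * g (th lam i) / Nf (th lam i) else 0 := by
    unfold IND.W
    refine Finset.sum_congr rfl fun i _ => ?_
    rw [one_mul]
  have hcc : (c : ℝ) * (1 * g 1 / Nf 1) ≤ 1 := by
    have h1 : (c : ℝ) ≤ Nf 1 := by exact_mod_cast hc.le
    have h2 : 0 ≤ g 1 ∧ g 1 ≤ 1 := by
      rcases hg 1 with h | h <;> rw [h] <;> norm_num
    have h3 : (c : ℝ) * (1 * g 1 / Nf 1) ≤ Nf 1 * (1 * g 1 / Nf 1) :=
      mul_le_mul_of_nonneg_right h1 (div_nonneg (by linarith [h2.1]) (by linarith))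
    have h4 : (Nf 1 : ℝ) * (1 * g 1 / Nf 1) = g 1 := by
      have : (Nf 1 : ℝ) ≠ 0 := by positivity
      field_simp
    linarith [h2.2]
  have hKV : K ≤ V := by
    refine le_trans (le_min le_rfl ?_) hmin
    rw [hW]
    refine hbig.trans ?_
    refine mul_le_mul_of_nonneg_left ?_ (by norm_num)
    have h5 : 1 * SX lam n = SX lam n := one_mul _
    linarith
  have h6 : (1 : ℝ) / V ≤ 1 / K := one_div_le_one_div_of_le (by linarith) hKV
  linarith

end Pool.Agent.FCK
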