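import Pool.Agent.FCK.Stmts

/-!
# INTK: the average length of the projections

As `Pool/Agent/FCQ/INT2.lean`.
-/

set_option autoImplicit false

namespace Pool.Agent.FCK

open MeasureTheory Set

namespace INTK

/-- The directions with a long projection. -/
def Bad (lam : ℕ → ℝ) (n k : ℕ) : Set ℝ := {t : ℝ | t ∈ Icc (0 : ℝ) 1 ∧ 1 / 2 ^ k < L lam n t}

theorem measurableSet_Bad (lam : ℕ → ℝ) (n k : ℕ) : MeasurableSet (Bad lam n k) := by
  have : Bad lam n k = Icc (0 : ℝ) 1 ∩ (L lam n) ⁻¹' (Ioi (1 / 2 ^ k)) := rfl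
  rw [this]
  exact measurableSet_Icc.inter (measurable_L _ _ measurableSet_Ioi)

theorem good (lam : ℕ → ℝ) (n k : ℕ) {t : ℝ} (ht : t ∈ Icc (0 : ℝ) 1)
    (h : t ∉ Bad lam n k) : L lam n t ≤ 1 / 2 ^ k := by
  by_contra hc
  exact h ⟨ht, not_le.1 hc⟩

theorem pointwise {lam : ℕ → ℝ} (hP : Pos lam) (n m : ℕ) {t : ℝ} (ht : t ∈ Icc (0 : ℝ) 1) :
    L lam n t ≤ 1 / 2 ^ m + ∑ k ∈ Finset.range (m + 1),
      2 / 2 ^ k * (Bad lam n k).indicator (1 : ℝ → ℝ) t := by
  classical
  have hnn : ∀ k ∈ Finset.range (m + 1),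
      0 ≤ 2 / 2 ^ k * (Bad lam n k).indicator (1 : ℝ → ℝ) t := fun k _ =>
    mul_nonneg (by positivity) (indicator_nonneg (fun _ _ => zero_le_one) _)
  by_cases h : ∃ k, k ≤ m ∧ t ∈ Bad lam n k
  · have h1 := Nat.find_spec h
    have h2 : ∀ j, j < Nat.find h → ¬ (j ≤ m ∧ t ∈ Bad lam n j) := fun j hj => Nat.find_min h hj
    set k := Nat.find h with hk
    have h3 : 2 / 2 ^ k * (Bad lam n k).indicator (1 : ℝ → ℝ) t ≤
        ∑ k ∈ Finset.range (m + 1), 2 / 2 ^ k * (Bad lam n k).indicator (1 : ℝ → ℝ) t :=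
      Finset.single_le_sum hnn (Finset.mem_range.2 (by omega))
    rw [indicator_of_mem h1.2, Pi.one_apply, mul_one] at h3
    have h4 : L lam n t ≤ 2 / 2 ^ k := by
      rcases Nat.eq_zero_or_pos k with h0 | hpos
      · rw [h0, pow_zero]
        have := L_le hP n ht.1
        linarith [ht.2]
      · have h5 : t ∉ Bad lam n (k - 1) := fun hc => h2 (k - 1) (by omega) ⟨by omega, hc⟩
        have h6 := good lam n (k - 1) ht h5
        have h7 : (2 : ℝ) ^ k = 2 ^ (k - 1) * 2 := by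
          rw [← pow_succ]; congr 1; omega
        rw [h7]
        have h8 : (0 : ℝ) < 2 ^ (k - 1) := by positivity
        calc L lam n t ≤ 1 / 2 ^ (k - 1) := h6
          _ = 2 / (2 ^ (k - 1) * 2) := by field_simp
    have h9 : (0 : ℝ) ≤ 1 / 2 ^ m := by positivity
    linarith
  · have h1 : t ∉ Bad lam n m := fun hc => h ⟨m, le_refl m, hc⟩
    have h2 := good lam n m ht h1
    have h3 := Finset.sum_nonneg hnn
    linarith

theorem integrableOn_L {lam : ℕ → ℝ} (hP : Pos lam) (n : ℕ) :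
    IntegrableOn (L lam n) (Icc (0 : ℝ) 1) := by
  apply Measure.integrableOn_of_bounded (M := 2)
  · rw [Real.volume_Icc]; exact ENNReal.ofReal_ne_top
  · exact (measurable_L lam n).aestronglyMeasurable
  · rw [ae_restrict_iff' measurableSet_Icc]
    refine Filter.Eventually.of_forall fun t ht => ?_
    rw [Real.norm_eq_abs, abs_of_nonneg (L_nonneg lam n t)]
    linarith [L_le hP n ht.1, ht.2]

theorem integrableOn_ind (lam : ℕ → ℝ) (n k : ℕ) :
    IntegrableOn ((Bad lam n k).indicator (1 : ℝ → ℝ)) (Icc (0 : ℝ) 1) := by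
  apply Measure.integrableOn_of_bounded (M := 1)
  · rw [Real.volume_Icc]; exact ENNReal.ofReal_ne_top
  · exact ((measurable_one).indicator (measurableSet_Bad lam n k)).aestronglyMeasurable
  · refine Filter.Eventually.of_forall fun t => ?_
    by_cases h : t ∈ Bad lam n k
    · rw [indicator_of_mem h]; simp
    · rw [indicator_of_notMem h]; simp

theorem integral_le {lam : ℕ → ℝ} (hP : Pos lam) (n m : ℕ) :
    ∫ t in (0 : ℝ)..1, L lam n t ≤ 1 / 2 ^ m + ∑ k ∈ Finset.range (m + 1),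
      2 / 2 ^ k * (volume (Bad lam n k)).toReal := by
  rw [intervalIntegral.integral_of_le (by norm_num), ← integral_Icc_eq_integral_Ioc]
  have hi : ∀ k ∈ Finset.range (m + 1), Integrable
      (fun t => 2 / 2 ^ k * (Bad lam n k).indicator (1 : ℝ → ℝ) t)
      (volume.restrict (Icc (0 : ℝ) 1)) := fun k _ => (integrableOn_ind lam n k).const_mul _
  have hs : IntegrableOn (fun t => ∑ k ∈ Finset.range (m + 1),
      2 / 2 ^ k * (Bad lam n k).indicator (1 : ℝ → ℝ) t) (Icc (0 : ℝ) 1) :=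
    integrable_finsetSum _ hi
  have hc : IntegrableOn (fun _ : ℝ => (1 / 2 ^ m : ℝ)) (Icc (0 : ℝ) 1) :=
    integrableOn_const (by rw [Real.volume_Icc]; exact ENNReal.ofReal_ne_top)
  calc ∫ t in Icc (0 : ℝ) 1, L lam n t
      ≤ ∫ t in Icc (0 : ℝ) 1, (1 / 2 ^ m + ∑ k ∈ Finset.range (m + 1),
          2 / 2 ^ k * (Bad lam n k).indicator (1 : ℝ → ℝ) t) :=
        setIntegral_mono_on (integrableOn_L hP n) (hc.add hs) measurableSet_Icc
          fun t ht => pointwise hP n m ht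
    _ = (∫ _ in Icc (0 : ℝ) 1, (1 / 2 ^ m : ℝ)) + ∑ k ∈ Finset.range (m + 1),
          2 / 2 ^ k * ∫ t in Icc (0 : ℝ) 1, (Bad lam n k).indicator (1 : ℝ → ℝ) t := by
        rw [integral_add hc hs, integral_finsetSum _ hi]
        congr 1
        exact Finset.sum_congr rfl fun k _ => integral_const_mul _ _
    _ ≤ _ := by
        apply add_le_add
        · rw [setIntegral_const]
          have h1 : volume.real (Icc (0 : ℝ) 1) = 1 := by
            rw [Measure.real, Real.volume_Icc, ENNReal.toReal_ofReal (by norm_num)]; norm_num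
          rw [h1, one_smul]
        · apply Finset.sum_le_sum
          intro k _
          apply mul_le_mul_of_nonneg_left _ (by positivity)
          rw [integral_indicator_one (measurableSet_Bad lam n k), Measure.real]
          apply ENNReal.toReal_mono
          · exact ne_top_of_le_ne_top (b := volume (Icc (0 : ℝ) 1))
              (by rw [Real.volume_Icc]; exact ENNReal.ofReal_ne_top)
              (measure_mono fun t ht => ht.1)
          · exact Measure.restrict_apply_le _ _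

end INTK

open INTK in
theorem INTK_thm (hM : Stmt_MKV) : Stmt_INTK := by
  intro δ hδ
  obtain ⟨C, hC, hCB⟩ := hM δ hδ
  set q : ℝ := 2 ^ (1 / 100 : ℝ) with hq
  have hq0 : 0 < q := by positivity
  have hq1 : 1 < q := Real.one_lt_rpow (by norm_num) (by norm_num)
  have hq2 : (4 : ℝ) ^ (101 / 200 : ℝ) = 2 * q := by
    rw [hq, show (4 : ℝ) = 2 ^ (2 : ℝ) by norm_num, ← Real.rpow_mul (by norm_num)]
    rw [show (2 : ℝ) * 2 ^ (1 / 100 : ℝ) = 2 ^ (1 : ℝ) * 2 ^ (1 / 100 : ℝ) by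
      rw [Real.rpow_one], ← Real.rpow_add (by norm_num)]
    norm_num
  have hq3 : 0 < q - 1 := by linarith
  refine ⟨2 + 2 * C * (q / (q - 1)), by positivity, fun lam n hA => ?_⟩
  have hP := hA.pos' hδ
  set X : ℝ := 1 + SD lam n with hX
  have hX1 : (1 : ℝ) ≤ X := by
    have := SD_nonneg lam n
    linarith
  have hX0 : (0 : ℝ) < X := by linarith
  have hfl : ⌊X⌋₊ ≠ 0 := by
    have := Nat.le_floor (show ((1 : ℕ) : ℝ) ≤ X by exact_mod_cast hX1)
    omega
  set m := Nat.log 4 ⌊X⌋₊ with hm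
  have hK1 : (4 : ℝ) ^ m ≤ X := by
    have h1 := Nat.pow_log_le_self 4 hfl
    have h2 : ((4 ^ m : ℕ) : ℝ) ≤ ⌊X⌋₊ := by exact_mod_cast h1
    have h3 := Nat.floor_le hX0.le
    push_cast at h2
    linarith
  have hK2 : X ≤ 4 ^ (m + 1) := by
    have h1 := Nat.lt_pow_succ_log_self (show 1 < 4 by norm_num) ⌊X⌋₊
    have h2 : ((⌊X⌋₊ + 1 : ℕ) : ℝ) ≤ ((4 ^ (m + 1) : ℕ) : ℝ) := by exact_mod_cast h1
    have h3 := (Nat.lt_floor_add_one X).le
    push_cast at h2
    linarith
  have hs0 : 0 < √X := Real.sqrt_pos.2 hX0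
  have hK3 : √X ≤ 2 ^ (m + 1) := by
    rw [Real.sqrt_le_left (by positivity), ← pow_mul, mul_comm, pow_mul]
    norm_num
    exact hK2
  have hK4 : (2 : ℝ) ^ m ≤ √X := by
    apply Real.le_sqrt_of_sq_le
    rw [← pow_mul, mul_comm, pow_mul]
    norm_num
    exact hK1
  refine (integral_le hP n m).trans ?_
  have h1 : (1 : ℝ) / 2 ^ m ≤ 2 / √X := by
    rw [div_le_div_iff₀ (by positivity) hs0]
    rw [pow_succ] at hK3
    linarith
  have h2 : ∀ k ∈ Finset.range (m + 1), 2 / 2 ^ k * (volume (Bad lam n k)).toReal ≤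
      2 * C * X ^ (-(101 / 200) : ℝ) * q ^ k := by
    intro k _
    have h3 : (volume (Bad lam n k)).toReal ≤ C * ((4 : ℝ) ^ k / X) ^ (101 / 200 : ℝ) := by
      have h := hCB lam n (2 ^ k) hA (one_le_pow₀ (by norm_num))
      have h4 : ((2 : ℝ) ^ k) ^ 2 = 4 ^ k := by
        rw [← pow_mul, mul_comm, pow_mul]; norm_num
      rw [h4] at h
      exact h
    have h4 : ((4 : ℝ) ^ k / X) ^ (101 / 200 : ℝ) =
        2 ^ k * q ^ k * X ^ (-(101 / 200) : ℝ) := by
      rw [Real.div_rpow (by positivity) hX0.le, Real.rpow_neg hX0.le, div_eq_mul_inv]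
      congr 1
      have h5 : ((4 : ℝ) ^ k) ^ (101 / 200 : ℝ) = (4 ^ (101 / 200 : ℝ)) ^ k := by
        rw [← Real.rpow_natCast, ← Real.rpow_natCast, ← Real.rpow_mul (by norm_num),
          ← Real.rpow_mul (by norm_num), mul_comm]
      rw [h5, hq2, mul_pow]
    rw [h4] at h3
    calc 2 / 2 ^ k * (volume (Bad lam n k)).toReal
        ≤ 2 / 2 ^ k * (C * (2 ^ k * q ^ k * X ^ (-(101 / 200) : ℝ))) :=
          mul_le_mul_of_nonneg_left h3 (by positivity)
      _ = 2 * C * X ^ (-(101 / 200) : ℝ) * q ^ k := by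
          have : (2 : ℝ) ^ k ≠ 0 := by positivity
          field_simp
  have h3 : ∑ k ∈ Finset.range (m + 1), 2 / 2 ^ k * (volume (Bad lam n k)).toReal ≤
      2 * C * (q / (q - 1)) / √X := by
    refine (Finset.sum_le_sum h2).trans ?_
    rw [← Finset.mul_sum, geom_sum_eq hq1.ne']
    have h4 : (q ^ (m + 1) - 1) / (q - 1) ≤ q / (q - 1) * q ^ m := by
      rw [pow_succ, div_mul_eq_mul_div]
      apply div_le_div_of_nonneg_right _ hq3.le
      linarith
    have h5 : q ^ m ≤ X ^ (1 / 200 : ℝ) := by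
      have h6 : q ^ m = (2 ^ m : ℝ) ^ (1 / 100 : ℝ) := by
        rw [hq, ← Real.rpow_natCast, ← Real.rpow_natCast, ← Real.rpow_mul (by norm_num),
          ← Real.rpow_mul (by norm_num), mul_comm]
      rw [h6]
      calc (2 ^ m : ℝ) ^ (1 / 100 : ℝ) ≤ (√X) ^ (1 / 100 : ℝ) :=
            Real.rpow_le_rpow (by positivity) hK4 (by norm_num)
        _ = X ^ (1 / 200 : ℝ) := by
            rw [Real.sqrt_eq_rpow, ← Real.rpow_mul hX0.le]
            norm_num
    have h7 : X ^ (-(101 / 200) : ℝ) * X ^ (1 / 200 : ℝ) = 1 / √X := by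
      have h8 : (1 : ℝ) / √X = X ^ (-(1 / 2) : ℝ) := by
        rw [Real.sqrt_eq_rpow, Real.rpow_neg hX0.le, inv_eq_one_div]
      rw [← Real.rpow_add hX0, h8]
      norm_num
    calc 2 * C * X ^ (-(101 / 200) : ℝ) * ((q ^ (m + 1) - 1) / (q - 1))
        ≤ 2 * C * X ^ (-(101 / 200) : ℝ) * (q / (q - 1) * X ^ (1 / 200 : ℝ)) := by
          apply mul_le_mul_of_nonneg_left _ (by positivity)
          exact h4.trans (mul_le_mul_of_nonneg_left h5 (by positivity))
      _ = 2 * C * (q / (q - 1)) * (X ^ (-(101 / 200) : ℝ) * X ^ (1 / 200 : ℝ)) := by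
          ring
      _ = 2 * C * (q / (q - 1)) / √X := by rw [h7]; ring
  calc 1 / 2 ^ m + ∑ k ∈ Finset.range (m + 1), 2 / 2 ^ k * (volume (Bad lam n k)).toReal
      ≤ 2 / √X + 2 * C * (q / (q - 1)) / √X := add_le_add h1 h3
    _ = (2 + 2 * C * (q / (q - 1))) / √X := by ring

end Pool.Agent.FCK
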