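import Pool.Agent.FCK.Stmts
import Pool.Agent.FCC.KER

/-!
# Corner Cantor sets: the kernel estimates
-/

set_option autoImplicit false

namespace Pool.Agent.FCK.KERK

open MeasureTheory Set Pool.Agent.FCK
open Pool.Agent.FCC (Wd agr av agr_mono agr_full agr_symm agr_trans card_first)
open Pool.Agent.FCC.KER (kd kb pow_id sqrt2_le)

variable {lam : ℕ → ℝ}

theorem sum_ker (lam : ℕ → ℝ) (n : ℕ) (g : Wd n → ℂ) (w : Wd n) : 
    T lam g w = ∑ j ∈ Finset.range n, Tj lam j g w := by
  classical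
  have key : ∀ m : ℕ, ∑ v ∈ Finset.univ.filter (fun v : Wd n => ¬ agr m w v),
      g v / (4 ^ n * (cc lam w - cc lam v)) = ∑ j ∈ Finset.range m, Tj lam j g w := by
    intro m
    induction m with
    | zero =>
      rw [Finset.range_zero, Finset.sum_empty]
      refine Finset.sum_eq_zero fun v hv => ?_
      rw [Finset.mem_filter] at hv
      exact absurd (fun i hi => absurd hi (Nat.not_lt_zero _)) hv.2
    | succ m ih =>
      rw [Finset.sum_range_succ, ← ih]
      unfold Tj
      rw [Finset.sum_filter, Finset.sum_filter, Finset.sum_filter, ← Finset.sum_add_distrib]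
      refine Finset.sum_congr rfl fun v _ => ?_
      by_cases h1 : agr m w v
      · by_cases h2 : agr (m + 1) w v
        · simp [h1, h2]
        · simp [h1, h2]
      · have h2 : ¬ agr (m + 1) w v := fun h => h1 (agr_mono (Nat.le_succ m) h)
        simp [h1, h2]
  rw [← key n]
  unfold T
  refine Finset.sum_congr ?_ fun v _ => rfl
  ext v
  simp only [Finset.mem_filter, Finset.mem_univ, true_and]
  rw [agr_full le_rfl]
  exact ne_comm

theorem av_self_zero (lam : ℕ → ℝ) {n j : ℕ} (w : Wd n) : av j (Tj lam j fun _ => 1) w = 0 := by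
  classical
  unfold av
  have key : ∑ u ∈ Finset.univ.filter (fun v : Wd n => agr j w v), Tj lam j (fun _ => 1) u = 0 := by
    set S := ∑ u ∈ Finset.univ.filter (fun v : Wd n => agr j w v), Tj lam j (fun _ => 1) u with hS
    have e1 : S = ∑ u : Wd n, ∑ v : Wd n,
        if agr j w u ∧ agr j u v ∧ ¬ agr (j + 1) u v then
          (1 : ℂ) / (4 ^ n * (cc lam u - cc lam v)) else 0 := by
      rw [hS, Finset.sum_filter]
      refine Finset.sum_congr rfl fun u _ => ?_
      by_cases h : agr j w u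
      · rw [if_pos h]
        unfold Tj
        rw [Finset.sum_filter]
        refine Finset.sum_congr rfl fun v _ => ?_
        simp [h]
      · rw [if_neg h]
        symm
        refine Finset.sum_eq_zero fun v _ => ?_
        rw [if_neg]
        exact fun h' => h h'.1
    have e2 : S = ∑ u : Wd n, ∑ v : Wd n,
        -(if agr j w u ∧ agr j u v ∧ ¬ agr (j + 1) u v then
          (1 : ℂ) / (4 ^ n * (cc lam u - cc lam v)) else 0) := by
      rw [e1, Finset.sum_comm]
      refine Finset.sum_congr rfl fun u _ => Finset.sum_congr rfl fun v _ => ?_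
      have hiff : (agr j w v ∧ agr j v u ∧ ¬ agr (j + 1) v u) ↔
          (agr j w u ∧ agr j u v ∧ ¬ agr (j + 1) u v) := by
        constructor
        · rintro ⟨h1, h2, h3⟩
          exact ⟨agr_trans h1 h2, agr_symm h2, fun h => h3 (agr_symm h)⟩
        · rintro ⟨h1, h2, h3⟩
          exact ⟨agr_trans h1 h2, agr_symm h2, fun h => h3 (agr_symm h)⟩
      by_cases h : agr j w u ∧ agr j u v ∧ ¬ agr (j + 1) u v
      · rw [if_pos h, if_pos (hiff.2 h)]
        rw [← neg_sub (cc lam u) (cc lam v), mul_neg, div_neg]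
      · rw [if_neg h, if_neg fun h' => h (hiff.1 h'), neg_zero]
    have e3 : S = -S := by
      conv_lhs => rw [e2]
      rw [e1]
      simp only [Finset.sum_neg_distrib]
    have e4 : S + S = 0 := by
      nth_rewrite 1 [e3]
      exact neg_add_cancel S
    have e5 : (2 : ℂ) * S = 0 := by rw [two_mul]; exact e4
    exact (mul_eq_zero.1 e5).resolve_left two_ne_zero
  rw [key, zero_div]

theorem trivial_bound (hD : Stmt_DISK) {δ : ℝ} (hδ : 0 < δ) (hL : Low δ lam) {n j : ℕ}
    (hj : j < n) (g : Wd n → ℂ) {ε : ℝ} (hg : ∀ v, ‖g v‖ ≤ ε) (w : Wd n) :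
    ‖Tj lam j g w‖ ≤ 3 / 8 / δ * ε * th lam j := by
  classical
  have hs : 0 < sg lam j := sg_pos (fun k => (hL.pos hδ.le k).1) j
  have hsn : 0 < sg lam n := sg_pos (fun k => (hL.pos hδ.le k).1) n
  unfold Tj
  refine (norm_sum_le_of_le _ (f := fun v => g v / (4 ^ n * (cc lam w - cc lam v)))
    (n := fun _ => ε / (4 ^ n * (2 * δ * sg lam j))) fun v hv => ?_).trans ?_
  · rw [Finset.mem_filter] at hv
    have h1 := (hD δ lam n j w v hδ hL).2 hj hv.2.2
    exact kb n (by positivity) (by linarith) _ (hg v)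
  · rw [Finset.sum_const, card_first hj w, nsmul_eq_mul, pow_id hj]
    apply le_of_eq
    unfold th
    field_simp
    ring

theorem ker_diff (hD : Stmt_DISK) {δ : ℝ} (hδ : 0 < δ) (hL : Low δ lam) {n j k : ℕ} (hj : j < n)
    (hjk : j + 1 ≤ k) {u w v : Wd n} (huw : agr k u w) (hv : ¬ agr (j + 1) w v) :
    ‖(1 : ℂ) / (4 ^ n * (cc lam u - cc lam v)) - 1 / (4 ^ n * (cc lam w - cc lam v))‖ ≤
      (√2 * sg lam k) / (4 ^ n * (2 * δ * sg lam j) ^ 2) := by
  have hs : 0 < sg lam j := sg_pos (fun k => (hL.pos hδ.le k).1) j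
  have hsn : 0 < sg lam n := sg_pos (fun k => (hL.pos hδ.le k).1) n
  have hv' : ¬ agr (j + 1) u v := fun h =>
    hv (agr_trans (agr_symm (agr_mono hjk huw)) h)
  have h1 := (hD δ lam n j u v hδ hL).2 hj hv'
  have h2 := (hD δ lam n j w v hδ hL).2 hj hv
  refine kd n (by positivity) (by linarith) (by linarith) ?_
  rw [sub_sub_sub_cancel_right]
  exact (hD δ lam n k u w hδ hL).1 huw

theorem kap {δ : ℝ} (hδ : 0 < δ) (hL : Low δ lam) {n j k : ℕ} (hj : j < n) (hjk : j ≤ k) :
    ((3 * 4 ^ (n - (j + 1)) : ℕ) : ℝ) *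
      ((√2 * sg lam k) / (4 ^ n * (2 * δ * sg lam j) ^ 2)) ≤
      3 / 16 * √2 * (1 / δ ^ 2 * (th lam j / 2 ^ (k - j))) := by
  have hs : 0 < sg lam j := sg_pos (fun k => (hL.pos hδ.le k).1) j
  have hle := sg_le (hL.pos hδ.le) hjk
  have e1 : ((3 * 4 ^ (n - (j + 1)) : ℕ) : ℝ) *
      ((√2 * sg lam k) / (4 ^ n * (2 * δ * sg lam j) ^ 2)) =
      3 / 16 * √2 / (δ ^ 2 * 4 ^ j * sg lam j ^ 2) * sg lam k := by
    rw [pow_id hj]
    field_simp
    ring
  have e2 : 3 / 16 * √2 * (1 / δ ^ 2 * (th lam j / 2 ^ (k - j))) =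
      3 / 16 * √2 / (δ ^ 2 * 4 ^ j * sg lam j ^ 2) * (sg lam j / 2 ^ (k - j)) := by
    unfold th
    field_simp
  rw [e1, e2]
  exact mul_le_mul_of_nonneg_left hle (by positivity)

theorem Tj_diff (hD : Stmt_DISK) {δ : ℝ} (hδ : 0 < δ) (hL : Low δ lam) {n j k : ℕ} (hj : j < n)
    (hjk : j + 1 ≤ k) {u w : Wd n} (huw : agr k u w) :
    ‖Tj lam j (fun _ => 1) u - Tj lam j (fun _ => 1) w‖ ≤
      3 / 16 * √2 * (1 / δ ^ 2 * (th lam j / 2 ^ (k - j))) := by
  classical
  have hF : Finset.univ.filter (fun v : Wd n => agr j u v ∧ ¬ agr (j + 1) u v) =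
      Finset.univ.filter (fun v : Wd n => agr j w v ∧ ¬ agr (j + 1) w v) := by
    ext v
    simp only [Finset.mem_filter, Finset.mem_univ, true_and]
    have h1 : agr (j + 1) u w := agr_mono hjk huw
    have h0 : agr j u w := agr_mono (Nat.le_succ j) h1
    constructor
    · rintro ⟨h2, h3⟩
      exact ⟨agr_trans (agr_symm h0) h2, fun h => h3 (agr_trans h1 h)⟩
    · rintro ⟨h2, h3⟩
      exact ⟨agr_trans h0 h2, fun h => h3 (agr_trans (agr_symm h1) h)⟩
  unfold Tj
  rw [hF, ← Finset.sum_sub_distrib]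
  refine (norm_sum_le_of_le _
    (f := fun v => (1 : ℂ) / (4 ^ n * (cc lam u - cc lam v)) - 1 / (4 ^ n * (cc lam w - cc lam v)))
    (n := fun _ => (√2 * sg lam k) / (4 ^ n * (2 * δ * sg lam j) ^ 2)) fun v hv => ?_).trans ?_
  · rw [Finset.mem_filter] at hv
    exact ker_diff hD hδ hL hj hjk huw hv.2.2
  · rw [Finset.sum_const, card_first hj w, nsmul_eq_mul]
    exact kap hδ hL hj (by omega)

theorem part3 (hD : Stmt_DISK) (hA : FCC.Stmt_AVP) {δ : ℝ} (hδ : 0 < δ) (hδ' : δ ≤ 1 / 4)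
    (hL : Low δ lam) {n k j : ℕ} (hjk : j ≤ k) (hk : k < n) (w : Wd n) :
    ‖av (k + 1) (Tj lam j fun _ => 1) w - av k (Tj lam j fun _ => 1) w‖ ≤
      1 / δ ^ 2 * (th lam j / 2 ^ (k - j)) := by
  have hth : 0 < th lam j := th_pos (fun k => (hL.pos hδ.le k).1) j
  rcases Nat.eq_or_lt_of_le hjk with h | h
  · subst h
    rw [av_self_zero lam w, sub_zero, Nat.sub_self, pow_zero, div_one]
    have h1 := (hA n (j + 1) hk).2.2.2.2.2.1 (Tj lam j fun _ => 1) w 0 (3 / 8 / δ * 1 * th lam j)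
      (fun v _ => by
        rw [sub_zero]
        exact trivial_bound hD hδ hL hk _ (fun _ => by simp) v)
    rw [sub_zero] at h1
    refine h1.trans (mul_le_mul_of_nonneg_right ?_ hth.le)
    rw [mul_one, div_le_div_iff₀ hδ (by positivity)]
    nlinarith
  · have hj : j < n := lt_of_le_of_lt hjk hk
    have h1 := (hA n (k + 1) hk).2.2.2.2.2.1 (Tj lam j fun _ => 1) w (Tj lam j (fun _ => 1) w)
      (3 / 16 * √2 * (1 / δ ^ 2 * (th lam j / 2 ^ (k + 1 - j))))
      (fun v hv => Tj_diff hD hδ hL hj (by omega) (agr_symm hv))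
    have h2 := (hA n k hk.le).2.2.2.2.2.1 (Tj lam j fun _ => 1) w (Tj lam j (fun _ => 1) w)
      (3 / 16 * √2 * (1 / δ ^ 2 * (th lam j / 2 ^ (k - j))))
      (fun v hv => Tj_diff hD hδ hL hj (by omega) (agr_symm hv))
    have h3 : ‖av (k + 1) (Tj lam j fun _ => 1) w - av k (Tj lam j fun _ => 1) w‖ ≤
        3 / 16 * √2 * (1 / δ ^ 2 * (th lam j / 2 ^ (k + 1 - j))) +
          3 / 16 * √2 * (1 / δ ^ 2 * (th lam j / 2 ^ (k - j))) := by
      have e : av (k + 1) (Tj lam j fun _ => 1) w - av k (Tj lam j fun _ => 1) w =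
          (av (k + 1) (Tj lam j fun _ => 1) w - Tj lam j (fun _ => 1) w) -
          (av k (Tj lam j fun _ => 1) w - Tj lam j (fun _ => 1) w) := by ring
      rw [e]
      exact (norm_sub_le _ _).trans (add_le_add h1 h2)
    refine h3.trans ?_
    have e1 : k + 1 - j = (k - j) + 1 := by omega
    have h5 : 0 < 1 / δ ^ 2 * (th lam j / 2 ^ (k - j)) := by positivity
    have e2 : 1 / δ ^ 2 * (th lam j / 2 ^ (k + 1 - j)) =
        1 / 2 * (1 / δ ^ 2 * (th lam j / 2 ^ (k - j))) := by
      rw [e1, pow_succ (2 : ℝ) (k - j)]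
      field_simp
    rw [e2]
    have h6 := mul_le_mul_of_nonneg_right sqrt2_le h5.le
    nlinarith

theorem part4 (hD : Stmt_DISK) (hA : FCC.Stmt_AVP) {δ : ℝ} (hδ : 0 < δ) (hδ' : δ ≤ 1 / 4)
    (hL : Low δ lam) {n k j : ℕ} (hjk : j ≤ k) (hk : k < n)
    (d : Wd n → ℂ) (ε : ℝ) (hd : ∀ v, ‖d v‖ ≤ ε) (h0 : ∀ v, av k d v = 0) (w : Wd n) :
    ‖Tj lam j d w‖ ≤ 1 / δ ^ 2 * ε * (th lam j / 2 ^ (k - j)) := by
  classical
  have hε : 0 ≤ ε := (norm_nonneg _).trans (hd w)
  have hj : j < n := lt_of_le_of_lt hjk hk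
  have hth : 0 < th lam j := th_pos (fun k => (hL.pos hδ.le k).1) j
  have hs : 0 < sg lam j := sg_pos (fun k => (hL.pos hδ.le k).1) j
  have hsk : 0 < sg lam k := sg_pos (fun k => (hL.pos hδ.le k).1) k
  have hsn : 0 < sg lam n := sg_pos (fun k => (hL.pos hδ.le k).1) n
  rcases Nat.eq_or_lt_of_le hjk with h | h
  · subst h
    rw [Nat.sub_self, pow_zero, div_one]
    refine (trivial_bound hD hδ hL hk d hd w).trans (mul_le_mul_of_nonneg_right ?_ hth.le)
    refine mul_le_mul_of_nonneg_right ?_ hε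
    rw [div_le_div_iff₀ hδ (by positivity)]
    nlinarith
  · set F : Wd n → Prop := fun v => agr j w v ∧ ¬ agr (j + 1) w v with hF
    set κ : ℝ := (√2 * sg lam k) / (4 ^ n * (2 * δ * sg lam j) ^ 2) with hκ
    have hκ0 : 0 ≤ κ := by positivity
    let hh : Wd n → ℂ := fun v => if F v then (1 : ℂ) / (4 ^ n * (cc lam w - cc lam v)) else 0
    have e1 : Tj lam j d w = ∑ v : Wd n, d v * hh v := by
      unfold Tj
      rw [Finset.sum_filter]
      refine Finset.sum_congr rfl fun v _ => ?_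
      by_cases hv : F v
      · have hv' : agr j w v ∧ ¬ agr (j + 1) w v := hv
        simp only [hh]
        rw [if_pos hv', if_pos hv, mul_one_div]
      · have hv' : ¬ (agr j w v ∧ ¬ agr (j + 1) w v) := hv
        simp only [hh]
        rw [if_neg hv', if_neg hv, mul_zero]
    have e2 : ∑ v : Wd n, d v * av k hh v = 0 := by
      have e3 : ∑ v : Wd n, d v * av k hh v = ∑ u : Wd n, hh u * av k d u := by
        unfold av
        have l1 : ∀ v : Wd n, d v * ((∑ u ∈ Finset.univ.filter (fun u : Wd n => agr k v u), hh u) /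
            4 ^ (n - k)) = ∑ u : Wd n, (if agr k v u then d v * hh u / 4 ^ (n - k) else 0) := by
          intro v
          rw [← mul_div_assoc, Finset.mul_sum, Finset.sum_div, Finset.sum_filter]
        have l2 : ∀ u : Wd n, hh u * ((∑ v ∈ Finset.univ.filter (fun v : Wd n => agr k u v), d v) /
            4 ^ (n - k)) = ∑ v : Wd n, (if agr k u v then hh u * d v / 4 ^ (n - k) else 0) := by
          intro u
          rw [← mul_div_assoc, Finset.mul_sum, Finset.sum_div, Finset.sum_filter]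
        rw [Finset.sum_congr rfl fun v _ => l1 v, Finset.sum_congr rfl fun v _ => l2 v,
          Finset.sum_comm]
        refine Finset.sum_congr rfl fun u _ => Finset.sum_congr rfl fun v _ => ?_
        by_cases hv : agr k v u
        · rw [if_pos hv, if_pos (agr_symm hv), mul_comm]
        · rw [if_neg hv, if_neg fun h' => hv (agr_symm h')]
      rw [e3]
      exact Finset.sum_eq_zero fun u _ => by rw [h0 u, mul_zero]
    have e4 : Tj lam j d w = -∑ v : Wd n, d v * (av k hh v - hh v) := by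
      rw [e1, ← Finset.sum_neg_distrib]
      have : ∑ v : Wd n, -(d v * (av k hh v - hh v)) =
          ∑ v : Wd n, d v * hh v - ∑ v : Wd n, d v * av k hh v := by
        rw [← Finset.sum_sub_distrib]
        refine Finset.sum_congr rfl fun v _ => ?_
        ring
      rw [this, e2, sub_zero]
    have hcls : ∀ v v' : Wd n, agr k v v' → F v → F v' := by
      intro v v' hv hF'
      exact ⟨agr_trans hF'.1 (agr_mono hjk hv), fun h' => hF'.2
        (agr_trans h' (agr_symm (agr_mono (show j + 1 ≤ k from h) hv)))⟩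
    have h5 : ∀ v : Wd n, ‖av k hh v - hh v‖ ≤ if F v then κ else 0 := by
      intro v
      refine (hA n k hk.le).2.2.2.2.2.1 hh v (hh v) _ fun v' hv' => ?_
      by_cases hv : F v
      · have hFv' : F v' := hcls v v' hv' hv
        simp only [hh]
        rw [if_pos hv, if_pos hv, if_pos hFv', hκ]
        have g1 := (hD δ lam n j w v' hδ hL).2 hj hFv'.2
        have g2 := (hD δ lam n j w v hδ hL).2 hj hv.2
        refine kd n (by positivity) (by linarith) (by linarith) ?_
        rw [sub_sub_sub_cancel_left]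
        exact (hD δ lam n k v v' hδ hL).1 hv'
      · have hFv' : ¬ F v' := fun h' => hv (hcls v' v (agr_symm hv') h')
        simp only [hh]
        rw [if_neg hv, if_neg hv, if_neg hFv', sub_zero, norm_zero]
    have h6 : ‖Tj lam j d w‖ ≤ ∑ v : Wd n, (if F v then ε * κ else 0) := by
      rw [e4, norm_neg]
      refine norm_sum_le_of_le _ fun v _ => ?_
      rw [norm_mul]
      have h7 := mul_le_mul (hd v) (h5 v) (norm_nonneg _) hε
      by_cases hv : F v
      · rw [if_pos hv] at h7 ⊢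
        exact h7
      · rw [if_neg hv, mul_zero] at h7
        rw [if_neg hv]
        exact h7
    have h8 : ∑ v : Wd n, (if F v then ε * κ else 0) =
        ε * (((3 * 4 ^ (n - (j + 1)) : ℕ) : ℝ) * κ) := by
      rw [← Finset.sum_filter, Finset.sum_const, nsmul_eq_mul]
      have h9 : (Finset.univ.filter F).card = 3 * 4 ^ (n - (j + 1)) := card_first hj w
      rw [h9]
      ring
    have h11 : ((3 * 4 ^ (n - (j + 1)) : ℕ) : ℝ) * κ ≤
        3 / 16 * √2 * (1 / δ ^ 2 * (th lam j / 2 ^ (k - j))) := kap hδ hL hj hjk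
    rw [h8] at h6
    refine h6.trans ?_
    have h10 : 0 < 1 / δ ^ 2 * (th lam j / 2 ^ (k - j)) := by positivity
    have e5 : 1 / δ ^ 2 * ε * (th lam j / 2 ^ (k - j)) =
        ε * (1 / δ ^ 2 * (th lam j / 2 ^ (k - j))) := by ring
    rw [e5]
    refine mul_le_mul_of_nonneg_left (h11.trans ?_) hε
    have := mul_le_mul_of_nonneg_right sqrt2_le h10.le
    nlinarith

end Pool.Agent.FCK.KERK

namespace Pool.Agent.FCK

open Pool.Agent.FCC (Wd agr av)

theorem KERK_thm : Stmt_DISK → FCC.Stmt_AVP → Stmt_KERK := by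
  intro hD hA δ lam n hδ hδ' hL
  refine ⟨fun g w => KERK.sum_ker lam n g w, fun k j hkj hj w => ?_,
    fun k j hjk hk w => KERK.part3 hD hA hδ hδ' hL hjk hk w,
    fun k j hjk hk d ε hd h0 w => KERK.part4 hD hA hδ hδ' hL hjk hk d ε hd h0 w⟩
  have h1 := (hA n k (hkj.trans hj.le)).2.2.1 (Tj lam j fun _ => 1) j w hkj hj.le
  rw [← h1]
  have h2 : av j (Tj lam j fun _ => 1) = fun _ : Wd n => (0 : ℂ) :=
    funext fun v => KERK.av_self_zero lam v
  rw [h2]
  unfold av
  rw [Finset.sum_const_zero, zero_div]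

end Pool.Agent.FCK
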