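import Pool.Agent.FCK.Stmts

/-!
# MAINK: the theorem
-/

set_option autoImplicit false

namespace Pool.Agent.FCK

open MeasureTheory Set

namespace MAINK

theorem E_anti (lam : ℕ → ℝ) (h : ∀ n, cset lam (n + 1) ⊆ cset lam n) : Antitone (E lam) :=
  antitone_nat_of_succ_le fun n _ hz => ⟨h n hz.1, h n hz.2⟩

theorem Ei_subset (lam : ℕ → ℝ) (n : ℕ) : Ei lam ⊆ E lam n := iInter_subset _ n

theorem isCompact_Ei (lam : ℕ → ℝ) (h : ∀ n, IsCompact (E lam n)) : IsCompact (Ei lam) :=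
  (h 0).of_isClosed_subset (isClosed_iInter fun n => (h n).isClosed) (Ei_subset lam 0)

end MAINK

theorem MAINK_thm (hUPP : Stmt_UPPK) (hCAP : Stmt_CAPK) (hGEO : Stmt_GEOK) (hGLIM : Stmt_GLIM)
    (hFMON : Stmt_FMON) : Stmt_MAINK := by
  intro δ hδ
  obtain ⟨C, hC, hU⟩ := hUPP δ hδ
  have hδ' : 0 < min δ (1 / 4) := lt_min hδ (by norm_num)
  set d : ℝ := min δ (1 / 4) with hd
  have hd4 : d ≤ 1 / 4 := min_le_right _ _
  have ha : 0 < d ^ 2 / 18 := by positivity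
  have hc1 : min (min (1 / C) (d ^ 2 / 18)) (d ^ 2 / 18 / C) ≤ 1 / C :=
    (min_le_left _ _).trans (min_le_left _ _)
  have hc2 : min (min (1 / C) (d ^ 2 / 18)) (d ^ 2 / 18 / C) ≤ d ^ 2 / 18 :=
    (min_le_left _ _).trans (min_le_right _ _)
  have hc3 : min (min (1 / C) (d ^ 2 / 18)) (d ^ 2 / 18 / C) ≤ d ^ 2 / 18 / C := min_le_right _ _
  have hc0 : 0 < min (min (1 / C) (d ^ 2 / 18)) (d ^ 2 / 18 / C) := by positivity
  set c : ℝ := min (min (1 / C) (d ^ 2 / 18)) (d ^ 2 / 18 / C) with hc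
  refine ⟨c, hc0, fun lam h => ?_⟩
  have hpos : Pos lam := h.pos' hδ
  have hlow : Low d lam := h.low hδ
  have hcomp : ∀ n, IsCompact (E lam n) := fun n => (hGEO lam n hpos).2.2.2.1
  have hanti : Antitone (E lam) := MAINK.E_anti lam fun n => (hGEO lam n hpos).2.2.2.2.2
  have hcompi : IsCompact (Ei lam) := MAINK.isCompact_Ei lam hcomp
  have hTh : ∀ n, 0 < √(Th lam n) := fun n =>
    Real.sqrt_pos.2 (lt_of_lt_of_le one_pos (Th_ge_one lam n))
  have hF : ∀ n, FCC.Fav (E lam n) ≤ C / √(Th lam n) := fun n => hU lam n h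
  have hG : ∀ n, d ^ 2 / 18 / √(Th lam n) ≤ FCC.gam (E lam n) := fun n =>
    hCAP d lam n hδ' hd4 hlow
  have hmon : ∀ n, FCC.Fav (Ei lam) ≤ FCC.Fav (E lam n) := fun n =>
    hFMON _ _ hcompi (hcomp n) (MAINK.Ei_subset lam n)
  refine ⟨fun n => ⟨?_, ?_⟩, hmon, ?_⟩
  · calc c * FCC.Fav (E lam n) ≤ c * (C / √(Th lam n)) := mul_le_mul_of_nonneg_left (hF n) hc0.le
      _ = c * C / √(Th lam n) := by ring
      _ ≤ 1 / √(Th lam n) := by
        refine div_le_div_of_nonneg_right ?_ (hTh n).le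
        rwa [le_div_iff₀ hC] at hc1
  · calc c * (1 / √(Th lam n)) = c / √(Th lam n) := by ring
      _ ≤ d ^ 2 / 18 / √(Th lam n) := div_le_div_of_nonneg_right hc2 (hTh n).le
      _ ≤ FCC.gam (E lam n) := hG n
  · refine hGLIM (E lam) _ hcomp hanti fun n => ?_
    calc c * FCC.Fav (Ei lam) ≤ c * FCC.Fav (E lam n) := mul_le_mul_of_nonneg_left (hmon n) hc0.le
      _ ≤ c * (C / √(Th lam n)) := mul_le_mul_of_nonneg_left (hF n) hc0.le
      _ = c * C / √(Th lam n) := by ring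
      _ ≤ d ^ 2 / 18 / √(Th lam n) := by
        refine div_le_div_of_nonneg_right ?_ (hTh n).le
        rwa [le_div_iff₀ hC] at hc3
      _ ≤ FCC.gam (E lam n) := hG n

end Pool.Agent.FCK
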