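import Pool.Agent.FCK.Stmts
import Pool.Agent.FCC.MAR

/-!
# Corner Cantor sets: the change of measure with weights (MARK)
-/

set_option autoImplicit false

namespace Pool.Agent.FCK

open MeasureTheory Set
open Pool.Agent.FCC (Wd bv agr av)

namespace MARK

/-- The recursion: the density and the sum. -/
noncomputable def st {n : ℕ} (Q : ℝ) (m : ℕ → Wd n → ℂ) : ℕ → Wd n → ℝ × ℂ
  | 0, _ => (1 / 2, 0)
  | k + 1, w =>
    ((st Q m k w).1 * (1 - 1 / (2 * Q) * ((starRingEnd ℂ) (st Q m k w).2 * m k w).re),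
      (st Q m k w).2 + ((st Q m k w).1 : ℂ) * m k w)

theorem st_zero {n : ℕ} (Q : ℝ) (m : ℕ → Wd n → ℂ) (w : Wd n) : st Q m 0 w = (1 / 2, 0) := rfl

theorem st_succ_fst {n : ℕ} (Q : ℝ) (m : ℕ → Wd n → ℂ) (k : ℕ) (w : Wd n) :
    (st Q m (k + 1) w).1 =
      (st Q m k w).1 * (1 - 1 / (2 * Q) * ((starRingEnd ℂ) (st Q m k w).2 * m k w).re) :=
  rfl

theorem st_succ_snd {n : ℕ} (Q : ℝ) (m : ℕ → Wd n → ℂ) (k : ℕ) (w : Wd n) :
    (st Q m (k + 1) w).2 = (st Q m k w).2 + ((st Q m k w).1 : ℂ) * m k w := rfl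

theorem st_snd {n : ℕ} (Q : ℝ) (m : ℕ → Wd n → ℂ) (k : ℕ) (w : Wd n) :
    (st Q m k w).2 = ∑ i ∈ Finset.range k, ((st Q m i w).1 : ℂ) * m i w := by
  induction k with
  | zero => simp [st_zero]
  | succ k ih => rw [Finset.sum_range_succ, st_succ_snd, ih]

/-- One step of the recursion. -/
theorem step {Q : ℝ} (hQ : 0 < Q) (Y z : ℂ) (b s μ : ℝ) (hb0 : 0 ≤ b) (_hμ : 0 ≤ μ)
    (hs0 : 0 ≤ s) (hs : s + μ ^ 2 ≤ Q)
    (hI : b + 1 / (4 * Q) * ‖Y‖ ^ 2 ≤ 1 / 2 + s / (4 * Q)) (hz : ‖z‖ ≤ μ) :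
    |1 / (2 * Q) * ((starRingEnd ℂ) Y * z).re| ≤ μ / √Q ∧
    0 ≤ b * (1 - 1 / (2 * Q) * ((starRingEnd ℂ) Y * z).re) ∧
    b * (1 - 1 / (2 * Q) * ((starRingEnd ℂ) Y * z).re) +
      1 / (4 * Q) * ‖Y + (b : ℂ) * z‖ ^ 2 ≤ 1 / 2 + (s + μ ^ 2) / (4 * Q) ∧
    b ≤ 3 / 4 ∧ ‖Y‖ ≤ 2 * √Q := by
  have hsQ : s ≤ Q := by nlinarith [sq_nonneg μ]
  have hμQ : μ ^ 2 ≤ Q := by linarith
  have hr0 : 0 < √Q := Real.sqrt_pos.mpr hQ
  have hr2 : √Q ^ 2 = Q := Real.sq_sqrt hQ.le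
  have hs4 : s / (4 * Q) ≤ 1 / 4 := by
    rw [div_le_div_iff₀ (by positivity) (by norm_num)]
    linarith
  have hA : 0 < 4 * Q := by positivity
  have hY0 : 0 ≤ 1 / (4 * Q) * ‖Y‖ ^ 2 := by positivity
  have hb1 : b ≤ 3 / 4 := by linarith
  have hYsq : ‖Y‖ ^ 2 ≤ 3 * Q := by
    have h1 : 1 / (4 * Q) * ‖Y‖ ^ 2 ≤ 3 / 4 := by linarith
    have h2 : ‖Y‖ ^ 2 / (4 * Q) ≤ 3 / 4 := by
      rw [div_eq_mul_one_div, mul_comm]; exact h1
    rw [div_le_iff₀ hA] at h2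
    linarith
  have hY : ‖Y‖ ≤ 2 * √Q := by
    refine abs_le_of_sq_le_sq' ?_ (by positivity) |>.2
    have : (2 * √Q) ^ 2 = 4 * Q := by
      rw [mul_pow, hr2]; norm_num
    rw [this]
    linarith
  have habs : |1 / (2 * Q) * ((starRingEnd ℂ) Y * z).re| ≤ μ / √Q := by
    rw [abs_mul, abs_of_pos (by positivity : (0 : ℝ) < 1 / (2 * Q))]
    have h1 : |((starRingEnd ℂ) Y * z).re| ≤ 2 * √Q * μ :=
      (FCC.MAR.abs_re_le Y z).trans (mul_le_mul hY hz (norm_nonneg _) (by positivity))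
    calc 1 / (2 * Q) * |((starRingEnd ℂ) Y * z).re|
        ≤ 1 / (2 * Q) * (2 * √Q * μ) :=
          mul_le_mul_of_nonneg_left h1 (by positivity)
      _ = √Q * μ / Q := by field_simp
      _ = μ / √Q := by
          rw [div_eq_div_iff hQ.ne' hr0.ne']
          calc √Q * μ * √Q = μ * √Q ^ 2 := by ring
            _ = μ * Q := by rw [hr2]
  have hle1 : μ / √Q ≤ 1 := by
    rw [div_le_one hr0]
    exact Real.le_sqrt_of_sq_le hμQ
  refine ⟨habs, mul_nonneg hb0 ?_, ?_, hb1, hY⟩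
  · have := (abs_le.mp habs).2
    linarith
  · have hz2 : ‖z‖ ^ 2 ≤ μ ^ 2 := pow_le_pow_left₀ (norm_nonneg _) hz 2
    have hb2 : b ^ 2 ≤ 1 := by nlinarith
    have hbz : b ^ 2 * ‖z‖ ^ 2 ≤ μ ^ 2 := by
      calc b ^ 2 * ‖z‖ ^ 2 ≤ 1 * μ ^ 2 :=
            mul_le_mul hb2 hz2 (by positivity) (by norm_num)
        _ = μ ^ 2 := one_mul _
    rw [FCC.MAR.normSq_add]
    have e1 : b * (1 - 1 / (2 * Q) * ((starRingEnd ℂ) Y * z).re) +
        1 / (4 * Q) * (‖Y‖ ^ 2 + 2 * b * ((starRingEnd ℂ) Y * z).re + b ^ 2 * ‖z‖ ^ 2) =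
        b + 1 / (4 * Q) * ‖Y‖ ^ 2 + 1 / (4 * Q) * (b ^ 2 * ‖z‖ ^ 2) := by
      field_simp
      ring
    rw [e1]
    have e2 : 1 / (4 * Q) * (b ^ 2 * ‖z‖ ^ 2) ≤ 1 / (4 * Q) * μ ^ 2 :=
      mul_le_mul_of_nonneg_left hbz (by positivity)
    have e3 : (1 : ℝ) / 2 + (s + μ ^ 2) / (4 * Q) =
        1 / 2 + s / (4 * Q) + 1 / (4 * Q) * μ ^ 2 := by ring
    rw [e3]
    linarith

theorem part {μ : ℕ → ℝ} {n : ℕ} {Q : ℝ} (h : ∑ k ∈ Finset.range n, μ k ^ 2 ≤ Q) {k : ℕ}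
    (hk : k ≤ n) : ∑ i ∈ Finset.range k, μ i ^ 2 ≤ Q := by
  refine le_trans (Finset.sum_le_sum_of_subset_of_nonneg ?_ fun i _ _ => sq_nonneg _) h
  intro i hi
  rw [Finset.mem_range] at *
  omega

theorem inv {n : ℕ} {Q : ℝ} (hQ : 0 < Q) {μ : ℕ → ℝ} (hμ : ∀ k, 0 ≤ μ k)
    (hsum : ∑ k ∈ Finset.range n, μ k ^ 2 ≤ Q) (m : ℕ → Wd n → ℂ)
    (hm : ∀ k < n, ∀ w : Wd n, ‖m k w‖ ≤ μ k) (w : Wd n) : ∀ k ≤ n,
    0 ≤ (st Q m k w).1 ∧
    (st Q m k w).1 + 1 / (4 * Q) * ‖(st Q m k w).2‖ ^ 2 ≤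
      1 / 2 + (∑ i ∈ Finset.range k, μ i ^ 2) / (4 * Q) := by
  intro k
  induction k with
  | zero => intro _; simp [st_zero]
  | succ k ih =>
    intro hk
    obtain ⟨h0, h1⟩ := ih (by omega)
    have hp := part hsum hk
    rw [Finset.sum_range_succ] at hp
    obtain ⟨_, a2, a3, _, _⟩ := step hQ (st Q m k w).2 (m k w) (st Q m k w).1
      (∑ i ∈ Finset.range k, μ i ^ 2) (μ k) h0 (hμ k) (Finset.sum_nonneg fun i _ => sq_nonneg _)
      hp h1 (hm k (by omega) w)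
    refine ⟨a2, ?_⟩
    rw [Finset.sum_range_succ]
    exact a3

theorem meas {n : ℕ} (Q : ℝ) (m : ℕ → Wd n → ℂ)
    (hm : ∀ k < n, ∀ u v : Wd n, agr (k + 1) u v → m k u = m k v) : ∀ k ≤ n,
    ∀ u v : Wd n, agr k u v → st Q m k u = st Q m k v := by
  intro k
  induction k with
  | zero => intro _ u v _; rfl
  | succ k ih =>
    intro hk u v huv
    have h1 := ih (by omega) u v (FCC.agr_mono (Nat.le_succ k) huv)
    have h2 := hm k (by omega) u v huv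
    refine Prod.ext ?_ ?_
    · rw [st_succ_fst, st_succ_fst, h1, h2]
    · rw [st_succ_snd, st_succ_snd, h1, h2]

end MARK

theorem MARK_thm : FCC.Stmt_AVP → Stmt_MARK := by
  intro hAVP n Q μ m hQ hμ hsum h1 h2 h3
  have hinv := MARK.inv hQ hμ hsum m h3
  have hmeas := MARK.meas Q m h1
  have hb1 : ∀ k ≤ n, ∀ w, (MARK.st Q m k w).1 ≤ 3 / 4 := by
    intro k hk w
    obtain ⟨_, a⟩ := hinv w k hk
    have hk4 : (∑ i ∈ Finset.range k, μ i ^ 2) / (4 * Q) ≤ 1 / 4 := by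
      rw [div_le_div_iff₀ (by positivity) (by norm_num)]
      linarith [MARK.part hsum hk]
    have : 0 ≤ 1 / (4 * Q) * ‖(MARK.st Q m k w).2‖ ^ 2 := by positivity
    linarith
  refine ⟨fun k w => (MARK.st Q m k w).1, fun w => rfl, ?_, ?_, ?_, ?_, ?_⟩
  · intro k hk u v huv
    exact congrArg Prod.fst (hmeas k hk u v huv)
  · intro k hk w
    exact ⟨(hinv w k hk).1, by linarith [hb1 k hk w]⟩
  · intro k hk w
    obtain ⟨h0, hI⟩ := hinv w k hk.le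
    have hp := MARK.part hsum (show k + 1 ≤ n from hk)
    rw [Finset.sum_range_succ] at hp
    obtain ⟨a1, _, _, a4, _⟩ := MARK.step hQ (MARK.st Q m k w).2 (m k w) (MARK.st Q m k w).1
      (∑ i ∈ Finset.range k, μ i ^ 2) (μ k) h0 (hμ k) (Finset.sum_nonneg fun i _ => sq_nonneg _)
      hp hI (h3 k hk w)
    show |(MARK.st Q m (k + 1) w).1 - (MARK.st Q m k w).1| ≤ μ k / √Q
    rw [MARK.st_succ_fst]
    have e : (MARK.st Q m k w).1 *
        (1 - 1 / (2 * Q) * ((starRingEnd ℂ) (MARK.st Q m k w).2 * m k w).re) -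
        (MARK.st Q m k w).1 = -((MARK.st Q m k w).1 *
          (1 / (2 * Q) * ((starRingEnd ℂ) (MARK.st Q m k w).2 * m k w).re)) := by ring
    rw [e, abs_neg, abs_mul, abs_of_nonneg h0]
    calc (MARK.st Q m k w).1 *
          |1 / (2 * Q) * ((starRingEnd ℂ) (MARK.st Q m k w).2 * m k w).re|
        ≤ 1 * (μ k / √Q) := mul_le_mul (by linarith) a1 (abs_nonneg _) (by norm_num)
      _ = μ k / √Q := one_mul _
  · intro k hk w
    obtain ⟨_, _, _, _, c5, _, _, c8⟩ := hAVP n k hk.le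
    set h : Wd n → ℂ := fun v =>
      -((1 / (2 * Q) * (MARK.st Q m k v).1 : ℝ) : ℂ) * (starRingEnd ℂ) (MARK.st Q m k v).2
      with hh
    have hhm : ∀ u v, agr k u v → h u = h v := by
      intro u v huv
      simp only [hh]
      rw [hmeas k hk.le u v huv]
    have e : (fun v => (((MARK.st Q m (k + 1) v).1 - (MARK.st Q m k v).1 : ℝ) : ℂ)) =
        fun v => (((h v * m k v).re : ℝ) : ℂ) := by
      funext v
      refine congrArg _ ?_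
      rw [MARK.st_succ_fst]
      simp only [hh]
      rw [show -((1 / (2 * Q) * (MARK.st Q m k v).1 : ℝ) : ℂ) *
          (starRingEnd ℂ) (MARK.st Q m k v).2 * m k v =
          ((-(1 / (2 * Q) * (MARK.st Q m k v).1) : ℝ) : ℂ) *
          ((starRingEnd ℂ) (MARK.st Q m k v).2 * m k v) by push_cast; ring]
      rw [Complex.re_ofReal_mul]
      ring
    show av k (fun v => (((MARK.st Q m (k + 1) v).1 - (MARK.st Q m k v).1 : ℝ) : ℂ)) w = 0
    rw [e, c8 (fun v => h v * m k v) w, c5 (m k) h w hhm, h2 k hk w]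
    simp
  · intro w
    show ‖∑ k ∈ Finset.range n, ((MARK.st Q m k w).1 : ℂ) * m k w‖ ≤ 2 * √Q
    rw [← MARK.st_snd Q m n w]
    obtain ⟨h0, hI⟩ := hinv w n le_rfl
    have hnn : (∑ i ∈ Finset.range n, μ i ^ 2) / (4 * Q) ≤ 1 / 4 := by
      rw [div_le_div_iff₀ (by positivity) (by norm_num)]
      linarith
    have hA : 0 < 4 * Q := by positivity
    have h4 : ‖(MARK.st Q m n w).2‖ ^ 2 / (4 * Q) ≤ 3 / 4 := by
      rw [div_eq_mul_one_div, mul_comm]; linarith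
    rw [div_le_iff₀ hA] at h4
    have hs2 : √Q ^ 2 = Q := Real.sq_sqrt hQ.le
    refine abs_le_of_sq_le_sq' ?_ (by positivity) |>.2
    have : (2 * √Q) ^ 2 = 4 * Q := by
      rw [mul_pow, hs2]; norm_num
    rw [this]
    linarith

end Pool.Agent.FCK
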