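import Pool.Agent.FCK.Stmts

/-!
# MKV: the measure of the directions with a long projection   (helper67)
-/

set_option autoImplicit false

namespace Pool.Agent.FCK

open MeasureTheory Set

namespace MKV

/-- Markov's inequality for a finite sum of weighted indicators on `[0, 1]`. -/
theorem markov (s : Finset ℕ) (a : ℕ → ℝ) (ha : ∀ i ∈ s, 0 ≤ a i) (B : ℕ → Set ℝ)
    (hB : ∀ i, MeasurableSet (B i)) (β : ℝ)
    (hβ : ∀ i ∈ s, a i ≠ 0 → (volume {t : ℝ | t ∈ Icc (0 : ℝ) 1 ∧ t ∈ B i}).toReal ≤ β) (ε : ℝ) :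
    ε * (volume {t : ℝ | t ∈ Icc (0 : ℝ) 1 ∧
      ε ≤ ∑ i ∈ s, a i * (B i).indicator (fun _ => (1 : ℝ)) t}).toReal ≤ (∑ i ∈ s, a i) * β := by
  set μ : Measure ℝ := volume.restrict (Icc (0 : ℝ) 1) with hμ
  have hfin : IsFiniteMeasure μ := ⟨by
    rw [hμ, Measure.restrict_apply_univ, Real.volume_Icc]
    exact ENNReal.ofReal_lt_top⟩
  set f : ℝ → ℝ := fun t => ∑ i ∈ s, a i * (B i).indicator (fun _ => (1 : ℝ)) t with hf
  have hind : ∀ i, Measurable ((B i).indicator (fun _ => (1 : ℝ))) := fun i =>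
    measurable_const.indicator (hB i)
  have hfm : Measurable f := by
    rw [hf]
    exact Finset.measurable_sum s fun i _ => (hind i).const_mul (a i)
  have hint : ∀ i, Integrable ((B i).indicator (fun _ => (1 : ℝ))) μ := fun i =>
    (integrable_const (1 : ℝ)).indicator (hB i)
  have hfi : Integrable f μ := by
    rw [hf]
    exact integrable_finsetSum s fun i _ => (hint i).const_mul (a i)
  have hf0 : 0 ≤ᵐ[μ] f := Filter.Eventually.of_forall fun t =>
    Finset.sum_nonneg fun i hi => mul_nonneg (ha i hi)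
      (indicator_nonneg (fun _ _ => zero_le_one) t)
  have hM := mul_meas_ge_le_integral_of_nonneg hf0 hfi ε
  have hset : MeasurableSet {t : ℝ | ε ≤ f t} := measurableSet_le measurable_const hfm
  have h1 : μ.real {t : ℝ | ε ≤ f t} = (volume {t : ℝ | t ∈ Icc (0 : ℝ) 1 ∧ ε ≤ f t}).toReal := by
    rw [Measure.real, hμ, Measure.restrict_apply hset]
    congr 2
    ext t
    exact and_comm
  rw [h1] at hM
  refine hM.trans ?_
  have h2 : ∫ t, f t ∂μ = ∑ i ∈ s, a i * (volume {t : ℝ | t ∈ Icc (0 : ℝ) 1 ∧ t ∈ B i}).toReal := by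
    rw [hf, integral_finsetSum s fun i _ => (hint i).const_mul (a i)]
    refine Finset.sum_congr rfl fun i _ => ?_
    rw [integral_const_mul, integral_indicator_const (1 : ℝ) (hB i), smul_eq_mul, mul_one,
      Measure.real, hμ, Measure.restrict_apply (hB i)]
    congr 3
    ext t
    exact and_comm
  rw [h2, Finset.sum_mul]
  refine Finset.sum_le_sum fun i hi => ?_
  by_cases h0 : a i = 0
  · rw [h0, zero_mul, zero_mul]
  · exact mul_le_mul_of_nonneg_left (hβ i hi h0) (ha i hi)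

/-- The number of steps. -/
noncomputable def Nf (N' θ : ℝ) : ℕ := if 0 < θ ∧ θ ≤ 1 then ⌈N' / θ⌉₊ else 1

theorem one_le_Nf {N' : ℝ} (h : 1 ≤ N') (θ : ℝ) : 1 ≤ Nf N' θ := by
  unfold Nf
  split_ifs with hθ
  · exact Nat.one_le_iff_ne_zero.2 (Nat.ceil_pos.2 (by have := hθ.1; positivity)).ne'
  · exact le_refl 1

theorem le_Nf {N' θ : ℝ} (h0 : 0 < θ) (h1 : θ ≤ 1) : N' / θ ≤ Nf N' θ := by
  unfold Nf
  rw [if_pos ⟨h0, h1⟩]
  exact Nat.le_ceil _

theorem Nf_le {N' θ : ℝ} (h : 1 ≤ N') (h0 : 0 < θ) (h1 : θ ≤ 1) : (Nf N' θ : ℝ) ≤ 2 * N' / θ := by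
  unfold Nf
  rw [if_pos ⟨h0, h1⟩]
  have h2 : 0 ≤ N' / θ := by positivity
  have h3 := (Nat.ceil_lt_add_one h2).le
  have h4 : 1 ≤ N' / θ := by
    rw [le_div_iff₀ h0]
    linarith
  have h5 : 2 * N' / θ = N' / θ + N' / θ := by ring
  rw [h5]
  linarith

/-- The good directions for the ratio `θ`. -/
noncomputable def g (N' K t θ : ℝ) : ℝ := if 48 * K / θ < FCC.S (Nf N' θ) t then 1 else 0

/-- The bad directions for the ratio `θ`. -/
def B (N' K θ : ℝ) : Set ℝ := {t | FCC.S (Nf N' θ) t ≤ 48 * K / θ}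

theorem measurableSet_B (N' K θ : ℝ) : MeasurableSet (B N' K θ) :=
  measurableSet_le (FCC.measurable_S _) measurable_const

theorem indicator_B (N' K t θ : ℝ) :
    (B N' K θ).indicator (fun _ => (1 : ℝ)) t = 1 - g N' K t θ := by
  unfold g
  by_cases h : 48 * K / θ < FCC.S (Nf N' θ) t
  · rw [if_pos h, indicator_of_notMem, sub_self]
    exact fun hc => absurd hc (not_le.2 h)
  · rw [if_neg h, indicator_of_mem, sub_zero]
    exact not_lt.1 h

/-- The weight of the `i`-th step. -/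
noncomputable def wt (lam : ℕ → ℝ) (i : ℕ) : ℝ := if lam i = 1 / 4 then th lam i ^ 2 else 0

theorem wt_nonneg (lam : ℕ → ℝ) (i : ℕ) : 0 ≤ wt lam i := by
  unfold wt
  split_ifs <;> positivity

theorem sum_wt (lam : ℕ → ℝ) (n : ℕ) : ∑ i ∈ Finset.range n, wt lam i = SD lam n := rfl

theorem g_cases (N' K t θ : ℝ) : g N' K t θ = 0 ∨ g N' K t θ = 1 := by
  unfold g
  split_ifs
  · right; rfl
  · left; rfl

/-- One term. -/
theorem term (lam : ℕ → ℝ) (hp : ∀ k, 0 < lam k) (hl : ∀ k, 1 / 4 ≤ lam k) {N' : ℝ} (hN : 1 ≤ N')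
    (K t : ℝ) (i : ℕ) :
    wt lam i * g N' K t (th lam i) / (2 * N') ≤
      if lam i = 1 / 4 then th lam i * g N' K t (th lam i) / Nf N' (th lam i) else 0 := by
  unfold wt
  by_cases h : lam i = 1 / 4
  · rw [if_pos h, if_pos h]
    have h0 := th_pos hp i
    have h1 := th_le_one hl i
    have h2 := Nf_le hN h0 h1
    have h3 : (0 : ℝ) < Nf N' (th lam i) := by exact_mod_cast one_le_Nf hN _
    have h4 : 0 ≤ g N' K t (th lam i) := by
      rcases g_cases N' K t (th lam i) with h | h <;> rw [h]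
      exact zero_le_one
    rw [div_le_div_iff₀ (by linarith) h3]
    have h5 : (Nf N' (th lam i) : ℝ) * th lam i ≤ 2 * N' := by
      rw [le_div_iff₀ h0] at h2
      exact h2
    calc th lam i ^ 2 * g N' K t (th lam i) * Nf N' (th lam i)
        = th lam i * g N' K t (th lam i) * (Nf N' (th lam i) * th lam i) := by ring
      _ ≤ th lam i * g N' K t (th lam i) * (2 * N') :=
        mul_le_mul_of_nonneg_left h5 (mul_nonneg h0.le h4)
  · rw [if_neg h, if_neg h, zero_mul, zero_div]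

/-- A direction in which the weight of the bad steps is small. -/
theorem point (hIND : Stmt_IND) (lam : ℕ → ℝ) (n : ℕ) (K M Cd : ℝ)
    (hl : ∀ k, 1 / 4 ≤ lam k ∧ lam k ≤ 1 / 2) (hK : 1 ≤ K) (hCd : SX lam n + 1 ≤ Cd)
    (hM : M = 8 / 3 * (18432 + Cd)) (hCd0 : 0 ≤ Cd) (hD : M * K ≤ SD lam n) (t : ℝ) (h0 : 0 ≤ t)
    (h1 : t ≤ 1)
    (ht : ∑ i ∈ Finset.range n,
      wt lam i * (B (SD lam n / (M * K)) K (th lam i)).indicator (fun _ => (1 : ℝ)) t <
        SD lam n / 4) : L lam n t ≤ 1 / K := by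
  have hM0 : 0 < M := by rw [hM]; linarith
  have hMK : 0 < M * K := mul_pos hM0 (by linarith)
  set N' : ℝ := SD lam n / (M * K) with hN'
  have hN1 : 1 ≤ N' := by
    rw [hN', le_div_iff₀ hMK]
    linarith
  have hp : ∀ k, 0 < lam k := fun k => lt_of_lt_of_le (by norm_num) (hl k).1
  have hS : ∑ i ∈ Finset.range n,
      wt lam i * (B N' K (th lam i)).indicator (fun _ => (1 : ℝ)) t =
      SD lam n - ∑ i ∈ Finset.range n, wt lam i * g N' K t (th lam i) := by
    rw [← sum_wt, ← Finset.sum_sub_distrib]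
    refine Finset.sum_congr rfl fun i _ => ?_
    rw [indicator_B]
    ring
  rw [hS] at ht
  have hG : 3 / 4 * SD lam n ≤ ∑ i ∈ Finset.range n, wt lam i * g N' K t (th lam i) := by linarith
  have hT : (∑ i ∈ Finset.range n, wt lam i * g N' K t (th lam i)) / (2 * N') ≤
      ∑ i ∈ Finset.range n, if lam i = 1 / 4 then
        th lam i * g N' K t (th lam i) / Nf N' (th lam i) else 0 := by
    rw [Finset.sum_div]
    exact Finset.sum_le_sum fun i _ => term lam hp (fun k => (hl k).1) hN1 K t i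
  have h3 : 3 / 8 * (M * K) ≤ (∑ i ∈ Finset.range n, wt lam i * g N' K t (th lam i)) / (2 * N') := by
    rw [le_div_iff₀ (by linarith)]
    have : N' * (M * K) = SD lam n := by
      rw [hN']
      field_simp
    calc 3 / 8 * (M * K) * (2 * N') = 3 / 4 * (N' * (M * K)) := by ring
      _ = 3 / 4 * SD lam n := by rw [this]
      _ ≤ _ := hG
  refine hIND lam n t K (Nf N') (g N' K t) hl h0 h1 hK (one_le_Nf hN1) (g_cases N' K t) ?_ ?_
  · intro θ _ _ h
    unfold g at h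
    by_contra hc
    rw [if_neg hc] at h
    exact zero_ne_one h
  · have h4 : 3 / 8 * (M * K) = 18432 * K + Cd * K := by rw [hM]; ring
    have h5 : Cd ≤ Cd * K := le_mul_of_one_le_right hCd0 hK
    have h6 := h3.trans hT
    rw [h4] at h6
    linarith

theorem vol_le_one (lam : ℕ → ℝ) (n : ℕ) (K : ℝ) :
    (volume {t : ℝ | t ∈ Icc (0 : ℝ) 1 ∧ 1 / K < L lam n t}).toReal ≤ 1 := by
  have h : volume {t : ℝ | t ∈ Icc (0 : ℝ) 1 ∧ 1 / K < L lam n t} ≤ volume (Icc (0 : ℝ) 1) :=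
    measure_mono fun t ht => ht.1
  rw [Real.volume_Icc] at h
  calc _ ≤ (ENNReal.ofReal (1 - 0)).toReal := ENNReal.toReal_mono ENNReal.ofReal_ne_top h
    _ ≤ 1 := by rw [ENNReal.toReal_ofReal (by norm_num)]; norm_num

theorem vol_mono {p q : ℝ → Prop} (h : ∀ t : ℝ, 0 ≤ t → t ≤ 1 → p t → q t) :
    (volume {t : ℝ | t ∈ Icc (0 : ℝ) 1 ∧ p t}).toReal ≤
      (volume {t : ℝ | t ∈ Icc (0 : ℝ) 1 ∧ q t}).toReal := by
  refine ENNReal.toReal_mono ?_ (measure_mono fun t ht => ⟨ht.1, h t ht.1.1 ht.1.2 ht.2⟩)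
  refine ne_top_of_le_ne_top ?_ (measure_mono (fun t ht => ht.1 : _ ⊆ Icc (0 : ℝ) 1))
  rw [Real.volume_Icc]
  exact ENNReal.ofReal_ne_top

/-- The case of a large weight. -/
theorem large (hIND : Stmt_IND) (C : ℝ) (hC : 0 < C) (hT : ∀ (N : ℕ) (y : ℝ), 1 ≤ N → 0 < y →
    (volume {t : ℝ | t ∈ Icc (0 : ℝ) 1 ∧ FCC.S N t ≤ y}).toReal ≤
      C * (y / N) ^ (101 / 200 : ℝ)) (lam : ℕ → ℝ) (n : ℕ) (K M Cd : ℝ)
    (hl : ∀ k, 1 / 4 ≤ lam k ∧ lam k ≤ 1 / 2) (hK : 1 ≤ K) (hCd : SX lam n + 1 ≤ Cd)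
    (hM : M = 8 / 3 * (18432 + Cd)) (hCd0 : 0 ≤ Cd) (hD : M * K ≤ SD lam n) :
    (volume {t : ℝ | t ∈ Icc (0 : ℝ) 1 ∧ 1 / K < L lam n t}).toReal ≤
      4 * C * (48 * M * K ^ 2 / SD lam n) ^ (101 / 200 : ℝ) := by
  have hM0 : 0 < M := by rw [hM]; linarith
  have hK0 : 0 < K := by linarith
  have hMK : 0 < M * K := mul_pos hM0 hK0
  have hD0 : 0 < SD lam n := hMK.trans_le hD
  have hp : ∀ k, 0 < lam k := fun k => lt_of_lt_of_le (by norm_num) (hl k).1
  have hN1 : 1 ≤ SD lam n / (M * K) := by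
    rw [le_div_iff₀ hMK]
    linarith
  have h1 := markov (Finset.range n) (wt lam) (fun i _ => wt_nonneg lam i)
    (fun i => B (SD lam n / (M * K)) K (th lam i)) (fun i => measurableSet_B _ _ _)
    (C * (48 * M * K ^ 2 / SD lam n) ^ (101 / 200 : ℝ)) ?_ (SD lam n / 4)
  · rw [sum_wt] at h1
    have h2 := vol_mono (p := fun t => 1 / K < L lam n t) (q := fun t => SD lam n / 4 ≤
      ∑ i ∈ Finset.range n,
      wt lam i * (B (SD lam n / (M * K)) K (th lam i)).indicator (fun _ => (1 : ℝ)) t) ?_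
    · refine h2.trans ?_
      refine le_of_mul_le_mul_left (h1.trans (le_of_eq ?_)) (by linarith : 0 < SD lam n / 4)
      ring
    · intro t h0 h1 h
      by_contra hc
      exact absurd (point hIND lam n K M Cd hl hK hCd hM hCd0 hD t h0 h1 (not_le.1 hc))
        (not_le.2 h)
  · intro i _ hw
    have hi : lam i = 1 / 4 := by
      by_contra hc
      exact hw (if_neg hc)
    have h0 := th_pos hp i
    have h1 := th_le_one (fun k => (hl k).1) i
    have h2 := hT (Nf (SD lam n / (M * K)) (th lam i)) (48 * K / th lam i) (one_le_Nf hN1 _)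
      (by positivity)
    refine h2.trans (mul_le_mul_of_nonneg_left ?_ hC.le)
    refine Real.rpow_le_rpow (by positivity) ?_ (by norm_num)
    have h3 := le_Nf (N' := SD lam n / (M * K)) h0 h1
    calc 48 * K / th lam i / Nf (SD lam n / (M * K)) (th lam i)
        ≤ 48 * K / th lam i / (SD lam n / (M * K) / th lam i) :=
          div_le_div_of_nonneg_left (by positivity) (by positivity) h3
      _ = 48 * M * K ^ 2 / SD lam n := by
          field_simp

end MKV

/-- MKV. -/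
theorem MKV_thm (hTAIL3 : Stmt_TAIL3) (hIND : Stmt_IND) (hGEOM : Stmt_GEOM) : Stmt_MKV := by
  intro δ hδ
  obtain ⟨C, hC, hT⟩ := hTAIL3
  set Cd : ℝ := 1 + 1 / (4 * δ) with hCd
  have hCd0 : 0 ≤ Cd := by rw [hCd]; positivity
  set M : ℝ := 8 / 3 * (18432 + Cd) with hM
  have hM0 : 1 ≤ M := by rw [hM]; linarith
  refine ⟨(1 + M) ^ (101 / 200 : ℝ) + 4 * C * (96 * M) ^ (101 / 200 : ℝ), by positivity,
    fun lam n K hA hK => ?_⟩
  have hK0 : 0 < K := by linarith
  have hS0 := SD_nonneg lam n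
  have hX : 0 < K ^ 2 / (1 + SD lam n) := by positivity
  have hl : ∀ k, 1 / 4 ≤ lam k ∧ lam k ≤ 1 / 2 := fun k => ⟨hA.pos hδ k, (hA.pos' hδ k).2⟩
  rw [add_mul]
  have hr1 : 0 ≤ (1 + M) ^ (101 / 200 : ℝ) * (K ^ 2 / (1 + SD lam n)) ^ (101 / 200 : ℝ) := by
    positivity
  have hr2 : 0 ≤ 4 * C * (96 * M) ^ (101 / 200 : ℝ) *
      (K ^ 2 / (1 + SD lam n)) ^ (101 / 200 : ℝ) := by positivity
  rcases lt_or_ge (SD lam n) (M * K) with h | h
  · have h1 := MKV.vol_le_one lam n K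
    have h2 : 1 ≤ (1 + M) ^ (101 / 200 : ℝ) * (K ^ 2 / (1 + SD lam n)) ^ (101 / 200 : ℝ) := by
      rw [← Real.mul_rpow (by linarith) hX.le]
      refine Real.one_le_rpow ?_ (by norm_num)
      rw [← mul_div_assoc, le_div_iff₀ (by linarith), one_mul]
      have h3 : K ≤ K ^ 2 := by nlinarith
      have h4 : M * K ≤ M * K ^ 2 := mul_le_mul_of_nonneg_left h3 (by linarith)
      calc 1 + SD lam n ≤ K ^ 2 + M * K ^ 2 := by linarith
        _ = (1 + M) * K ^ 2 := by ring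
    linarith
  · have h1 := MKV.large hIND C hC hT lam n K M Cd hl hK
      (by rw [hCd]; linarith [(hGEOM δ lam n hδ hA).1]) hM hCd0 h
    refine (h1.trans ?_).trans (le_add_of_nonneg_left hr1)
    rw [mul_assoc (4 * C), ← Real.mul_rpow (by linarith) hX.le]
    refine mul_le_mul_of_nonneg_left ?_ (by positivity)
    have hD1 : 1 ≤ SD lam n := by nlinarith
    refine Real.rpow_le_rpow (by positivity) ?_ (by norm_num)
    rw [← mul_div_assoc, div_le_div_iff₀ (by linarith) (by linarith)]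
    have h5 : 0 ≤ 48 * M * K ^ 2 := by positivity
    calc 48 * M * K ^ 2 * (1 + SD lam n) ≤ 48 * M * K ^ 2 * (2 * SD lam n) :=
          mul_le_mul_of_nonneg_left (by linarith) h5
      _ = 96 * M * K ^ 2 * SD lam n := by ring

end Pool.Agent.FCK
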