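import Pool.Agent.FCK.Stmts

/-!
# NUK: the square sum of the discounted densities
-/

set_option autoImplicit false

namespace Pool.Agent.FCK

namespace NUK

theorem nu_succ (lam : ℕ → ℝ) (k : ℕ) : nu lam (k + 1) = nu lam k / 2 + th lam (k + 1) := by
  unfold nu
  rw [Finset.sum_range_succ, Finset.sum_div]
  congr 1
  · refine Finset.sum_congr rfl fun j hj => ?_
    have hj' : j ≤ k := Nat.lt_succ_iff.mp (Finset.mem_range.mp hj)
    rw [Nat.succ_sub hj', pow_succ, div_div]
  · simp

theorem nu_zero (lam : ℕ → ℝ) : nu lam 0 = th lam 0 := by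
  unfold nu
  simp

theorem key (lam : ℕ → ℝ) (n : ℕ) :
    ∑ k ∈ Finset.range (n + 1), nu lam k ^ 2 + nu lam n ^ 2 ≤ 4 * Th lam n := by
  induction n with
  | zero =>
    unfold Th
    simp only [zero_add, Finset.sum_range_one, nu_zero]
    nlinarith [sq_nonneg (th lam 0)]
  | succ n ih =>
    have h1 : Th lam (n + 1) = Th lam n + th lam (n + 1) ^ 2 := by
      unfold Th
      rw [Finset.sum_range_succ]
    rw [Finset.sum_range_succ, h1, nu_succ]
    nlinarith [sq_nonneg (nu lam n / 2 - th lam (n + 1))]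

end NUK

theorem NUK_thm : Stmt_NUK := by
  intro lam n
  have h := NUK.key lam n
  rw [Finset.sum_range_succ] at h
  nlinarith [sq_nonneg (nu lam n)]

end Pool.Agent.FCK
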