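import Pool.Agent.FCK.Stmts
import Pool.Agent.FCC.REC

/-!
# Corner Cantor sets: one stretch with the ratio `1/4` before an arbitrary set
-/

set_option autoImplicit false

namespace Pool.Agent.FCK

open MeasureTheory Set
open Pool.Agent.FCC (Wd bv agr)

namespace RECK

open Pool.Agent.FCC (Jst)
open Pool.Agent.FCC.REC (Gb card_Gb' psq_subset_Jst' disj volume_Jst)

/-- the piece of the extension under the word `w` -/
def pc (t : ℝ) {N : ℕ} (R : Set ℝ) (w : Wd N) : Set ℝ := {x | 4 ^ N * (x - FCC.pr t w) ∈ R}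

theorem volume_pc (t : ℝ) {N : ℕ} (R : Set ℝ) (w : Wd N) :
    volume (pc t R w) = ENNReal.ofReal (1 / 4 ^ N) * volume R := by
  have h4 : (4 : ℝ) ^ N ≠ 0 := by positivity
  have e : pc t R w = (fun x => x + -FCC.pr t w) ⁻¹' ((fun x => (4 : ℝ) ^ N * x) ⁻¹' R) := rfl
  rw [e]
  rw [measure_preimage_add_right, Real.volume_preimage_mul_left h4, abs_of_pos (by positivity)]
  congr 2
  rw [one_div]

theorem pc_subset {t : ℝ} {N : ℕ} {R : Set ℝ} (hR : R ⊆ Icc 0 (1 + t)) (w : Wd N) :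
    pc t R w ⊆ FCC.psq t w := by
  intro x hx
  have h := hR hx
  have h4 : (0 : ℝ) < 4 ^ N := by positivity
  obtain ⟨ha, hb⟩ := h
  constructor
  · have : 0 ≤ x - FCC.pr t w := nonneg_of_mul_nonneg_right ha h4
    linarith
  · have : x - FCC.pr t w ≤ (1 + t) / 4 ^ N := by
      rw [le_div_iff₀ h4]
      linarith
    linarith

theorem cover {t : ℝ} (h0 : 0 ≤ t) (h1 : t ≤ 1) {N : ℕ} {R : Set ℝ} (hR : R ⊆ Icc 0 (1 + t))
    {B : Finset (ℕ × ℤ)} (hB : ∀ b ∈ B, b.1 ≤ N) (G : Finset (Wd N))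
    (hG : ∀ w ∈ G, ∃ b ∈ B, w ∈ Gb t N b) :
    ext N t R ⊆ (⋃ b ∈ B, Jst b) ∪ ⋃ w ∈ (Finset.univ \ G : Finset (Wd N)), pc t R w := by
  intro x hx
  obtain ⟨w, hw⟩ := mem_iUnion.1 hx
  by_cases hwG : w ∈ G
  · left
    obtain ⟨b, hb, hwb⟩ := hG w hwG
    exact mem_iUnion₂.2 ⟨b, hb, psq_subset_Jst' h0 h1 (hB b hb) hwb (pc_subset hR w hw)⟩
  · right
    exact mem_iUnion₂.2 ⟨w, Finset.mem_sdiff.2 ⟨Finset.mem_univ _, hwG⟩, hw⟩

end RECK

open RECK in
/-- **RECK.** One stretch. -/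
theorem RECK_thm : Stmt_RECK := by
  classical
  intro N K t B h0 h1 hB hd
  have hB1 : ∀ b ∈ B, b.1 ≤ N := fun b hb => (hB b hb).1
  set G : Finset (Wd N) := B.biUnion (FCC.REC.Gb t N) with hGdef
  have hcard : (G.card : ℝ) = ∑ b ∈ B, ((FCC.REC.Gb t N b).card : ℝ) := by
    rw [hGdef, Finset.card_biUnion (FCC.REC.disj h0 h1 hB1 hd)]
    push_cast
    rfl
  have h4N : (0 : ℝ) < 4 ^ N := by positivity
  have hGle : (G.card : ℝ) ≤ 4 ^ N := by
    have h := Finset.card_le_univ G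
    rw [FCC.card_Wd] at h
    exact_mod_cast h
  refine ⟨(G.card : ℝ) / 4 ^ N, ?_, (div_le_one h4N).2 hGle, ?_⟩
  · rw [hcard, Finset.sum_div, Finset.mul_sum]
    refine Finset.sum_le_sum fun b hb => ?_
    rw [FCC.REC.card_Gb' t (hB1 b hb), mul_one_div]
    have : (K : ℝ) ≤ (FCC.cnt t b.1 b.2 : ℝ) := by exact_mod_cast (hB b hb).2
    exact div_le_div_of_nonneg_right this (by positivity)
  · intro R hR _
    have hcov := cover h0 h1 hR hB1 G (fun w hw => by
      obtain ⟨b, hb, hwb⟩ := Finset.mem_biUnion.1 hw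
      exact ⟨b, hb, hwb⟩)
    have hRtop : volume R ≠ ⊤ := by
      refine ne_top_of_le_ne_top ?_ (measure_mono hR)
      rw [Real.volume_Icc]
      exact ENNReal.ofReal_ne_top
    have hv1 : volume (⋃ b ∈ B, FCC.Jst b) ≤ ∑ b ∈ B, ENNReal.ofReal (5 / 4 ^ b.1) := by
      refine (measure_biUnion_finset_le _ _).trans ?_
      exact Finset.sum_le_sum fun b _ => (FCC.REC.volume_Jst b).le
    have hv2 : volume (⋃ w ∈ (Finset.univ \ G : Finset (Wd N)), pc t R w) ≤
        ∑ w ∈ (Finset.univ \ G : Finset (Wd N)), ENNReal.ofReal (1 / 4 ^ N) * volume R := by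
      refine (measure_biUnion_finset_le _ _).trans ?_
      exact Finset.sum_le_sum fun w _ => (volume_pc t R w).le
    obtain ⟨r, hr⟩ : ∃ r : ℝ, r = (volume R).toReal := ⟨_, rfl⟩
    rw [← hr]
    have hPM : volume R = ENNReal.ofReal r := by
      rw [hr, ENNReal.ofReal_toReal hRtop]
    have hcs : ((Finset.univ \ G : Finset (Wd N)).card : ℝ) = 4 ^ N - G.card := by
      rw [Finset.card_sdiff_of_subset (Finset.subset_univ G), Finset.card_univ, FCC.card_Wd,
        Nat.cast_sub]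
      · push_cast
        ring
      · exact_mod_cast hGle
    have hL : 0 ≤ r := by
      rw [hr]
      exact ENNReal.toReal_nonneg
    have htot : volume (ext N t R) ≤ ENNReal.ofReal (5 * (∑ b ∈ B, (1 : ℝ) / 4 ^ b.1) +
        (1 - (G.card : ℝ) / 4 ^ N) * r) := by
      calc volume (ext N t R) ≤ _ := measure_mono hcov
        _ ≤ _ := measure_union_le _ _
        _ ≤ ∑ b ∈ B, ENNReal.ofReal (5 / 4 ^ b.1) +
            ∑ w ∈ (Finset.univ \ G : Finset (Wd N)), ENNReal.ofReal (1 / 4 ^ N) * volume R :=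
          add_le_add hv1 hv2
        _ = _ := by
          rw [Finset.sum_const, nsmul_eq_mul, hPM, ← ENNReal.ofReal_mul (by positivity),
            ← ENNReal.ofReal_natCast, ← ENNReal.ofReal_mul (Nat.cast_nonneg _),
            ← ENNReal.ofReal_sum_of_nonneg (fun b _ => by positivity),
            ← ENNReal.ofReal_add (Finset.sum_nonneg fun b _ => by positivity)
              (mul_nonneg (Nat.cast_nonneg _) (mul_nonneg (by positivity) hL))]
          congr 1
          rw [hcs, Finset.mul_sum]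
          congr 1
          · exact Finset.sum_congr rfl fun b _ => by ring
          · field_simp
    have hnn : 0 ≤ 5 * (∑ b ∈ B, (1 : ℝ) / 4 ^ b.1) + (1 - (G.card : ℝ) / 4 ^ N) * r := by
      refine add_nonneg (mul_nonneg (by norm_num) (Finset.sum_nonneg fun b _ => by positivity)) ?_
      refine mul_nonneg ?_ hL
      have := (div_le_one h4N).2 hGle
      linarith
    calc (volume (ext N t R)).toReal
        ≤ (ENNReal.ofReal _).toReal := ENNReal.toReal_mono ENNReal.ofReal_ne_top htot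
      _ = _ := ENNReal.toReal_ofReal hnn

end Pool.Agent.FCK
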