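import Pool.Agent.FCK.Stmts
import Pool.Agent.FCC.SCL

/-!
# Second moments: scaling of the direction
-/

set_option autoImplicit false

namespace Pool.Agent.FCK

open MeasureTheory Set
open Pool.Agent.FCC (Wd bv agr)

namespace SCLS

open FCC.SCL (xa xa_nonneg xa_le px_split py_split)

/-- The word with the first `x`-digits `p.1`, the last `y`-digits `p.2.2` and the middle `p.2.1`. -/
def phi {k m : ℕ} (p : (Fin k → Bool) × Wd m × (Fin k → Bool)) : Wd (k + m) := fun i =>
  ((Fin.append p.1 (fun j => (p.2.1 j).1) : Fin (k + m) → Bool) i,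
    (Fin.append (fun j => (p.2.1 j).2) p.2.2 : Fin (m + k) → Bool)
      (finCongr (Nat.add_comm k m) i))

theorem phi_a {k m : ℕ} (p : (Fin k → Bool) × Wd m × (Fin k → Bool)) (i : Fin k) :
    (phi p (Fin.castAdd m i)).1 = p.1 i := by
  show (Fin.append p.1 (fun j => (p.2.1 j).1) : Fin (k + m) → Bool) (Fin.castAdd m i) = _
  rw [Fin.append_left]

theorem phi_x {k m : ℕ} (p : (Fin k → Bool) × Wd m × (Fin k → Bool)) (i : Fin m) :
    (phi p (Fin.natAdd k i)).1 = (p.2.1 i).1 := by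
  show (Fin.append p.1 (fun j => (p.2.1 j).1) : Fin (k + m) → Bool) (Fin.natAdd k i) = _
  rw [Fin.append_right]

theorem phi_y {k m : ℕ} (p : (Fin k → Bool) × Wd m × (Fin k → Bool)) (i : Fin m) :
    (phi p (finCongr (Nat.add_comm m k) (Fin.castAdd k i))).2 = (p.2.1 i).2 := by
  have h : finCongr (Nat.add_comm k m) (finCongr (Nat.add_comm m k) (Fin.castAdd k i)) =
      Fin.castAdd k i := Fin.ext rfl
  show (Fin.append (fun j => (p.2.1 j).2) p.2.2 : Fin (m + k) → Bool)
      (finCongr (Nat.add_comm k m) (finCongr (Nat.add_comm m k) (Fin.castAdd k i))) = _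
  rw [h, Fin.append_left]

theorem phi_b {k m : ℕ} (p : (Fin k → Bool) × Wd m × (Fin k → Bool)) (i : Fin k) :
    (phi p (finCongr (Nat.add_comm m k) (Fin.natAdd m i))).2 = p.2.2 i := by
  have h : finCongr (Nat.add_comm k m) (finCongr (Nat.add_comm m k) (Fin.natAdd m i)) =
      Fin.natAdd m i := Fin.ext rfl
  show (Fin.append (fun j => (p.2.1 j).2) p.2.2 : Fin (m + k) → Bool)
      (finCongr (Nat.add_comm k m) (finCongr (Nat.add_comm m k) (Fin.natAdd m i))) = _
  rw [h, Fin.append_right]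

theorem phi_inj {k m : ℕ} : Function.Injective (phi (k := k) (m := m)) := by
  intro p q h
  have ha : p.1 = q.1 := funext fun i => by rw [← phi_a p i, ← phi_a q i, h]
  have hb : p.2.2 = q.2.2 := funext fun i => by rw [← phi_b p i, ← phi_b q i, h]
  have hv : p.2.1 = q.2.1 := funext fun i => Prod.ext
    (by rw [← phi_x p i, ← phi_x q i, h]) (by rw [← phi_y p i, ← phi_y q i, h])
  exact Prod.ext ha (Prod.ext hv hb)

theorem px_phi {k m : ℕ} (p : (Fin k → Bool) × Wd m × (Fin k → Bool)) :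
    FCC.px (phi p) = xa p.1 + FCC.px p.2.1 / 4 ^ k := by
  rw [px_split]
  simp only [phi_a, phi_x]
  rfl

theorem py_phi {k m : ℕ} (p : (Fin k → Bool) × Wd m × (Fin k → Bool)) :
    FCC.py (phi p) = FCC.py p.2.1 + xa p.2.2 / 4 ^ m := by
  rw [py_split]
  simp only [phi_y, phi_b]
  rfl

theorem mem_phi {k m : ℕ} (s x : ℝ) (p : (Fin k → Bool) × Wd m × (Fin k → Bool)) :
    x ∈ FCC.psq (s / 4 ^ k) (phi p) ↔
      s * xa p.2.2 ≤ 4 ^ m * (4 ^ k * (x - xa p.1) - FCC.pr s p.2.1) ∧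
      4 ^ m * (4 ^ k * (x - xa p.1) - FCC.pr s p.2.1) ≤ s * xa p.2.2 + 1 + s / 4 ^ k := by
  unfold FCC.psq FCC.pr
  rw [px_phi, py_phi, mem_Icc]
  have h4k : (0 : ℝ) < 4 ^ k := by positivity
  have h4m : (0 : ℝ) < 4 ^ m := by positivity
  have h4 : (0 : ℝ) < 4 ^ (k + m) := by positivity
  generalize xa p.1 = a
  generalize xa p.2.2 = b
  generalize FCC.px p.2.1 = X
  generalize FCC.py p.2.1 = Y
  have e1 : 4 ^ m * (4 ^ k * (x - a) - (X + s * Y)) - s * b =
      4 ^ (k + m) * (x - (a + X / 4 ^ k + s / 4 ^ k * (Y + b / 4 ^ m))) := by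
    rw [pow_add]
    field_simp
    ring
  have e2 : s * b + 1 + s / 4 ^ k - 4 ^ m * (4 ^ k * (x - a) - (X + s * Y)) =
      4 ^ (k + m) * (a + X / 4 ^ k + s / 4 ^ k * (Y + b / 4 ^ m) +
        (1 + s / 4 ^ k) / 4 ^ (k + m) - x) := by
    rw [pow_add]
    field_simp
    ring
  rw [← sub_nonneg, ← sub_nonneg (b := x), ← sub_nonneg (a := _) (b := s * b), e1,
    ← sub_nonneg (a := s * b + 1 + s / 4 ^ k), e2, mul_nonneg_iff_of_pos_left h4,
    mul_nonneg_iff_of_pos_left h4]

/-- The middle part of the projection of a square. -/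
def J (s : ℝ) {m : ℕ} (v : Wd m) : Set ℝ :=
  Icc (FCC.pr s v + s / 4 / 4 ^ m) (FCC.pr s v + (1 + 3 * s / 4) / 4 ^ m)

/-- The number of the middle parts over a point. -/
noncomputable def F (m : ℕ) (s x : ℝ) : ℝ := ∑ v : Wd m, (J s v).indicator (fun _ => (1 : ℝ)) x

theorem mem_J {s : ℝ} {m : ℕ} (v : Wd m) (z : ℝ) :
    z ∈ J s v ↔ s / 4 ≤ 4 ^ m * (z - FCC.pr s v) ∧ 4 ^ m * (z - FCC.pr s v) ≤ 1 + 3 * s / 4 := by
  unfold J
  have h4m : (0 : ℝ) < 4 ^ m := by positivity
  rw [mem_Icc]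
  generalize FCC.pr s v = r
  constructor
  · rintro ⟨h1, h2⟩
    constructor
    · have h3 : s / 4 / 4 ^ m ≤ z - r := by linarith
      rw [div_le_iff₀ h4m] at h3
      linarith
    · have h3 : z - r ≤ (1 + 3 * s / 4) / 4 ^ m := by linarith
      rw [le_div_iff₀ h4m] at h3
      linarith
  · rintro ⟨h1, h2⟩
    constructor
    · have h3 : s / 4 / 4 ^ m ≤ z - r := by
        rw [div_le_iff₀ h4m]
        linarith
      linarith
    · have h3 : z - r ≤ (1 + 3 * s / 4) / 4 ^ m := by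
        rw [le_div_iff₀ h4m]
        linarith
      linarith

theorem F_nonneg (m : ℕ) (s x : ℝ) : 0 ≤ F m s x :=
  Finset.sum_nonneg fun v _ => indicator_nonneg (fun _ _ => zero_le_one) x

theorem F_le (m : ℕ) (s x : ℝ) : F m s x ≤ 4 ^ m := by
  unfold F
  calc ∑ v : Wd m, (J s v).indicator (fun _ => (1 : ℝ)) x ≤ ∑ _ : Wd m, (1 : ℝ) :=
        Finset.sum_le_sum fun w _ => by
          by_cases h : x ∈ J s w
          · rw [indicator_of_mem h]
          · rw [indicator_of_notMem h]; norm_num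
    _ = 4 ^ m := by
        rw [Finset.sum_const, Finset.card_univ, FCC.card_Wd]
        simp

theorem measurable_F (m : ℕ) (s : ℝ) : Measurable (F m s) := by
  unfold F
  exact Finset.measurable_sum _ fun w _ => measurable_const.indicator measurableSet_Icc

theorem integrable_F (m : ℕ) (s : ℝ) : Integrable (F m s) := by
  unfold F
  refine integrable_finsetSum _ fun w _ => ?_
  refine (integrable_indicator_iff measurableSet_Icc).2 (integrableOn_const ?_)
  rw [Real.volume_Icc]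
  exact ENNReal.ofReal_ne_top

theorem integrable_F_sq (m : ℕ) (s : ℝ) : Integrable (fun x => F m s x ^ 2) := by
  have h : Integrable (fun x => 4 ^ m * F m s x) := (integrable_F m s).const_mul _
  refine h.mono' ((measurable_F m s).pow_const 2).aestronglyMeasurable ?_
  refine Filter.Eventually.of_forall fun x => ?_
  rw [Real.norm_eq_abs, abs_of_nonneg (sq_nonneg _), sq]
  exact mul_le_mul_of_nonneg_right (F_le m s x) (F_nonneg m s x)

/-- The value of a bit word with the first digit `c`. -/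
theorem xa_cons {k : ℕ} (c : Bool) (b : Fin k → Bool) :
    xa (Fin.cons c b : Fin (k + 1) → Bool) = bv c / 4 + xa b / 4 := by
  unfold xa
  rw [Fin.sum_univ_succ, Finset.sum_div]
  congr 1
  · simp
  · refine Finset.sum_congr rfl fun i _ => ?_
    rw [Fin.cons_succ, Fin.val_succ, div_div]
    congr 1

theorem count {k : ℕ} (s ζ : ℝ) (hs : 0 < s) (hs1 : s ≤ 1) (h1 : s / 4 ≤ ζ)
    (h2 : ζ ≤ 1 + 3 * s / 4) : (2 : ℝ) ^ k ≤ ∑ b : Fin (k + 1) → Bool,
      {b | s * xa b ≤ ζ ∧ ζ ≤ s * xa b + 1 + s / 4 ^ (k + 1)}.indicator (fun _ => (1 : ℝ)) b := by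
  have ht : 0 < s / 4 ^ (k + 1) := by positivity
  have key : ∃ c : Bool, ∀ b : Fin k → Bool, (Fin.cons c b : Fin (k + 1) → Bool) ∈
      {b : Fin (k + 1) → Bool | s * xa b ≤ ζ ∧ ζ ≤ s * xa b + 1 + s / 4 ^ (k + 1)} := by
    by_cases h : ζ ≤ 1 + s / 4 ^ (k + 1)
    · refine ⟨false, fun b => ?_⟩
      have e : xa (Fin.cons false b : Fin (k + 1) → Bool) = xa b / 4 := by
        rw [xa_cons]
        unfold bv
        simp
      have h3 := xa_nonneg b
      have h4 : xa b ≤ 1 := (xa_le b).trans (sub_le_self _ (by positivity))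
      show s * xa (Fin.cons false b : Fin (k + 1) → Bool) ≤ ζ ∧
        ζ ≤ s * xa (Fin.cons false b : Fin (k + 1) → Bool) + 1 + s / 4 ^ (k + 1)
      rw [e]
      have h5 : 0 ≤ s * (xa b / 4) := by positivity
      have h6 : s * (xa b / 4) ≤ s / 4 := by nlinarith
      constructor <;> linarith
    · push Not at h
      refine ⟨true, fun b => ?_⟩
      have e : xa (Fin.cons true b : Fin (k + 1) → Bool) = 3 / 4 + xa b / 4 := by
        rw [xa_cons]
        unfold bv
        simp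
      have h3 := xa_nonneg b
      have h4 : xa b ≤ 1 := (xa_le b).trans (sub_le_self _ (by positivity))
      show s * xa (Fin.cons true b : Fin (k + 1) → Bool) ≤ ζ ∧
        ζ ≤ s * xa (Fin.cons true b : Fin (k + 1) → Bool) + 1 + s / 4 ^ (k + 1)
      rw [e]
      constructor <;> nlinarith
  obtain ⟨c, hc⟩ := key
  have hinj : Function.Injective
      (fun b : Fin k → Bool => (Fin.cons c b : Fin (k + 1) → Bool)) := by
    intro b b' h
    funext i
    have h' := congrFun h (Fin.succ i)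
    simpa only [Fin.cons_succ] using h'
  calc (2 : ℝ) ^ k = ∑ _b : Fin k → Bool, (1 : ℝ) := by
        rw [Finset.sum_const, Finset.card_univ, Fintype.card_fun, Fintype.card_bool,
          Fintype.card_fin]
        simp
    _ = ∑ b : Fin k → Bool, {b | s * xa b ≤ ζ ∧ ζ ≤ s * xa b + 1 + s / 4 ^ (k + 1)}.indicator
          (fun _ => (1 : ℝ)) (Fin.cons c b : Fin (k + 1) → Bool) :=
        Finset.sum_congr rfl fun b _ => by rw [indicator_of_mem (hc b)]
    _ = ∑ b ∈ Finset.univ.image (fun b : Fin k → Bool => (Fin.cons c b : Fin (k + 1) → Bool)),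
          {b | s * xa b ≤ ζ ∧ ζ ≤ s * xa b + 1 + s / 4 ^ (k + 1)}.indicator
          (fun _ => (1 : ℝ)) b := by
        rw [Finset.sum_image fun a _ b _ h => hinj h]
    _ ≤ _ := Finset.sum_le_univ_sum_of_nonneg fun b => indicator_nonneg (fun _ _ => zero_le_one) b

theorem f_ge (k m : ℕ) (s x : ℝ) (hs : 0 < s) (hs1 : s ≤ 1) :
    ∑ a : Fin (k + 1) → Bool, 2 ^ k * F m s (4 ^ (k + 1) * (x - xa a)) ≤
      FCC.f (k + 1 + m) (s / 4 ^ (k + 1)) x := by
  unfold FCC.f
  calc ∑ a : Fin (k + 1) → Bool, 2 ^ k * F m s (4 ^ (k + 1) * (x - xa a)) ≤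
      ∑ a : Fin (k + 1) → Bool, ∑ v : Wd m, ∑ b : Fin (k + 1) → Bool,
        (FCC.psq (s / 4 ^ (k + 1)) (phi (a, v, b))).indicator (fun _ => (1 : ℝ)) x := by
        refine Finset.sum_le_sum fun a _ => ?_
        unfold F
        rw [Finset.mul_sum]
        refine Finset.sum_le_sum fun v _ => ?_
        by_cases hz : 4 ^ (k + 1) * (x - xa a) ∈ J s v
        · rw [indicator_of_mem hz, mul_one]
          have hz' := (mem_J v _).1 hz
          refine (count s _ hs hs1 hz'.1 hz'.2).trans ?_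
          refine Finset.sum_le_sum fun b _ => ?_
          by_cases hb : b ∈ {b : Fin (k + 1) → Bool |
              s * xa b ≤ 4 ^ m * (4 ^ (k + 1) * (x - xa a) - FCC.pr s v) ∧
              4 ^ m * (4 ^ (k + 1) * (x - xa a) - FCC.pr s v) ≤
                s * xa b + 1 + s / 4 ^ (k + 1)}
          · rw [indicator_of_mem hb, indicator_of_mem ((mem_phi s x (a, v, b)).2 hb)]
          · rw [indicator_of_notMem hb]
            exact indicator_nonneg (fun _ _ => zero_le_one) x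
        · rw [indicator_of_notMem hz, mul_zero]
          exact Finset.sum_nonneg fun b _ => indicator_nonneg (fun _ _ => zero_le_one) x
    _ = ∑ p : (Fin (k + 1) → Bool) × Wd m × (Fin (k + 1) → Bool),
        (FCC.psq (s / 4 ^ (k + 1)) (phi p)).indicator (fun _ => (1 : ℝ)) x := by
        rw [Fintype.sum_prod_type]
        refine Finset.sum_congr rfl fun a _ => ?_
        rw [Fintype.sum_prod_type]
    _ = ∑ w ∈ Finset.univ.image (phi (k := k + 1) (m := m)),
        (FCC.psq (s / 4 ^ (k + 1)) w).indicator (fun _ => (1 : ℝ)) x := by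
        rw [Finset.sum_image fun a _ b _ h => phi_inj h]
    _ ≤ _ := Finset.sum_le_univ_sum_of_nonneg fun w => indicator_nonneg (fun _ _ => zero_le_one) x

theorem f_le (m : ℕ) (s x : ℝ) (hs : 0 < s) :
    FCC.f m s x ≤ F m s (x + s / 4 / 4 ^ m) + F m s (x - s / 4 / 4 ^ m) := by
  unfold FCC.f F
  rw [← Finset.sum_add_distrib]
  refine Finset.sum_le_sum fun v _ => ?_
  have h0 : ∀ z : ℝ, 0 ≤ (J s v).indicator (fun _ => (1 : ℝ)) z := fun z =>
    indicator_nonneg (fun _ _ => zero_le_one) z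
  by_cases hx : x ∈ FCC.psq s v
  · rw [indicator_of_mem hx]
    have h4m : (0 : ℝ) < 4 ^ m := by positivity
    obtain ⟨h1, h2⟩ := hx
    have h3 : 0 ≤ 4 ^ m * (x - FCC.pr s v) := mul_nonneg h4m.le (by linarith)
    have h5 : 4 ^ m * (x - FCC.pr s v) ≤ 1 + s := by
      have : x - FCC.pr s v ≤ (1 + s) / 4 ^ m := by linarith
      rw [le_div_iff₀ h4m] at this
      linarith
    have e1 : 4 ^ m * (x + s / 4 / 4 ^ m - FCC.pr s v) =
        4 ^ m * (x - FCC.pr s v) + s / 4 := by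
      field_simp
      ring
    have e2 : 4 ^ m * (x - s / 4 / 4 ^ m - FCC.pr s v) =
        4 ^ m * (x - FCC.pr s v) - s / 4 := by
      field_simp
      ring
    by_cases h : 4 ^ m * (x - FCC.pr s v) ≤ 1 + s / 2
    · have hm : x + s / 4 / 4 ^ m ∈ J s v := by
        rw [mem_J, e1]
        constructor <;> linarith
      rw [indicator_of_mem hm]
      linarith [h0 (x - s / 4 / 4 ^ m)]
    · push Not at h
      have hm : x - s / 4 / 4 ^ m ∈ J s v := by
        rw [mem_J, e2]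
        constructor <;> linarith
      rw [indicator_of_mem hm]
      linarith [h0 (x + s / 4 / 4 ^ m)]
  · rw [indicator_of_notMem hx]
    exact add_nonneg (h0 _) (h0 _)

theorem S_le (m : ℕ) (s : ℝ) (hs : 0 < s) : FCC.S m s ≤ 4 * ∫ x, F m s x ^ 2 := by
  have hi := integrable_F_sq m s
  have hi1 : Integrable fun x => F m s (x + s / 4 / 4 ^ m) ^ 2 := hi.comp_add_right _
  have hi2 : Integrable fun x => F m s (x - s / 4 / 4 ^ m) ^ 2 := hi.comp_sub_right _
  have e1 : ∫ x, F m s (x + s / 4 / 4 ^ m) ^ 2 = ∫ x, F m s x ^ 2 :=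
    integral_add_right_eq_self (fun x => F m s x ^ 2) _
  have e2 : ∫ x, F m s (x - s / 4 / 4 ^ m) ^ 2 = ∫ x, F m s x ^ 2 :=
    integral_sub_right_eq_self (fun x => F m s x ^ 2) _
  unfold FCC.S
  calc ∫ x, FCC.f m s x ^ 2 ≤
      ∫ x, (2 * F m s (x + s / 4 / 4 ^ m) ^ 2 + 2 * F m s (x - s / 4 / 4 ^ m) ^ 2) := by
        refine integral_mono (FCC.integrable_f_sq m s) ((hi1.const_mul 2).add (hi2.const_mul 2)) ?_
        intro x
        have h1 := f_le m s x hs
        have h2 := FCC.f_nonneg m s x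
        show FCC.f m s x ^ 2 ≤ 2 * F m s (x + s / 4 / 4 ^ m) ^ 2 +
          2 * F m s (x - s / 4 / 4 ^ m) ^ 2
        nlinarith [sq_nonneg (F m s (x + s / 4 / 4 ^ m) - F m s (x - s / 4 / 4 ^ m))]
    _ = 4 * ∫ x, F m s x ^ 2 := by
        rw [integral_add (hi1.const_mul 2) (hi2.const_mul 2), integral_const_mul,
          integral_const_mul, e1, e2]
        ring

theorem S_ge (k m : ℕ) (s : ℝ) (hs : 0 < s) (hs1 : s ≤ 1) :
    2 ^ (k + 1) / 4 * ∫ x, F m s x ^ 2 ≤ FCC.S (k + 1 + m) (s / 4 ^ (k + 1)) := by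
  have hi : ∀ a : Fin (k + 1) → Bool, Integrable fun x =>
      (2 ^ k * F m s (4 ^ (k + 1) * (x - xa a))) ^ 2 := by
    intro a
    have h := FCC.integrable_scale ((integrable_F_sq m s).const_mul ((2 ^ k) ^ 2)) (k + 1) (xa a)
    refine h.congr (Filter.Eventually.of_forall fun x => ?_)
    show (2 ^ k) ^ 2 * F m s (4 ^ (k + 1) * (x - xa a)) ^ 2 = _
    ring
  have h1 : ∀ x, ∑ a : Fin (k + 1) → Bool, (2 ^ k * F m s (4 ^ (k + 1) * (x - xa a))) ^ 2 ≤
      FCC.f (k + 1 + m) (s / 4 ^ (k + 1)) x ^ 2 := by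
    intro x
    have h0 : ∀ a ∈ (Finset.univ : Finset (Fin (k + 1) → Bool)),
        0 ≤ 2 ^ k * F m s (4 ^ (k + 1) * (x - xa a)) := fun a _ =>
      mul_nonneg (by positivity) (F_nonneg _ _ _)
    refine (FCC.sum_sq_le _ _ h0).trans ?_
    exact pow_le_pow_left₀ (Finset.sum_nonneg h0) (f_ge k m s x hs hs1) 2
  have h2 : ∫ x, ∑ a : Fin (k + 1) → Bool, (2 ^ k * F m s (4 ^ (k + 1) * (x - xa a))) ^ 2 =
      2 ^ (k + 1) / 4 * ∫ x, F m s x ^ 2 := by
    rw [integral_finsetSum _ fun a _ => hi a]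
    have : ∀ a : Fin (k + 1) → Bool, ∫ x, (2 ^ k * F m s (4 ^ (k + 1) * (x - xa a))) ^ 2 =
        (∫ x, (2 ^ k * F m s x) ^ 2) / 4 ^ (k + 1) := fun a =>
      FCC.integral_scale (fun x => (2 ^ k * F m s x) ^ 2) (k + 1) (xa a)
    rw [Finset.sum_congr rfl fun a _ => this a, Finset.sum_const, Finset.card_univ,
      Fintype.card_fun, Fintype.card_bool, Fintype.card_fin, nsmul_eq_mul]
    have e : ∫ x, (2 ^ k * F m s x) ^ 2 = (2 ^ k) ^ 2 * ∫ x, F m s x ^ 2 := by
      rw [← integral_const_mul]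
      refine integral_congr_ae (Filter.Eventually.of_forall fun x => ?_)
      show (2 ^ k * F m s x) ^ 2 = (2 ^ k) ^ 2 * F m s x ^ 2
      ring
    rw [e]
    have h4 : (4 : ℝ) ^ (k + 1) = 4 * (2 ^ k) ^ 2 := by
      rw [pow_succ, ← pow_mul, mul_comm k 2, pow_mul]
      norm_num
      ring
    rw [h4]
    push_cast
    field_simp
  rw [← h2]
  unfold FCC.S
  exact integral_mono (integrable_finsetSum _ fun a _ => hi a) (FCC.integrable_f_sq _ _) h1

end SCLS

theorem SCLS_thm : Stmt_SCLS := by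
  intro N k s hs hs1 hk
  obtain ⟨m, rfl⟩ := Nat.exists_eq_add_of_le hk
  rw [Nat.add_sub_cancel_left]
  rcases k with _ | k
  · have e : s / 4 ^ 0 = s := by norm_num
    rw [e, pow_zero, one_mul, Nat.zero_add]
    linarith [FCC.S_nonneg m s]
  · have h1 := SCLS.S_ge k m s hs hs1
    have h2 := SCLS.S_le m s hs
    have h3 : (0 : ℝ) < 2 ^ (k + 1) := by positivity
    calc 2 ^ (k + 1) * FCC.S m s ≤ 2 ^ (k + 1) * (4 * ∫ x, SCLS.F m s x ^ 2) :=
          mul_le_mul_of_nonneg_left h2 h3.le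
      _ = 16 * (2 ^ (k + 1) / 4 * ∫ x, SCLS.F m s x ^ 2) := by ring
      _ ≤ _ := mul_le_mul_of_nonneg_left h1 (by norm_num)

end Pool.Agent.FCK
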