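import Pool.Agent.FCK.Stmts

/-!
# STEP: one more generation (MP_98e313_an), helper7
-/

set_option autoImplicit false

namespace Pool.Agent.FCK

open MeasureTheory Set
open Pool.Agent.FCC (Wd bv agr)

namespace STEP

/-- The projection of the square of a composed word. -/
theorem mem_psq {lam : ℕ → ℝ} {N m : ℕ} {t x : ℝ} (hs : 0 < sg lam N) (u : Wd N) (v : Wd m) :
    x ∈ psq lam t (Fin.append u v : Wd (N + m)) ↔
      (x - pr lam t u) / sg lam N ∈ psq (sh N lam) t v := by
  unfold psq
  rw [pr_append, sg_add, mem_Icc, mem_Icc, le_div_iff₀ hs, div_le_iff₀ hs]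
  constructor
  · rintro ⟨h1, h2⟩
    constructor
    · linarith
    · nlinarith
  · rintro ⟨h1, h2⟩
    constructor
    · linarith
    · nlinarith

/-- The projection of generation `N + m`. -/
theorem P_add {lam : ℕ → ℝ} {N m : ℕ} {t : ℝ} (hs : 0 < sg lam N) :
    P lam (N + m) t = ⋃ u : Wd N, {x | (x - pr lam t u) / sg lam N ∈ P (sh N lam) m t} := by
  ext x
  unfold P
  simp only [mem_iUnion, mem_ofPred_eq]
  constructor
  · rintro ⟨w, hw⟩
    refine ⟨fun i => w (Fin.castAdd m i), fun j => w (Fin.natAdd N j), ?_⟩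
    rw [← mem_psq hs, Fin.append_castAdd_natAdd]
    exact hw
  · rintro ⟨u, v, h⟩
    exact ⟨Fin.append u v, (mem_psq hs u v).2 h⟩

theorem sg_eq {lam : ℕ → ℝ} {N : ℕ} (h : ∀ i < N, lam i = 1 / 4) : sg lam N = 1 / 4 ^ N := by
  unfold sg
  rw [Finset.prod_congr rfl fun i hi => h i (Finset.mem_range.1 hi), Finset.prod_const,
    Finset.card_range, one_div_pow]

theorem px_eq {lam : ℕ → ℝ} {N : ℕ} (h : ∀ i < N, lam i = 1 / 4) (u : Wd N) :
    px lam u = FCC.px u ∧ py lam u = FCC.py u := by
  have key : ∀ (b : Bool) (i : Fin N), bt b * ((1 - lam i) * sg lam i) =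
      bv b / 4 ^ (i.val + 1) := by
    intro b i
    rw [h i i.isLt, sg_eq fun j hj => h j (hj.trans i.isLt)]
    cases b
    · rw [bt_false]
      unfold FCC.bv
      simp
    · rw [bt_true]
      unfold FCC.bv
      have h4 : (4 : ℝ) ^ (i : ℕ) ≠ 0 := by positivity
      rw [pow_succ]
      simp only [if_true]
      field_simp
      norm_num
  constructor
  · unfold px FCC.px
    exact Finset.sum_congr rfl fun i _ => key _ i
  · unfold py FCC.py
    exact Finset.sum_congr rfl fun i _ => key _ i

theorem card1 : Fintype.card (Wd 1) = 4 := by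
  decide

end STEP

open STEP in
theorem STEP_thm : Stmt_STEP := by
  constructor
  · intro lam n t hlam ht
    have h0 : 0 < lam 0 := (hlam 0).1
    have hs1 : sg lam 1 = lam 0 := by
      rw [sg_succ, sg_zero, one_mul]
    have hs : 0 < sg lam 1 := by rw [hs1]; exact h0
    unfold L
    rw [Nat.add_comm n 1, P_add hs, hs1]
    have hR : volume (P (sh 1 lam) n t) ≠ ⊤ := volume_P_ne_top _ _ _
    have hone : ∀ u : Wd 1, volume {x | (x - pr lam t u) / lam 0 ∈ P (sh 1 lam) n t} =
        ENNReal.ofReal (lam 0) * volume (P (sh 1 lam) n t) := by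
      intro u
      have he : {x | (x - pr lam t u) / lam 0 ∈ P (sh 1 lam) n t} =
          (fun x => x + (- pr lam t u)) ⁻¹' ((fun x => (lam 0)⁻¹ * x) ⁻¹' P (sh 1 lam) n t) := by
        ext x
        simp only [mem_ofPred_eq, mem_preimage]
        rw [← sub_eq_add_neg, inv_mul_eq_div]
      rw [he, measure_preimage_add_right, Real.volume_preimage_mul_left (inv_ne_zero h0.ne'),
        inv_inv, abs_of_pos h0]
    have hle : volume (⋃ u : Wd 1, {x | (x - pr lam t u) / lam 0 ∈ P (sh 1 lam) n t}) ≤
        ENNReal.ofReal (4 * lam 0) * volume (P (sh 1 lam) n t) := by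
      refine (measure_iUnion_fintype_le _ _).trans ?_
      rw [Finset.sum_congr rfl fun u _ => hone u, Finset.sum_const, Finset.card_univ, card1,
        nsmul_eq_mul, ENNReal.ofReal_mul (by norm_num), mul_assoc]
      refine le_of_eq ?_
      congr 1
      norm_num
    have hfin : ENNReal.ofReal (4 * lam 0) * volume (P (sh 1 lam) n t) ≠ ⊤ :=
      ENNReal.mul_ne_top ENNReal.ofReal_ne_top hR
    have := ENNReal.toReal_mono hfin hle
    rw [ENNReal.toReal_mul, ENNReal.toReal_ofReal (by positivity)] at this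
    exact this
  · intro lam N m t hN
    have hs : 0 < sg lam N := by
      rw [sg_eq hN]
      positivity
    rw [P_add hs]
    unfold ext
    refine iUnion_congr fun u => ?_
    obtain ⟨h1, h2⟩ := px_eq hN u
    have h3 : pr lam t u = FCC.pr t u := by
      unfold pr FCC.pr
      rw [h1, h2]
    ext x
    simp only [mem_ofPred_eq]
    rw [h3, sg_eq hN, div_div_eq_mul_div, div_one, mul_comm]

end Pool.Agent.FCK
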