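import Pool.Agent.FCK.Stmts
import Pool.Agent.FCC.STOP
import Pool.Agent.FCC.VIT

/-!
# One stretch of ratios `1/4` with a large second moment
-/

set_option autoImplicit false

namespace Pool.Agent.FCK

open MeasureTheory Set

namespace STRK

theorem final {c ρ : ℝ} (hc : 0 < c) (hρ : 0 < ρ) : ρ - c * ρ ^ 2 ≤ 1 / (1 / ρ + c) := by
  have e : 1 / (1 / ρ + c) = ρ / (1 + c * ρ) := by
    field_simp
  rw [e, le_div_iff₀ (by positivity)]
  have : (ρ - c * ρ ^ 2) * (1 + c * ρ) = ρ - c ^ 2 * ρ ^ 3 := by ring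
  rw [this]
  have : 0 ≤ c ^ 2 * ρ ^ 3 := by positivity
  linarith

end STRK

theorem STRK_of (hstop : FCC.Stmt_STOP) (hvit : FCC.Stmt_VIT) (hrec : Stmt_RECK) : Stmt_STRK := by
  intro N t ρ R ht0 ht1 hR hRm hρ hρ2 hRρ hS
  set K : ℕ := ⌈10 / ρ⌉₊ with hKdef
  have hK1 : 10 / ρ ≤ K := Nat.le_ceil _
  have hK2 : (K : ℝ) < 10 / ρ + 1 := Nat.ceil_lt_add_one (by positivity)
  have h5 : 5 ≤ 10 / ρ := by
    rw [le_div_iff₀ hρ]; linarith
  have h1 : 1 ≤ 2 / ρ := by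
    rw [le_div_iff₀ hρ]; linarith
  have hK3 : (K : ℝ) ≤ 12 / ρ := by
    have : 12 / ρ = 10 / ρ + 2 / ρ := by ring
    linarith
  have hK5 : (5 : ℝ) ≤ K := h5.trans hK1
  have hK2' : 2 ≤ K := by
    have : (2 : ℝ) ≤ K := by linarith
    exact_mod_cast this
  have hK0 : (0 : ℝ) < K := by linarith
  have hS' : 4 * (K : ℝ) < FCC.S N t := by
    have : 4 * (12 / ρ) = 48 / ρ := by ring
    linarith
  have ha := hstop N K t ht0 ht1 hK2' hS'
  obtain ⟨B, hB, hdis, hA⟩ := hvit N K t ht0 ht1 (by omega)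
  obtain ⟨η, hη1, hη2, hL⟩ := hrec N K t B ht0 ht1 hB hdis
  set s : ℝ := ∑ b ∈ B, (1 : ℝ) / 4 ^ b.1 with hs
  have hs1 : 1 / (32 * (K : ℝ) ^ 2) ≤ 20 * s := ha.trans hA
  have hs2 : ρ ^ 2 / 92160 ≤ s := by
    have h6 : (K : ℝ) ^ 2 ≤ (12 / ρ) ^ 2 := pow_le_pow_left₀ hK0.le hK3 2
    have h7 : 1 / (32 * (12 / ρ) ^ 2) ≤ 1 / (32 * (K : ℝ) ^ 2) :=
      one_div_le_one_div_of_le (by positivity) (by linarith)
    have h8 : 1 / (32 * (12 / ρ) ^ 2) = 20 * (ρ ^ 2 / 92160) := by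
      field_simp
      norm_num
    linarith
  have h9 := hL R hR hRm
  have h10 : (1 - η) * (volume R).toReal ≤ (1 - η) * ρ :=
    mul_le_mul_of_nonneg_left hRρ (by linarith)
  have h11 : (1 - η) * ρ ≤ (1 - K * s) * ρ := mul_le_mul_of_nonneg_right (by linarith) hρ.le
  have hs0 : 0 ≤ s := le_trans (by positivity) hs2
  have h12 : 10 ≤ K * ρ := by
    rw [div_le_iff₀ hρ] at hK1
    exact hK1
  have h13 : 5 * s + (1 - K * s) * ρ ≤ ρ - 5 * s := by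
    have : 10 * s ≤ K * ρ * s := mul_le_mul_of_nonneg_right h12 hs0
    linarith
  have h14 : ρ - 5 * s ≤ ρ - 1 / 18432 * ρ ^ 2 := by linarith
  exact (h9.trans (by linarith)).trans (STRK.final (by norm_num) hρ)

theorem STRK_thm : Stmt_RECK → Stmt_STRK := STRK_of FCC.STOP_thm FCC.VIT_thm

end Pool.Agent.FCK
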