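import Pool.Agent.FCK.Stmts
import Pool.Agent.FCC.SUMM

/-!
# Corner Cantor sets: a density with bounded discrete Cauchy transform
-/

set_option autoImplicit false

namespace Pool.Agent.FCK

open MeasureTheory Set
open Pool.Agent.FCC (Wd bv agr av)

namespace SUMK

theorem Tj_sub (lam : ℕ → ℝ) (j : ℕ) {n : ℕ} (g h : Wd n → ℂ) (w : Wd n) :
    Tj lam j (fun v => g v - h v) w = Tj lam j g w - Tj lam j h w := by
  unfold Tj
  rw [← Finset.sum_sub_distrib]
  exact Finset.sum_congr rfl fun v _ => sub_div _ _ _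

theorem Tj_const (lam : ℕ → ℝ) (j : ℕ) {n : ℕ} (h : Wd n → ℂ) (w : Wd n)
    (hh : ∀ v, agr j w v → h v = h w) :
    Tj lam j h w = h w * Tj lam j (fun _ => 1) w := by
  unfold Tj
  rw [Finset.mul_sum]
  refine Finset.sum_congr rfl fun v hv => ?_
  simp only [Finset.mem_filter] at hv
  rw [hh v hv.2.1, mul_one_div]

/-- The differences of a slowly varying sequence. -/
theorem step_bd (β ν : ℕ → ℝ) (n : ℕ) (s : ℝ) (h : ∀ k < n, |β (k + 1) - β k| ≤ s * ν k)
    {j k : ℕ} (hjk : j ≤ k) (hk : k ≤ n) : |β k - β j| ≤ s * ∑ i ∈ Finset.Ico j k, ν i := by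
  induction k, hjk using Nat.le_induction with
  | base => simp
  | succ k hjk ih =>
    have h1 := ih (by omega)
    have h2 := h k (by omega)
    have h4 : β (k + 1) - β j = (β k - β j) + (β (k + 1) - β k) := by ring
    rw [h4, Finset.sum_Ico_succ_top hjk, mul_add]
    exact (abs_add_le _ _).trans (add_le_add h1 h2)

/-- The recursion for the double sums. -/
theorem F_succ (θ ν : ℕ → ℝ) (hν : ∀ k, ν k = ∑ j ∈ Finset.range (k + 1), θ j / 2 ^ (k - j))
    (k : ℕ) :
    ∑ j ∈ Finset.range (k + 2), (∑ i ∈ Finset.Ico j (k + 1), ν i) * (θ j / 2 ^ (k + 1 - j)) =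
      (∑ j ∈ Finset.range (k + 1), (∑ i ∈ Finset.Ico j k, ν i) * (θ j / 2 ^ (k - j)) +
        ν k ^ 2) / 2 := by
  rw [Finset.sum_range_succ, Finset.Ico_self, Finset.sum_empty, zero_mul, add_zero]
  have h1 : ∀ j ∈ Finset.range (k + 1),
      (∑ i ∈ Finset.Ico j (k + 1), ν i) * (θ j / 2 ^ (k + 1 - j)) =
      ((∑ i ∈ Finset.Ico j k, ν i) * (θ j / 2 ^ (k - j)) + ν k * (θ j / 2 ^ (k - j))) / 2 := by
    intro j hj
    have hj' : j ≤ k := by rw [Finset.mem_range] at hj; omega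
    rw [Finset.sum_Ico_succ_top hj', show k + 1 - j = (k - j) + 1 by omega, pow_succ]
    field_simp
  rw [Finset.sum_congr rfl h1, ← Finset.sum_div, Finset.sum_add_distrib, ← Finset.mul_sum, ← hν k,
    sq]

theorem F_sum (θ ν : ℕ → ℝ) (hν : ∀ k, ν k = ∑ j ∈ Finset.range (k + 1), θ j / 2 ^ (k - j))
    (n : ℕ) :
    ∑ k ∈ Finset.range n,
        ∑ j ∈ Finset.range (k + 1), (∑ i ∈ Finset.Ico j k, ν i) * (θ j / 2 ^ (k - j)) +
      2 * ∑ j ∈ Finset.range (n + 1), (∑ i ∈ Finset.Ico j n, ν i) * (θ j / 2 ^ (n - j)) =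
      ∑ k ∈ Finset.range n, ν k ^ 2 := by
  induction n with
  | zero => simp
  | succ n ih =>
    rw [Finset.sum_range_succ, F_succ θ ν hν n, Finset.sum_range_succ (fun k => ν k ^ 2), ← ih]
    ring

theorem F_le (θ ν : ℕ → ℝ) (hθ : ∀ j, 0 ≤ θ j)
    (hν : ∀ k, ν k = ∑ j ∈ Finset.range (k + 1), θ j / 2 ^ (k - j)) (n : ℕ) :
    ∑ k ∈ Finset.range n,
        ∑ j ∈ Finset.range (k + 1), (∑ i ∈ Finset.Ico j k, ν i) * (θ j / 2 ^ (k - j)) ≤
      ∑ k ∈ Finset.range n, ν k ^ 2 := by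
  have hν0 : ∀ k, 0 ≤ ν k := fun k => by
    rw [hν k]
    exact Finset.sum_nonneg fun j _ => div_nonneg (hθ j) (by positivity)
  rw [← F_sum θ ν hν n]
  have : 0 ≤ ∑ j ∈ Finset.range (n + 1), (∑ i ∈ Finset.Ico j n, ν i) * (θ j / 2 ^ (n - j)) :=
    Finset.sum_nonneg fun j _ => mul_nonneg (Finset.sum_nonneg fun i _ => hν0 i)
      (div_nonneg (hθ j) (by positivity))
  linarith

/-- The double sum with the weights `β j` instead of `β k`. -/
theorem exch (θ ν : ℕ → ℝ) (hθ : ∀ j, 0 ≤ θ j)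
    (hν : ∀ k, ν k = ∑ j ∈ Finset.range (k + 1), θ j / 2 ^ (k - j)) (β : ℕ → ℝ) (n : ℕ)
    (A s : ℝ) (hA : 0 ≤ A) (hs : 0 ≤ s) (h : ∀ k < n, |β (k + 1) - β k| ≤ s * ν k)
    (d : ℕ → ℕ → ℂ) (hd : ∀ k j, j ≤ k → k < n → ‖d k j‖ ≤ A * (θ j / 2 ^ (k - j))) :
    ‖∑ j ∈ Finset.range n, (β j : ℂ) * ∑ k ∈ Finset.Ico j n, d k j‖ ≤
      ‖∑ k ∈ Finset.range n, (β k : ℂ) * ∑ j ∈ Finset.range (k + 1), d k j‖ +
        s * A * ∑ k ∈ Finset.range n, ν k ^ 2 := by
  have hν0 : ∀ k, 0 ≤ ν k := fun k => by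
    rw [hν k]
    exact Finset.sum_nonneg fun j _ => div_nonneg (hθ j) (by positivity)
  have e1 : ∑ j ∈ Finset.range n, (β j : ℂ) * ∑ k ∈ Finset.Ico j n, d k j =
      ∑ k ∈ Finset.range n, ∑ j ∈ Finset.range (k + 1), (β j : ℂ) * d k j := by
    rw [Finset.sum_congr rfl fun j _ => Finset.mul_sum _ _ _]
    rw [Finset.range_eq_Ico, Finset.sum_Ico_Ico_comm]
    simp only [Finset.range_eq_Ico]
  have e2 : ∑ k ∈ Finset.range n, (β k : ℂ) * ∑ j ∈ Finset.range (k + 1), d k j =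
      ∑ k ∈ Finset.range n, ∑ j ∈ Finset.range (k + 1), (β k : ℂ) * d k j :=
    Finset.sum_congr rfl fun j _ => Finset.mul_sum _ _ _
  have e3 : ∑ k ∈ Finset.range n, ∑ j ∈ Finset.range (k + 1), (β j : ℂ) * d k j =
      ∑ k ∈ Finset.range n, ∑ j ∈ Finset.range (k + 1), (β k : ℂ) * d k j -
      ∑ k ∈ Finset.range n, ∑ j ∈ Finset.range (k + 1), ((β k - β j : ℝ) : ℂ) * d k j := by
    rw [← Finset.sum_sub_distrib]
    refine Finset.sum_congr rfl fun k _ => ?_
    rw [← Finset.sum_sub_distrib]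
    refine Finset.sum_congr rfl fun j _ => ?_
    push_cast
    ring
  have h4 : ‖∑ k ∈ Finset.range n, ∑ j ∈ Finset.range (k + 1), ((β k - β j : ℝ) : ℂ) * d k j‖ ≤
      s * A * ∑ k ∈ Finset.range n, ν k ^ 2 := by
    refine (norm_sum_le _ _).trans ?_
    have h5 : ∀ k ∈ Finset.range n,
        ‖∑ j ∈ Finset.range (k + 1), ((β k - β j : ℝ) : ℂ) * d k j‖ ≤
        s * A * ∑ j ∈ Finset.range (k + 1), (∑ i ∈ Finset.Ico j k, ν i) * (θ j / 2 ^ (k - j)) := by
      intro k hk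
      rw [Finset.mem_range] at hk
      refine (norm_sum_le _ _).trans ?_
      rw [Finset.mul_sum]
      refine Finset.sum_le_sum fun j hj => ?_
      have hj' : j ≤ k := by rw [Finset.mem_range] at hj; omega
      rw [norm_mul, Complex.norm_real, Real.norm_eq_abs]
      calc |β k - β j| * ‖d k j‖ ≤ (s * ∑ i ∈ Finset.Ico j k, ν i) * (A * (θ j / 2 ^ (k - j))) :=
            mul_le_mul (step_bd β ν n s h hj' hk.le) (hd k j hj' hk) (norm_nonneg _)
              (mul_nonneg hs (Finset.sum_nonneg fun i _ => hν0 i))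
        _ = s * A * ((∑ i ∈ Finset.Ico j k, ν i) * (θ j / 2 ^ (k - j))) := by ring
    calc ∑ k ∈ Finset.range n, ‖∑ j ∈ Finset.range (k + 1), ((β k - β j : ℝ) : ℂ) * d k j‖
        ≤ ∑ k ∈ Finset.range n, s * A *
            ∑ j ∈ Finset.range (k + 1), (∑ i ∈ Finset.Ico j k, ν i) * (θ j / 2 ^ (k - j)) :=
          Finset.sum_le_sum h5
      _ = s * A * ∑ k ∈ Finset.range n,
            ∑ j ∈ Finset.range (k + 1), (∑ i ∈ Finset.Ico j k, ν i) * (θ j / 2 ^ (k - j)) := by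
          rw [Finset.mul_sum]
      _ ≤ s * A * ∑ k ∈ Finset.range n, ν k ^ 2 :=
          mul_le_mul_of_nonneg_left (F_le θ ν hθ hν n) (mul_nonneg hs hA)
  rw [e1, e2, e3]
  exact (norm_sub_le _ _).trans (add_le_add le_rfl h4)

/-- The double sum of the errors. -/
theorem dbl (θ ν : ℕ → ℝ) (hν : ∀ k, ν k = ∑ j ∈ Finset.range (k + 1), θ j / 2 ^ (k - j))
    (n : ℕ) (A s : ℝ) (D : ℕ → ℕ → ℂ)
    (hD : ∀ k j, j ≤ k → k < n → ‖D j k‖ ≤ A * (s * ν k) * (θ j / 2 ^ (k - j))) :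
    ‖∑ j ∈ Finset.range n, ∑ k ∈ Finset.Ico j n, D j k‖ ≤
      s * A * ∑ k ∈ Finset.range n, ν k ^ 2 := by
  have e1 : ∑ j ∈ Finset.range n, ∑ k ∈ Finset.Ico j n, D j k =
      ∑ k ∈ Finset.range n, ∑ j ∈ Finset.range (k + 1), D j k := by
    rw [Finset.range_eq_Ico, Finset.sum_Ico_Ico_comm]
    simp only [Finset.range_eq_Ico]
  rw [e1, Finset.mul_sum]
  refine (norm_sum_le _ _).trans (Finset.sum_le_sum fun k hk => ?_)
  rw [Finset.mem_range] at hk
  refine (norm_sum_le _ _).trans ?_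
  calc ∑ j ∈ Finset.range (k + 1), ‖D j k‖
      ≤ ∑ j ∈ Finset.range (k + 1), A * (s * ν k) * (θ j / 2 ^ (k - j)) :=
        Finset.sum_le_sum fun j hj => hD k j (by rw [Finset.mem_range] at hj; omega) hk
    _ = s * A * ν k ^ 2 := by
        rw [← Finset.mul_sum, ← hν k]
        ring

end SUMK

open SUMK in
theorem SUMK_thm : FCC.Stmt_AVP → Stmt_MARK → Stmt_KERK → Stmt_NUK → Stmt_SUMK := by
  intro hAVP hMARK hKERK hNUK δ lam n hδ hδ4 hlow
  obtain ⟨K1, K2, K3, K4⟩ := hKERK δ lam n hδ hδ4 hlow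
  have hpos : ∀ k, 0 < lam k := fun k => lt_of_lt_of_le (by norm_num) (hlow k).1
  have hθ : ∀ j, 0 ≤ th lam j := fun j => (th_pos hpos j).le
  have hν : ∀ k, nu lam k = ∑ j ∈ Finset.range (k + 1), th lam j / 2 ^ (k - j) := fun k => rfl
  have hν0 : ∀ k, 0 ≤ nu lam k := fun k => by
    rw [hν k]
    exact Finset.sum_nonneg fun j _ => div_nonneg (hθ j) (by positivity)
  have hNU := hNUK lam n
  have hTh1 : 1 ≤ Th lam n := Th_ge_one lam n
  have hTh0 : 0 < Th lam n := lt_of_lt_of_le one_pos hTh1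
  obtain ⟨A, hA⟩ : ∃ A : ℝ, A = 1 / δ ^ 2 := ⟨_, rfl⟩
  have hA0 : 0 < A := by rw [hA]; positivity
  obtain ⟨R, hR⟩ : ∃ R : ℝ, R = √(Th lam n) := ⟨_, rfl⟩
  have hR0 : 0 < R := by rw [hR]; exact Real.sqrt_pos.2 hTh0
  have hRR : R * R = Th lam n := by rw [hR]; exact Real.mul_self_sqrt hTh0.le
  have hQ : √(4 * A ^ 2 * Th lam n) = 2 * A * R := by
    rw [← hRR, show 4 * A ^ 2 * (R * R) = (2 * A * R) ^ 2 by ring]
    exact Real.sqrt_sq (by positivity)
  rw [← hA] at K3 K4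
  rw [← hR]
  obtain ⟨β, hβ0, hβagr, hβ01, hβs, hβav, hβm⟩ := hMARK n (4 * A ^ 2 * Th lam n)
    (fun k => A * nu lam k)
    (fun k u => ∑ j ∈ Finset.range (k + 1),
      (av (k + 1) (Tj lam j fun _ => 1) u - av k (Tj lam j fun _ => 1) u))
    (by positivity) (fun k => mul_nonneg hA0.le (hν0 k))
    (by
      simp only [mul_pow]
      rw [← Finset.mul_sum]
      have := mul_le_mul_of_nonneg_left hNU (sq_nonneg A)
      linarith)
    (by
      intro k hk u v huv
      refine Finset.sum_congr rfl fun j _ => ?_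
      rw [(hAVP n (k + 1) hk).1 _ u v huv,
        (hAVP n k hk.le).1 _ u v (FCC.agr_mono (Nat.le_succ k) huv)])
    (by
      intro k hk w
      rw [FCC.SUMM.av_sum k (Finset.range (k + 1))
        (fun j u => av (k + 1) (Tj lam j fun _ => 1) u - av k (Tj lam j fun _ => 1) u) w]
      refine Finset.sum_eq_zero fun j _ => ?_
      rw [FCC.SUMM.av_sub, (hAVP n k hk.le).2.2.1 _ (k + 1) w (Nat.le_succ k) hk,
        (hAVP n k hk.le).2.2.1 _ k w le_rfl hk.le, sub_self])
    (by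
      intro k hk w
      refine (norm_sum_le _ _).trans ?_
      show _ ≤ A * nu lam k
      rw [hν k, Finset.mul_sum]
      exact Finset.sum_le_sum fun j hj => K3 k j (by rw [Finset.mem_range] at hj; omega) hk w)
  rw [hQ] at hβs hβm
  have hβs' : ∀ k < n, ∀ w, |β (k + 1) w - β k w| ≤ 1 / (2 * R) * nu lam k := by
    intro k hk w
    refine (hβs k hk w).trans (le_of_eq ?_)
    show A * nu lam k / (2 * A * R) = _
    field_simp
  have hs0 : (0 : ℝ) ≤ 1 / (2 * R) := by positivity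
  have hfin : 1 / (2 * R) * A * ∑ k ∈ Finset.range n, nu lam k ^ 2 ≤ 2 * A * R := by
    calc 1 / (2 * R) * A * ∑ k ∈ Finset.range n, nu lam k ^ 2
        ≤ 1 / (2 * R) * A * (4 * Th lam n) := mul_le_mul_of_nonneg_left hNU (by positivity)
      _ = 2 * A * R := by
        rw [← hRR]
        field_simp
        ring
  refine ⟨β n, fun w => hβ01 n le_rfl w, ?_, ?_⟩
  · -- the sum
    have hs : ∀ k ≤ n, ∑ w, (β k w : ℂ) = 4 ^ n / 2 := by
      intro k
      induction k with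
      | zero =>
        intro _
        rw [Finset.sum_congr rfl fun w _ => by rw [hβ0 w], Finset.sum_const, Finset.card_univ,
          FCC.card_Wd, nsmul_eq_mul]
        push_cast
        ring
      | succ k ih =>
        intro hk
        have h1 := ih (by omega)
        have h2 : ∑ w, ((β (k + 1) w - β k w : ℝ) : ℂ) = 0 := by
          have w0 : Wd n := fun _ => (true, true)
          have h3 := (hAVP n 0 (Nat.zero_le n)).2.2.1
            (fun v => ((β (k + 1) v - β k v : ℝ) : ℂ)) k w0 (Nat.zero_le k) (by omega)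
          have h4 : av k (fun v : Wd n => ((β (k + 1) v - β k v : ℝ) : ℂ)) = fun _ => 0 :=
            funext fun w => hβav k hk w
          rw [h4, FCC.SUMM.av_zero, FCC.SUMM.av_zero, Finset.sum_const_zero, zero_div, eq_comm,
            div_eq_zero_iff] at h3
          rcases h3 with h3 | h3
          · exact h3
          · exact absurd h3 (pow_ne_zero _ (by norm_num))
        have h5 : ∑ w, (β (k + 1) w : ℂ) = ∑ w, (β k w : ℂ) +
            ∑ w, ((β (k + 1) w - β k w : ℝ) : ℂ) := by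
          rw [← Finset.sum_add_distrib]
          refine Finset.sum_congr rfl fun w _ => ?_
          push_cast
          ring
        rw [h5, h2, add_zero, h1]
    have h := hs n le_rfl
    have h' : ((∑ w, β n w : ℝ) : ℂ) = ((4 ^ n / 2 : ℝ) : ℂ) := by
      push_cast
      exact h
    exact_mod_cast h'
  · -- the transform
    intro w
    have hT : T lam (fun v => (β n v : ℂ)) w = ∑ j ∈ Finset.range n,
        ((β j w : ℂ) * ∑ k ∈ Finset.Ico j n,
          (av (k + 1) (Tj lam j fun _ => 1) w - av k (Tj lam j fun _ => 1) w) +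
        ∑ k ∈ Finset.Ico j n, Tj lam j (fun v => ((β (k + 1) v - β k v : ℝ) : ℂ)) w) := by
      rw [K1]
      refine Finset.sum_congr rfl fun j hj => ?_
      have hj' : j < n := Finset.mem_range.1 hj
      rw [FCC.SUMM.tel (fun k => av k (Tj lam j fun _ => 1) w) hj'.le]
      have h1 : av n (Tj lam j fun _ : Wd n => (1 : ℂ)) w = Tj lam j (fun _ => 1) w :=
        (hAVP n n le_rfl).2.1 _ w w rfl
      have h2 := K2 j j le_rfl hj' w
      have h3 := FCC.SUMM.tel (fun k => Tj lam j (fun v => (β k v : ℂ)) w) hj'.le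
      have h4 : ∀ k, Tj lam j (fun v => ((β (k + 1) v - β k v : ℝ) : ℂ)) w =
          Tj lam j (fun v => (β (k + 1) v : ℂ)) w - Tj lam j (fun v => (β k v : ℂ)) w := by
        intro k
        rw [← Tj_sub]
        simp only [Complex.ofReal_sub]
      rw [Finset.sum_congr rfl fun k _ => h4 k, h3, h1, h2, sub_zero]
      have h5 := Tj_const lam j (fun v => (β j v : ℂ)) w
        (fun v hv => by rw [hβagr j hj'.le v w (FCC.agr_symm hv)])
      rw [← h5]
      ring
    have hE := dbl (th lam) (nu lam) hν n A (1 / (2 * R))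
      (fun j k => Tj lam j (fun v => ((β (k + 1) v - β k v : ℝ) : ℂ)) w)
      (fun k j hjk hk => K4 k j hjk hk (fun v => ((β (k + 1) v - β k v : ℝ) : ℂ))
        (1 / (2 * R) * nu lam k) (fun v => by
          rw [Complex.norm_real, Real.norm_eq_abs]; exact hβs' k hk v)
        (fun v => hβav k hk v) w)
    have hX := exch (th lam) (nu lam) hθ hν (fun k => β k w) n A (1 / (2 * R)) hA0.le hs0
      (fun k hk => hβs' k hk w)
      (fun k j => av (k + 1) (Tj lam j fun _ => 1) w - av k (Tj lam j fun _ => 1) w)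
      (fun k j hjk hk => K3 k j hjk hk w)
    have hM := hβm w
    have hC : 8 / δ ^ 2 * R = 8 * A * R := by rw [hA]; ring
    rw [hC, hT, Finset.sum_add_distrib]
    refine (norm_add_le _ _).trans ?_
    linarith

end Pool.Agent.FCK
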