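import Pool.Agent.FCK.Stmts

/-!
# The second moment in the directions `t ∈ [1/4, 1/2]`
-/

namespace Pool.Agent.FCK

open MeasureTheory Set

namespace SYMS

open FCC

/-- The word with first `x`-digit `a`, last `y`-digit `b` and the other digits from `v` (with the
coordinates exchanged). -/
def mk {M : ℕ} (a b : Bool) (v : Wd M) : Wd (M + 1) := fun i =>
  ((Fin.cons a (fun i => (v i).2) : Fin (M + 1) → Bool) i,
    (Fin.snoc (fun i => (v i).1) b : Fin (M + 1) → Bool) i)

theorem mk_inj {M : ℕ} {a b a' b' : Bool} {v v' : Wd M} (h : mk a b v = mk a' b' v') :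
    a = a' ∧ b = b' ∧ v = v' := by
  have h1 : (Fin.cons a (fun i => (v i).2) : Fin (M + 1) → Bool) =
      Fin.cons a' (fun i => (v' i).2) := by
    funext i
    exact congrArg Prod.fst (congrFun h i)
  have h2 : (Fin.snoc (fun i => (v i).1) b : Fin (M + 1) → Bool) =
      Fin.snoc (fun i => (v' i).1) b' := by
    funext i
    exact congrArg Prod.snd (congrFun h i)
  have ha : a = a' := by
    have := congrFun h1 0
    rwa [Fin.cons_zero, Fin.cons_zero] at this
  have hb : b = b' := by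
    have := congrFun h2 (Fin.last M)
    rwa [Fin.snoc_last, Fin.snoc_last] at this
  refine ⟨ha, hb, ?_⟩
  funext i
  have e1 := congrFun h1 i.succ
  have e2 := congrFun h2 i.castSucc
  rw [Fin.cons_succ, Fin.cons_succ] at e1
  rw [Fin.snoc_castSucc, Fin.snoc_castSucc] at e2
  exact Prod.ext e2 e1

theorem px_mk {M : ℕ} (a b : Bool) (v : Wd M) : FCC.px (mk a b v) = bv a / 4 + FCC.py v / 4 := by
  unfold FCC.px FCC.py mk
  rw [Fin.sum_univ_succ, Finset.sum_div]
  congr 1
  · simp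
  · refine Finset.sum_congr rfl fun i _ => ?_
    simp only [Fin.cons_succ, Fin.val_succ]
    rw [pow_succ (4 : ℝ) (i.val + 1), div_div]

theorem py_mk {M : ℕ} (a b : Bool) (v : Wd M) :
    FCC.py (mk a b v) = FCC.px v + bv b / 4 ^ (M + 1) := by
  unfold FCC.px FCC.py mk
  rw [Fin.sum_univ_castSucc]
  congr 1
  · refine Finset.sum_congr rfl fun i _ => ?_
    simp only [Fin.snoc_castSucc, Fin.val_castSucc]
  · simp

theorem sum_mk {M : ℕ} (g : Wd (M + 1) → ℝ) :
    ∑ w, g w = ∑ v : Wd M, ∑ a : Bool, ∑ b : Bool, g (mk a b v) := by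
  have hinj : Function.Injective (fun p : Wd M × Bool × Bool => mk p.2.1 p.2.2 p.1) := by
    rintro ⟨v, a, b⟩ ⟨v', a', b'⟩ h
    obtain ⟨rfl, rfl, rfl⟩ := mk_inj h
    rfl
  have hbij : Function.Bijective (fun p : Wd M × Bool × Bool => mk p.2.1 p.2.2 p.1) := by
    rw [Fintype.bijective_iff_injective_and_card]
    refine ⟨hinj, ?_⟩
    rw [Fintype.card_prod, Fintype.card_prod, Fintype.card_bool, card_Wd, card_Wd, pow_succ]
  rw [← Function.Bijective.sum_comp hbij g, Fintype.sum_prod_type]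
  refine Finset.sum_congr rfl fun v _ => ?_
  rw [Fintype.sum_prod_type]

theorem key {M : ℕ} {t : ℝ} (ht : 1 / 4 ≤ t) (ht2 : t ≤ 1 / 2) (a : Bool) (v : Wd M) (x : ℝ) :
    (FCC.psq (1 / (4 * t)) v).indicator (fun _ => (1 : ℝ)) (x - 1 / (4 * t) * bv a) ≤
      ∑ b : Bool, (FCC.psq t (mk a b v)).indicator (fun _ => (1 : ℝ)) (t * x) := by
  have ht0 : 0 < t := by linarith
  have hnn : ∀ b : Bool, 0 ≤ (FCC.psq t (mk a b v)).indicator (fun _ => (1 : ℝ)) (t * x) :=
    fun b => indicator_nonneg (fun _ _ => zero_le_one) _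
  by_cases hx : x - 1 / (4 * t) * bv a ∈ FCC.psq (1 / (4 * t)) v
  · rw [indicator_of_mem hx]
    obtain ⟨h1, h2⟩ := hx
    have h4 : (0 : ℝ) < 4 ^ (M + 1) := by positivity
    have hu : t * (1 / (4 * t)) = 1 / 4 := by field_simp
    have hpr : ∀ b : Bool, FCC.pr t (mk a b v) =
        t * (1 / (4 * t) * bv a + FCC.pr (1 / (4 * t)) v + bv b / 4 ^ (M + 1)) := by
      intro b
      unfold FCC.pr
      rw [px_mk, py_mk]
      have : t * (1 / (4 * t) * bv a + (FCC.px v + 1 / (4 * t) * FCC.py v) + bv b / 4 ^ (M + 1)) =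
        t * (1 / (4 * t)) * bv a + t * FCC.px v + t * (1 / (4 * t)) * FCC.py v +
          t * (bv b / 4 ^ (M + 1)) := by ring
      rw [this, hu]
      ring
    have hlen : (1 + t) / 4 ^ (M + 1) = t * ((1 + 1 / t) / 4 ^ (M + 1)) := by
      field_simp
      ring
    have hlen2 : (1 + 1 / (4 * t)) / 4 ^ M = (4 + 1 / t) / 4 ^ (M + 1) := by
      rw [pow_succ]
      field_simp
    have hinv : 2 ≤ 1 / t := by
      rw [le_div_iff₀ ht0]
      linarith
    have hmem : ∀ b : Bool, 1 / (4 * t) * bv a + FCC.pr (1 / (4 * t)) v + bv b / 4 ^ (M + 1) ≤ x →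
        x ≤ 1 / (4 * t) * bv a + FCC.pr (1 / (4 * t)) v + bv b / 4 ^ (M + 1) +
          (1 + 1 / t) / 4 ^ (M + 1) → t * x ∈ FCC.psq t (mk a b v) := by
      intro b hb1 hb2
      unfold FCC.psq
      rw [hpr, hlen, mem_Icc, ← mul_add]
      exact ⟨mul_le_mul_of_nonneg_left hb1 ht0.le, mul_le_mul_of_nonneg_left hb2 ht0.le⟩
    rw [hlen2] at h2
    set z : ℝ := 1 / (4 * t) * bv a + FCC.pr (1 / (4 * t)) v with hz
    have hzx : z ≤ x := by linarith
    have hzx2 : x ≤ z + (4 + 1 / t) / 4 ^ (M + 1) := by linarith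
    rcases le_or_gt x (z + (1 + 1 / t) / 4 ^ (M + 1)) with hc | hc
    · have hm : t * x ∈ FCC.psq t (mk a false v) := by
        refine hmem false ?_ ?_
        · have : bv false = 0 := rfl
          rw [this]
          linarith [zero_div ((4 : ℝ) ^ (M + 1))]
        · have : bv false = 0 := rfl
          rw [this, zero_div, add_zero]
          exact hc
      rw [Fintype.sum_bool, indicator_of_mem hm]
      linarith [hnn true]
    · have hm : t * x ∈ FCC.psq t (mk a true v) := by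
        have h3 : bv true = 3 := rfl
        have h5 : (3 : ℝ) / 4 ^ (M + 1) ≤ (1 + 1 / t) / 4 ^ (M + 1) :=
          div_le_div_of_nonneg_right (by linarith) h4.le
        have h6 : (4 + 1 / t) / 4 ^ (M + 1) = 3 / 4 ^ (M + 1) + (1 + 1 / t) / 4 ^ (M + 1) := by
          rw [← add_div]
          congr 1
          ring
        refine hmem true ?_ ?_
        · rw [h3]
          linarith
        · rw [h3]
          linarith
      rw [Fintype.sum_bool, indicator_of_mem hm]
      linarith [hnn false]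
  · rw [indicator_of_notMem hx]
    exact Finset.sum_nonneg fun b _ => hnn b

theorem f_ge {M : ℕ} {t : ℝ} (ht : 1 / 4 ≤ t) (ht2 : t ≤ 1 / 2) (x : ℝ) :
    f M (1 / (4 * t)) x + f M (1 / (4 * t)) (x - 3 * (1 / (4 * t))) ≤ f (M + 1) t (t * x) := by
  have h1 : f (M + 1) t (t * x) = ∑ v : Wd M, ∑ a : Bool, ∑ b : Bool,
      (FCC.psq t (mk a b v)).indicator (fun _ => (1 : ℝ)) (t * x) := by
    unfold f
    exact sum_mk _
  rw [h1]
  unfold f
  rw [← Finset.sum_add_distrib]
  refine Finset.sum_le_sum fun v _ => ?_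
  rw [Fintype.sum_bool (fun a : Bool => ∑ b : Bool,
      (FCC.psq t (mk a b v)).indicator (fun _ => (1 : ℝ)) (t * x)), add_comm]
  refine add_le_add ?_ ?_
  · have := key ht ht2 true v x
    have h3 : bv true = 3 := rfl
    rwa [h3, mul_comm (1 / (4 * t)) 3] at this
  · have := key ht ht2 false v x
    have h3 : bv false = 0 := rfl
    rwa [h3, mul_zero, sub_zero] at this

end SYMS

open SYMS

theorem SYMS_thm : Stmt_SYMS := by
  intro N t hN ht ht2
  obtain ⟨M, rfl⟩ : ∃ M, N = M + 1 := ⟨N - 1, by omega⟩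
  rw [Nat.add_sub_cancel]
  have ht0 : 0 < t := by linarith
  set u : ℝ := 1 / (4 * t) with hu
  have hint : Integrable (fun x => FCC.f M u x ^ 2) := FCC.integrable_f_sq M u
  have hint2 : Integrable (fun x => FCC.f M u (x - 3 * u) ^ 2) := hint.comp_sub_right (3 * u)
  have h1 : ∫ x, (FCC.f M u x ^ 2 + FCC.f M u (x - 3 * u) ^ 2) = 2 * FCC.S M u := by
    rw [integral_add hint hint2,
      integral_sub_right_eq_self (fun x => FCC.f M u x ^ 2) (3 * u) (μ := volume)]
    unfold FCC.S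
    ring
  have h2 : ∫ x, FCC.f (M + 1) t (t * x) ^ 2 = t⁻¹ * FCC.S (M + 1) t := by
    rw [Measure.integral_comp_mul_left (fun x => FCC.f (M + 1) t x ^ 2) t,
      abs_of_pos (by positivity), smul_eq_mul]
    rfl
  have hint3 : Integrable (fun x => FCC.f (M + 1) t (t * x) ^ 2) :=
    (FCC.integrable_f_sq (M + 1) t).comp_mul_left' ht0.ne'
  have h3 : ∫ x, (FCC.f M u x ^ 2 + FCC.f M u (x - 3 * u) ^ 2) ≤
      ∫ x, FCC.f (M + 1) t (t * x) ^ 2 := by
    refine integral_mono (hint.add hint2) hint3 fun x => ?_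
    have a1 := FCC.f_nonneg M u x
    have a2 := FCC.f_nonneg M u (x - 3 * u)
    have a3 := f_ge (M := M) ht ht2 x
    rw [← hu] at a3
    calc FCC.f M u x ^ 2 + FCC.f M u (x - 3 * u) ^ 2
        ≤ (FCC.f M u x + FCC.f M u (x - 3 * u)) ^ 2 := by nlinarith
      _ ≤ FCC.f (M + 1) t (t * x) ^ 2 := pow_le_pow_left₀ (add_nonneg a1 a2) a3 2
  rw [h1, h2] at h3
  have h4 : t⁻¹ ≤ 4 := by
    rw [inv_le_comm₀ ht0 (by norm_num)]
    linarith
  have h5 := mul_le_mul_of_nonneg_right h4 (FCC.S_nonneg (M + 1) t)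
  linarith

end Pool.Agent.FCK
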