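import Pool.Agent.FCK.Stmts

/-!
# TAIL3: directions with small second moment are rare, all directions
-/

set_option autoImplicit false

namespace Pool.Agent.FCK

open MeasureTheory Set
open scoped ENNReal NNReal

namespace TAIL3

/-- `(a x)^s ≤ a x^s` for `a ≥ 1`. -/
theorem rp {a x : ℝ} (ha : 1 ≤ a) (hx : 0 ≤ x) :
    (a * x) ^ (101 / 200 : ℝ) ≤ a * x ^ (101 / 200 : ℝ) := by
  rw [Real.mul_rpow (by linarith) hx]
  refine mul_le_mul_of_nonneg_right ?_ (Real.rpow_nonneg hx _)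
  calc a ^ (101 / 200 : ℝ) ≤ a ^ (1 : ℝ) := Real.rpow_le_rpow_of_exponent_le ha (by norm_num)
    _ = a := Real.rpow_one a

theorem of_toReal {X : Set ℝ} {a b : ℝ} (hX : X ⊆ Icc a b) {c : ℝ}
    (h : (volume X).toReal ≤ c) : volume X ≤ ENNReal.ofReal c := by
  have h1 : volume X ≠ ⊤ := by
    refine ne_top_of_le_ne_top ?_ (measure_mono hX)
    rw [Real.volume_Icc]
    exact ENNReal.ofReal_ne_top
  rw [← ENNReal.ofReal_toReal h1]
  exact ENNReal.ofReal_le_ofReal h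

/-- the map `u ↦ 1/(4u)` is a contraction on `[1/2, 1]` -/
theorem lip : LipschitzOnWith 1 (fun u : ℝ => 1 / (4 * u)) (Icc (1 / 2) 1) := by
  refine LipschitzOnWith.of_dist_le_mul fun u hu v hv => ?_
  have hu0 : 0 < u := by linarith [hu.1]
  have hv0 : 0 < v := by linarith [hv.1]
  rw [NNReal.coe_one, one_mul, Real.dist_eq, Real.dist_eq]
  have e : 1 / (4 * u) - 1 / (4 * v) = (v - u) / (4 * (u * v)) := by
    field_simp
  have h1 : 1 ≤ 4 * (u * v) := by nlinarith [hu.1, hv.1]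
  rw [e, abs_div, abs_of_pos (by positivity : 0 < 4 * (u * v)), abs_sub_comm v u]
  exact div_le_self (abs_nonneg _) h1

theorem vol_image (X : Set ℝ) (hX : X ⊆ Icc (1 / 2) 1) :
    volume ((fun u : ℝ => 1 / (4 * u)) '' X) ≤ volume X := by
  have h := (lip.mono hX).hausdorffMeasure_image_le (d := 1) zero_le_one
  rw [hausdorffMeasure_real] at h
  simpa using h

/-- the tail on `[1/4, 1]` -/
theorem volB (hSYMS : Stmt_SYMS) {C : ℝ} (hC : 0 < C)
    (hT : ∀ (N : ℕ) (y : ℝ), 1 ≤ N → 0 < y →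
      (volume {t : ℝ | t ∈ Icc (1 / 2 : ℝ) 1 ∧ FCC.S N t ≤ y}).toReal ≤
        C * (y / N) ^ (101 / 200 : ℝ)) (M : ℕ) (z : ℝ) (hM : 2 ≤ M) (hz : 0 < z) :
    volume {t : ℝ | t ∈ Icc (1 / 4 : ℝ) 1 ∧ FCC.S M t ≤ z} ≤
      ENNReal.ofReal (5 * C * (z / M) ^ (101 / 200 : ℝ)) := by
  have hM' : (2 : ℝ) ≤ M := by exact_mod_cast hM
  have hc : ((M - 1 : ℕ) : ℝ) = M - 1 := by
    rw [Nat.cast_sub (by omega), Nat.cast_one]
  have hsub : {t : ℝ | t ∈ Icc (1 / 4 : ℝ) 1 ∧ FCC.S M t ≤ z} ⊆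
      {t : ℝ | t ∈ Icc (1 / 2 : ℝ) 1 ∧ FCC.S M t ≤ z} ∪
        (fun u : ℝ => 1 / (4 * u)) '' {t : ℝ | t ∈ Icc (1 / 2 : ℝ) 1 ∧ FCC.S (M - 1) t ≤ 2 * z} := by
    rintro t ⟨⟨h1, h2⟩, h3⟩
    by_cases h : 1 / 2 ≤ t
    · exact Or.inl ⟨⟨h, h2⟩, h3⟩
    · have h : t ≤ 1 / 2 := (not_le.1 h).le
      have ht : 0 < t := by linarith
      refine Or.inr ⟨1 / (4 * t), ⟨⟨?_, ?_⟩, ?_⟩, ?_⟩
      · rw [div_le_div_iff₀ (by norm_num) (by positivity)]
        linarith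
      · rw [div_le_one (by positivity)]
        linarith
      · exact (hSYMS M t (by omega) h1 h).trans (by linarith)
      · show 1 / (4 * (1 / (4 * t))) = t
        field_simp
  have b1 : volume {t : ℝ | t ∈ Icc (1 / 2 : ℝ) 1 ∧ FCC.S M t ≤ z} ≤
      ENNReal.ofReal (C * (z / M) ^ (101 / 200 : ℝ)) :=
    of_toReal (fun t ht => ht.1) (hT M z (by omega) hz)
  have b2 : volume {t : ℝ | t ∈ Icc (1 / 2 : ℝ) 1 ∧ FCC.S (M - 1) t ≤ 2 * z} ≤
      ENNReal.ofReal (4 * C * (z / M) ^ (101 / 200 : ℝ)) := by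
    refine (of_toReal (fun t ht => ht.1) (hT (M - 1) (2 * z) (by omega) (by linarith))).trans
      (ENNReal.ofReal_le_ofReal ?_)
    have h0 : 0 ≤ z / M := by positivity
    have h1 : 2 * z / ((M - 1 : ℕ) : ℝ) ≤ 4 * (z / M) := by
      rw [hc, ← mul_div_assoc, div_le_div_iff₀ (by linarith) (by linarith)]
      nlinarith
    calc C * (2 * z / ((M - 1 : ℕ) : ℝ)) ^ (101 / 200 : ℝ)
        ≤ C * (4 * (z / M)) ^ (101 / 200 : ℝ) := by
          refine mul_le_mul_of_nonneg_left (Real.rpow_le_rpow ?_ h1 (by norm_num)) hC.le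
          rw [hc]
          exact div_nonneg (by linarith) (by linarith)
      _ ≤ C * (4 * (z / M) ^ (101 / 200 : ℝ)) :=
          mul_le_mul_of_nonneg_left (rp (by norm_num) h0) hC.le
      _ = 4 * C * (z / M) ^ (101 / 200 : ℝ) := by ring
  have h0 : 0 ≤ (z / M) ^ (101 / 200 : ℝ) := Real.rpow_nonneg (by positivity) _
  calc volume {t : ℝ | t ∈ Icc (1 / 4 : ℝ) 1 ∧ FCC.S M t ≤ z}
      ≤ volume {t : ℝ | t ∈ Icc (1 / 2 : ℝ) 1 ∧ FCC.S M t ≤ z} +
        volume ((fun u : ℝ => 1 / (4 * u)) ''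
          {t : ℝ | t ∈ Icc (1 / 2 : ℝ) 1 ∧ FCC.S (M - 1) t ≤ 2 * z}) :=
        (measure_mono hsub).trans (measure_union_le _ _)
    _ ≤ ENNReal.ofReal (C * (z / M) ^ (101 / 200 : ℝ)) +
        ENNReal.ofReal (4 * C * (z / M) ^ (101 / 200 : ℝ)) :=
        add_le_add b1 ((vol_image _ fun t ht => ht.1).trans b2)
    _ = ENNReal.ofReal (5 * C * (z / M) ^ (101 / 200 : ℝ)) := by
        rw [← ENNReal.ofReal_add (by positivity) (by positivity)]
        congr 1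
        ring

/-- one dyadic block -/
theorem volK (hSYMS : Stmt_SYMS) (hSCLS : Stmt_SCLS) {C : ℝ} (hC : 0 < C)
    (hT : ∀ (N : ℕ) (y : ℝ), 1 ≤ N → 0 < y →
      (volume {t : ℝ | t ∈ Icc (1 / 2 : ℝ) 1 ∧ FCC.S N t ≤ y}).toReal ≤
        C * (y / N) ^ (101 / 200 : ℝ)) (N k : ℕ) (y : ℝ) (hk : 2 * (k + 1) ≤ N) (hy : 0 < y) :
    volume {t : ℝ | t ∈ Icc (1 / 4 ^ (k + 1) : ℝ) (1 / 4 ^ k) ∧ FCC.S N t ≤ y} ≤
      ENNReal.ofReal ((1 / 4) ^ k * (160 * C * (y / N) ^ (101 / 200 : ℝ))) := by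
  have h4 : (0 : ℝ) < 4 ^ k := by positivity
  have hNk : (N : ℝ) ≤ 2 * ((N - k : ℕ) : ℝ) := by
    have : N ≤ 2 * (N - k) := by omega
    exact_mod_cast this
  have hN0 : (0 : ℝ) < N := by
    have : 0 < N := by omega
    exact_mod_cast this
  have hNk0 : (0 : ℝ) < ((N - k : ℕ) : ℝ) := by linarith
  have hsub : {t : ℝ | t ∈ Icc (1 / 4 ^ (k + 1) : ℝ) (1 / 4 ^ k) ∧ FCC.S N t ≤ y} ⊆
      (fun t : ℝ => 4 ^ k * t) ⁻¹'
        {s : ℝ | s ∈ Icc (1 / 4 : ℝ) 1 ∧ FCC.S (N - k) s ≤ 16 * y / 2 ^ k} := by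
    rintro t ⟨⟨h1, h2⟩, h3⟩
    have h5 : 4 ^ k * t ≤ 1 := by
      calc 4 ^ k * t ≤ 4 ^ k * (1 / 4 ^ k) := mul_le_mul_of_nonneg_left h2 h4.le
        _ = 1 := by field_simp
    have h6 : 1 / 4 ≤ 4 ^ k * t := by
      calc (1 / 4 : ℝ) = 4 ^ k * (1 / 4 ^ (k + 1)) := by
            rw [pow_succ]
            field_simp
        _ ≤ 4 ^ k * t := mul_le_mul_of_nonneg_left h1 h4.le
    refine ⟨⟨h6, h5⟩, ?_⟩
    have h7 := hSCLS N k (4 ^ k * t) (by linarith) h5 (by omega)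
    rw [mul_div_cancel_left₀ t h4.ne'] at h7
    rw [le_div_iff₀ (by positivity)]
    calc FCC.S (N - k) (4 ^ k * t) * 2 ^ k = 2 ^ k * FCC.S (N - k) (4 ^ k * t) := mul_comm _ _
      _ ≤ 16 * FCC.S N t := h7
      _ ≤ 16 * y := by linarith
  have h8 := volB hSYMS hC hT (N - k) (16 * y / 2 ^ k) (by omega) (by positivity)
  have h9 : (16 * y / 2 ^ k) / ((N - k : ℕ) : ℝ) ≤ 32 * (y / N) := by
    have h10 : 16 * y / 2 ^ k ≤ 16 * y := div_le_self (by positivity) (one_le_pow₀ (by norm_num))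
    calc (16 * y / 2 ^ k) / ((N - k : ℕ) : ℝ) ≤ 16 * y / ((N - k : ℕ) : ℝ) :=
          div_le_div_of_nonneg_right h10 hNk0.le
      _ ≤ 32 * (y / N) := by
          rw [← mul_div_assoc, div_le_div_iff₀ hNk0 hN0]
          nlinarith
  have h11 : ((16 * y / 2 ^ k) / ((N - k : ℕ) : ℝ)) ^ (101 / 200 : ℝ) ≤
      32 * (y / N) ^ (101 / 200 : ℝ) :=
    (Real.rpow_le_rpow (by positivity) h9 (by norm_num)).trans (rp (by norm_num) (by positivity))
  calc volume {t : ℝ | t ∈ Icc (1 / 4 ^ (k + 1) : ℝ) (1 / 4 ^ k) ∧ FCC.S N t ≤ y}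
      ≤ volume ((fun t : ℝ => 4 ^ k * t) ⁻¹'
        {s : ℝ | s ∈ Icc (1 / 4 : ℝ) 1 ∧ FCC.S (N - k) s ≤ 16 * y / 2 ^ k}) := measure_mono hsub
    _ = ENNReal.ofReal (1 / 4 ^ k) *
        volume {s : ℝ | s ∈ Icc (1 / 4 : ℝ) 1 ∧ FCC.S (N - k) s ≤ 16 * y / 2 ^ k} := by
        rw [Real.volume_preimage_mul_left h4.ne', abs_of_pos (by positivity), inv_eq_one_div]
    _ ≤ ENNReal.ofReal (1 / 4 ^ k) *
        ENNReal.ofReal (5 * C * ((16 * y / 2 ^ k) / ((N - k : ℕ) : ℝ)) ^ (101 / 200 : ℝ)) :=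
        mul_le_mul_right h8 _
    _ = ENNReal.ofReal (1 / 4 ^ k *
        (5 * C * ((16 * y / 2 ^ k) / ((N - k : ℕ) : ℝ)) ^ (101 / 200 : ℝ))) :=
        (ENNReal.ofReal_mul (by positivity)).symm
    _ ≤ ENNReal.ofReal ((1 / 4) ^ k * (160 * C * (y / N) ^ (101 / 200 : ℝ))) := by
        refine ENNReal.ofReal_le_ofReal ?_
        rw [one_div_pow]
        refine mul_le_mul_of_nonneg_left ?_ (by positivity)
        calc 5 * C * ((16 * y / 2 ^ k) / ((N - k : ℕ) : ℝ)) ^ (101 / 200 : ℝ)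
            ≤ 5 * C * (32 * (y / N) ^ (101 / 200 : ℝ)) :=
              mul_le_mul_of_nonneg_left h11 (by positivity)
          _ = 160 * C * (y / N) ^ (101 / 200 : ℝ) := by ring

theorem cover (m : ℕ) : ∀ t : ℝ, t ∈ Icc (0 : ℝ) 1 → t ∈ Icc (0 : ℝ) (1 / 4 ^ m) ∨
    ∃ k ∈ Finset.range m, t ∈ Icc (1 / 4 ^ (k + 1) : ℝ) (1 / 4 ^ k) := by
  induction m with
  | zero =>
    intro t ht
    left
    simpa using ht
  | succ m ih =>
    intro t ht
    rcases ih t ht with h | ⟨k, hk, h⟩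
    · by_cases h1 : t ≤ 1 / 4 ^ (m + 1)
      · exact Or.inl ⟨h.1, h1⟩
      · exact Or.inr ⟨m, Finset.mem_range.2 (Nat.lt_succ_self m), (not_le.1 h1).le, h.2⟩
    · exact Or.inr ⟨k, Finset.mem_range.2 ((Finset.mem_range.1 hk).trans (Nat.lt_succ_self m)), h⟩

theorem geo (m : ℕ) : ∑ k ∈ Finset.range m, (1 / 4 : ℝ) ^ k ≤ 2 := by
  have h : ∀ m : ℕ, ∑ k ∈ Finset.range m, (1 / 4 : ℝ) ^ k ≤ 4 / 3 - 4 / 3 * (1 / 4) ^ m := by
    intro m
    induction m with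
    | zero => norm_num
    | succ m ih =>
      rw [Finset.sum_range_succ, pow_succ]
      have : (0 : ℝ) < (1 / 4) ^ m := by positivity
      linarith
  have := h m
  have h2 : (0 : ℝ) < (1 / 4) ^ m := by positivity
  linarith

end TAIL3

open TAIL3 in
theorem TAIL3_thm (hTQ : Stmt_TQ) (hSYMS : Stmt_SYMS) (hSCLS : Stmt_SCLS) : Stmt_TAIL3 := by
  obtain ⟨C, hC, hT⟩ := hTQ
  refine ⟨320 * C + 2, by positivity, fun N y hN hy => ?_⟩
  have hN' : (1 : ℝ) ≤ N := by exact_mod_cast hN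
  have hR : 0 ≤ (y / N) ^ (101 / 200 : ℝ) := Real.rpow_nonneg (by positivity) _
  by_cases hy1 : y < 1
  · have : {t : ℝ | t ∈ Icc (0 : ℝ) 1 ∧ FCC.S N t ≤ y} = ∅ := by
      ext t
      simp only [mem_ofPred_eq, mem_empty_iff_false, iff_false]
      rintro ⟨h1, h2⟩
      have h3 := FCC.S_mono t (Nat.zero_le N)
      have h4 : FCC.S 0 t = 1 + t := FCC.S_zero h1.1
      have h5 : FCC.S 0 t ≤ FCC.S N t := h3
      linarith [h1.1]
    rw [this, measure_empty, ENNReal.toReal_zero]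
    positivity
  · have hy1 : 1 ≤ y := not_lt.1 hy1
    refine ENNReal.toReal_le_of_le_ofReal (by positivity) ?_
    have hcov : {t : ℝ | t ∈ Icc (0 : ℝ) 1 ∧ FCC.S N t ≤ y} ⊆
        Icc (0 : ℝ) (1 / 4 ^ (N / 2)) ∪ ⋃ k ∈ Finset.range (N / 2),
          {t : ℝ | t ∈ Icc (1 / 4 ^ (k + 1) : ℝ) (1 / 4 ^ k) ∧ FCC.S N t ≤ y} := by
      rintro t ⟨h1, h2⟩
      rcases cover (N / 2) t h1 with h | ⟨k, hk, h⟩
      · exact Or.inl h
      · right
        simp only [mem_iUnion]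
        exact ⟨k, hk, h, h2⟩
    have h1 : (1 / 4 : ℝ) ^ (N / 2) ≤ 2 * (y / N) ^ (101 / 200 : ℝ) := by
      have e1 : (1 / 4 : ℝ) ^ (N / 2) ≤ 2 / 2 ^ N := by
        rw [one_div_pow, div_le_div_iff₀ (by positivity) (by positivity), one_mul]
        calc (2 : ℝ) ^ N ≤ 2 ^ (2 * (N / 2) + 1) :=
              pow_le_pow_right₀ (by norm_num) (by omega)
          _ = 2 * 4 ^ (N / 2) := by
              rw [pow_succ, pow_mul]
              norm_num
              ring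
      have e2 : (N : ℝ) ≤ 2 ^ N := by
        exact_mod_cast (Nat.lt_two_pow_self (n := N)).le
      have e3 : (2 : ℝ) / 2 ^ N ≤ 2 * (1 / N) := by
        rw [mul_one_div]
        exact div_le_div_of_nonneg_left (by norm_num) (by linarith) e2
      have e4 : (1 / N : ℝ) ≤ (1 / N) ^ (101 / 200 : ℝ) := by
        have h1N : (1 / N : ℝ) ≤ 1 := by
          rw [div_le_one (by linarith)]
          exact hN'
        calc (1 / N : ℝ) = (1 / N) ^ (1 : ℝ) := (Real.rpow_one _).symm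
          _ ≤ (1 / N) ^ (101 / 200 : ℝ) :=
            Real.rpow_le_rpow_of_exponent_ge (by positivity) h1N (by norm_num)
      have e5 : (1 / N : ℝ) ^ (101 / 200 : ℝ) ≤ (y / N) ^ (101 / 200 : ℝ) :=
        Real.rpow_le_rpow (by positivity) (div_le_div_of_nonneg_right hy1 (by linarith))
          (by norm_num)
      linarith
    calc volume {t : ℝ | t ∈ Icc (0 : ℝ) 1 ∧ FCC.S N t ≤ y}
        ≤ volume (Icc (0 : ℝ) (1 / 4 ^ (N / 2))) +
          volume (⋃ k ∈ Finset.range (N / 2),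
            {t : ℝ | t ∈ Icc (1 / 4 ^ (k + 1) : ℝ) (1 / 4 ^ k) ∧ FCC.S N t ≤ y}) :=
          (measure_mono hcov).trans (measure_union_le _ _)
      _ ≤ ENNReal.ofReal ((1 / 4) ^ (N / 2)) +
          ∑ k ∈ Finset.range (N / 2),
            ENNReal.ofReal ((1 / 4) ^ k * (160 * C * (y / N) ^ (101 / 200 : ℝ))) := by
          refine add_le_add ?_ ?_
          · rw [Real.volume_Icc, sub_zero, one_div_pow]
          · refine (measure_biUnion_finset_le _ _).trans (Finset.sum_le_sum fun k hk => ?_)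
            have hk' := Finset.mem_range.1 hk
            exact volK hSYMS hSCLS hC hT N k y (by omega) hy
      _ = ENNReal.ofReal ((1 / 4) ^ (N / 2) + ∑ k ∈ Finset.range (N / 2),
            (1 / 4) ^ k * (160 * C * (y / N) ^ (101 / 200 : ℝ))) := by
          rw [ENNReal.ofReal_add (by positivity) (Finset.sum_nonneg fun k _ => by positivity),
            ENNReal.ofReal_sum_of_nonneg fun k _ => by positivity]
      _ ≤ ENNReal.ofReal ((320 * C + 2) * (y / N) ^ (101 / 200 : ℝ)) := by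
          refine ENNReal.ofReal_le_ofReal ?_
          rw [← Finset.sum_mul]
          have h2 := geo (N / 2)
          have h3 : (∑ k ∈ Finset.range (N / 2), (1 / 4 : ℝ) ^ k) *
              (160 * C * (y / N) ^ (101 / 200 : ℝ)) ≤
              2 * (160 * C * (y / N) ^ (101 / 200 : ℝ)) :=
            mul_le_mul_of_nonneg_right h2 (by positivity)
          linarith

end Pool.Agent.FCK
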