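import Pool.Agent.FCK.Stmts
import Pool.Agent.FCQ.FINQ

/-!
# The tail of the second moment in the main range
-/

set_option autoImplicit false

namespace Pool.Agent.FCK

open MeasureTheory Set
open Pool.Agent.FCQ

/-- `FCQ.TAIL2_thm` with its hypotheses. -/
theorem TQ_thm : Stmt_TQ := by
  have hW1 : Stmt_W1 := W1_thm EXP2_thm COV_thm (COMP_thm LAM_thm)
  have hW2 : Stmt_W2 := W2_thm EXP2_thm hW1 JEN_thm
  have hDER : Stmt_DER := DER_thm EXP2_thm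
  have hW3 : Stmt_W3 := W3_thm EXP2_thm hW1 hDER SOB_thm
  have hFINX : Stmt_FINX := FINX_thm hW1
  have hGRO : Stmt_GRO := GRO_thm (REC1_thm hW2 COVW_thm hFINX)
  have hNRB : Stmt_NRB := NRB_thm PLN_thm (FTG_thm FTR_thm hDER) PSI_thm hDER
  have hREC2 : Stmt_REC2 :=
    REC2_thm (LOCB_thm hW2 hW3 hFINX) COVW_thm (RATE_thm hNRB SHORT_thm) hFINX
  have hREC3 : Stmt_REC3 := REC3_thm hREC2 hFINX
  have hLOWJ : Stmt_LOWJ := LOWJ_thm COV_thm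
  have hONE2 : Stmt_ONE2 :=
    ONE2_thm (ONE1_thm hLOWJ hGRO hFINX EXPO_thm) hREC3 hGRO SEQ_thm hFINX hLOWJ EXPO_thm
  have hMIDF : Stmt_MIDF := MIDF_thm hREC3 hGRO SEQ_thm hFINX
  have hHALF2 : Stmt_HALF2 := HALF2_thm (HALF1_thm hGRO hFINX) hREC3 hGRO SEQ_thm hFINX
  have hD := DATS_thm CM_thm (GMID_thm COV_thm JEN_thm) C.co C.gone
  exact TAIL2_thm (MOM_thm hD hMIDF hHALF2 hONE2 EDGE_thm hFINX) AUT1_thm AUT2_thm

end Pool.Agent.FCK
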