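import Pool.Agent.FCK.Stmts

/-! # UPPK: the upper bound for the Favard length of the generations -/

set_option autoImplicit false

namespace Pool.Agent.FCK

theorem UPPK.pos_of_adm {δ : ℝ} {lam : ℕ → ℝ} (hδ : 0 < δ) (h : Adm δ lam) : Pos lam := by
  intro k
  rcases h k with h1 | ⟨h1, h2⟩
  · rw [h1]; constructor <;> norm_num
  · constructor <;> linarith

theorem UPPK.one_le_Th (lam : ℕ → ℝ) (n : ℕ) : 1 ≤ Th lam n := by
  have h0 : th lam 0 ^ 2 = 1 := by simp [th, sg]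
  calc (1 : ℝ) = th lam 0 ^ 2 := h0.symm
    _ ≤ Th lam n := Finset.single_le_sum (f := fun k => th lam k ^ 2)
        (fun i _ => sq_nonneg _) (Finset.mem_range.2 (Nat.succ_pos n))

theorem UPPK_thm (hI : Stmt_INTK) (hF : Stmt_FAVK) (hG : Stmt_GEOM) : Stmt_UPPK := by
  intro δ hδ
  obtain ⟨C, hC, hInt⟩ := hI δ hδ
  have hA : 0 < 1 + 1 / (4 * δ) := by positivity
  refine ⟨4 * C * √(1 + 1 / (4 * δ)), by positivity, fun lam n hadm => ?_⟩
  have hpos := UPPK.pos_of_adm hδ hadm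
  have h1 := hF lam n hpos
  have h2 := hInt lam n hadm
  have h3 := (hG δ lam n hδ hadm).2
  have hTh : 1 ≤ Th lam n := UPPK.one_le_Th lam n
  have hTh0 : 0 < √(Th lam n) := Real.sqrt_pos.2 (by linarith)
  have hX : 0 < 1 + SD lam n := by
    by_contra hcon
    have : (1 + 1 / (4 * δ)) * (1 + SD lam n) ≤ 0 :=
      mul_nonpos_of_nonneg_of_nonpos hA.le (not_lt.1 hcon)
    linarith
  have hX0 : 0 < √(1 + SD lam n) := Real.sqrt_pos.2 hX
  have h4 : √(Th lam n) ≤ √(1 + 1 / (4 * δ)) * √(1 + SD lam n) := by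
    rw [← Real.sqrt_mul hA.le]
    exact Real.sqrt_le_sqrt h3
  have h5 : C / √(1 + SD lam n) ≤ C * √(1 + 1 / (4 * δ)) / √(Th lam n) := by
    rw [div_le_div_iff₀ hX0 hTh0]
    calc C * √(Th lam n) ≤ C * (√(1 + 1 / (4 * δ)) * √(1 + SD lam n)) :=
          mul_le_mul_of_nonneg_left h4 hC.le
      _ = C * √(1 + 1 / (4 * δ)) * √(1 + SD lam n) := by ring
  calc FCC.Fav (E lam n) ≤ 4 * ∫ t in (0 : ℝ)..1, L lam n t := h1
    _ ≤ 4 * (C / √(1 + SD lam n)) := by linarith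
    _ ≤ 4 * (C * √(1 + 1 / (4 * δ)) / √(Th lam n)) := by linarith
    _ = 4 * C * √(1 + 1 / (4 * δ)) / √(Th lam n) := by ring

end Pool.Agent.FCK
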